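import Pool.Agent.BJ.Defs
import Pool.Agent.Lib_MP_33ea09_lc.VerP

/-!
# Arithmetic with numbers in binary, in polynomial time
-/

set_option linter.unusedSectionVars false
set_option linter.unusedVariables false

namespace Pool.Agent.BJ

open Pool.Agent.Bx81 Pool.Agent.PT81 Pool.Agent.IsoImp Turing Polynomial

/-! ### Values of lists of bits -/

@[simp] theorem bval_nil : bval [] = 0 := rfl

@[simp] theorem bval_cons (b : Bool) (l : List Bool) : bval (b :: l) = 2 * bval l + b.toNat := rfl

theorem bval_append (x y : List Bool) : bval (x ++ y) = bval x + 2 ^ x.length * bval y := by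
  induction x with
  | nil => simp
  | cons b x ih =>
    rw [List.cons_append, bval_cons, bval_cons, ih, List.length_cons, pow_succ]
    ring

theorem bval_replicate_false (n : ℕ) : bval (List.replicate n false) = 0 := by
  induction n with
  | zero => rfl
  | succ n ih => rw [List.replicate_succ, bval_cons, ih]; rfl

theorem bval_lt (x : List Bool) : bval x < 2 ^ x.length := by
  induction x with
  | nil => simp
  | cons b x ih =>
    rw [bval_cons, List.length_cons, pow_succ]
    have : b.toNat ≤ 1 := by cases b <;> simp
    omega

/-- Removal of the leading zeros. -/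
def norm (l : List Bool) : List Bool :=
  l.foldr (fun b acc => if acc.isEmpty && !b then [] else b :: acc) []

theorem norm_eq (l : List Bool) : norm l = Nat.bits (bval l) := by
  induction l with
  | nil => simp [norm]
  | cons b l ih =>
    have e : norm (b :: l) = if (norm l).isEmpty && !b then [] else b :: norm l := rfl
    have e2 : bval (b :: l) = Nat.bit b (bval l) := by
      rw [Nat.bit_val]; rfl
    rw [e, e2, ih]
    by_cases h0 : bval l = 0
    · rw [h0]
      cases b
      · simp
      · have := Nat.bits_append_bit 0 true (fun _ => rfl)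
        rw [this]
        simp
    · rw [Nat.bits_append_bit _ _ (fun h => absurd h h0)]
      have : (Nat.bits (bval l)).isEmpty = false := by
        rw [Bool.eq_false_iff]
        intro h
        rw [List.isEmpty_iff] at h
        apply h0
        have h1 := bval_bits (bval l)
        rw [h] at h1
        exact h1.symm
      rw [this]
      simp

section
variable {E : Env} {α β γ δ : Type} [Enc E α] [Enc E β] [Enc E γ] [Enc E δ]

theorem esz_bits (n : List Bool) : esz E n ≤ 4 * n.length + 1 := by
  induction n with
  | nil => simp
  | cons b l ih =>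
    have := esz_bool (E := E) b
    rw [esz_cons, List.length_cons]
    omega

theorem poly_norm {f : γ → List Bool} (hf : Poly E f) : Poly E (fun c => norm (f c)) := by
  have h := Poly.foldrAdd (b := fun _ => ([] : List Bool))
    (g := fun x : γ × (Bool × List Bool) =>
      if x.2.2.isEmpty && !x.2.1 then [] else x.2.1 :: x.2.2) hf (Poly.const [])
    (Poly.ite (Poly.and (Poly.isEmpty (Poly.snd.comp Poly.snd))
      (Poly.not (Poly.fst.comp Poly.snd))) (Poly.const [])
      (Poly.cons (Poly.fst.comp Poly.snd) (Poly.snd.comp Poly.snd))) 4 (by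
      intro c a ha b
      have h1 := esz_bool (E := E) a
      have h2 := esz_pos (E := E) b
      simp only [eval_ofNat]
      split
      · rw [esz_nil]; omega
      · rw [esz_cons]; omega)
  exact h

/-- `f` is computed in polynomial time with the value written in binary. -/
def PolyN (E : Env) {γ : Type} [Enc E γ] (f : γ → ℕ) : Prop := Poly E (fun c => Nat.bits (f c))

theorem PolyN.bval {f : γ → List Bool} (hf : Poly E f) : PolyN E (fun c => bval (f c)) :=
  (poly_norm hf).congr fun c => norm_eq _

theorem PolyN.of_list {F : γ → List Bool} (hF : Poly E F) {f : γ → ℕ}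
    (h : ∀ c, Bx81.bval (F c) = f c) : PolyN E f := by
  have : f = fun c => Bx81.bval (F c) := funext fun c => (h c).symm
  rw [this]
  exact PolyN.bval hF

theorem PolyN.congr {f g : γ → ℕ} (hf : PolyN E f) (h : ∀ c, f c = g c) : PolyN E g := by
  have : f = g := funext h
  rwa [← this]

theorem PolyN.const (n : ℕ) : PolyN E (fun _ : γ => n) := Poly.const _

theorem PolyN.ite {k : γ → Bool} {f g : γ → ℕ} (hk : Poly E k) (hf : PolyN E f) (hg : PolyN E g) :
    PolyN E (fun c => if k c then f c else g c) :=
  (Poly.ite hk hf hg).congr fun c => by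
    show (if k c then _ else _) = Nat.bits (if k c then f c else g c)
    split <;> rfl

theorem PolyN.comp {f : β → ℕ} {g : γ → β} (hf : PolyN E f) (hg : Poly E g) :
    PolyN E (fun c => f (g c)) := Poly.comp (g := fun b => Nat.bits (f b)) hf hg

/-! ### Addition and subtraction -/

/-- The third bit of a sum. -/
def xor3 (s : Option Bool × (Bool × Bool)) : Bool := xor (s.1.getD false) (xor s.2.1 s.2.2)

/-- The carry of a sum. -/
def carry (s : Option Bool × (Bool × Bool)) : Bool :=
  (s.1.getD false && s.2.1) || (s.1.getD false && s.2.2) || (s.2.1 && s.2.2)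

/-- The borrow of the difference `s.2.2 - s.1 - s.2.1`. -/
def borrow (s : Option Bool × (Bool × Bool)) : Bool :=
  (s.1.getD false && s.2.1) || (s.1.getD false && !s.2.2) || (s.2.1 && !s.2.2)

/-- One step of a ripple operation with carry function `C`. The state is
(carry, rest of the second operand, reversed output). -/
def rstep (C : Option Bool × (Bool × Bool) → Bool)
    (s : Bool × (List Bool × List Bool)) (a : Bool) : Bool × (List Bool × List Bool) :=
  (C (s.2.1.head?, (s.1, a)), (s.2.1.tail, xor3 (s.2.1.head?, (s.1, a)) :: s.2.2))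

/-- The ripple operation. -/
def ripple (C : Option Bool × (Bool × Bool) → Bool) (x y : List Bool) :
    Bool × (List Bool × List Bool) :=
  (x ++ List.replicate y.length false).foldl (rstep C) (false, (y, []))

theorem poly_ripple (C : Option Bool × (Bool × Bool) → Bool) {f g : γ → List Bool}
    (hf : Poly E f) (hg : Poly E g) : Poly E (fun c => ripple C (f c) (g c)) := by
  have hs : Poly E (fun x : γ × ((Bool × (List Bool × List Bool)) × Bool) =>
      (x.2.1.2.1.head?, (x.2.1.1, x.2.2))) :=
    (Poly.head? (Poly.fst.comp (Poly.snd.comp (Poly.fst.comp Poly.snd)))).pair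
      ((Poly.fst.comp (Poly.fst.comp Poly.snd)).pair (Poly.snd.comp Poly.snd))
  have h := Poly.foldlAdd (f := fun c => f c ++ List.replicate (g c).length false)
    (b := fun c => (false, (g c, ([] : List Bool))))
    (g := fun x : γ × ((Bool × (List Bool × List Bool)) × Bool) => rstep C x.2.1 x.2.2)
    (Poly.append hf (Poly.replicate (Poly.length hg) (Poly.const false)))
    ((Poly.const false).pair (hg.pair (Poly.const [])))
    ((Poly.comp₁ C hs).pair ((Poly.tail (Poly.fst.comp (Poly.snd.comp (Poly.fst.comp
      Poly.snd)))).pair (Poly.cons (Poly.comp₁ xor3 hs)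
        (Poly.snd.comp (Poly.snd.comp (Poly.fst.comp Poly.snd)))))) 10 (by
      intro c a ha b
      obtain ⟨b, r, o⟩ := b
      have h1 := esz_bool (E := E) (C (r.head?, (b, a)))
      have h2 := esz_bool (E := E) (xor3 (r.head?, (b, a)))
      have h3 : esz E r.tail ≤ esz E r := by
        rw [← List.drop_one]
        exact esz_drop_le _ _
      simp only [rstep, esz_prod, esz_cons, eval_ofNat]
      omega)
  exact h

theorem ripple_length (C : Option Bool × (Bool × Bool) → Bool) (l : List Bool)
    (s : Bool × (List Bool × List Bool)) :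
    (l.foldl (rstep C) s).2.1 = s.2.1.drop l.length ∧
      (l.foldl (rstep C) s).2.2.length = s.2.2.length + l.length := by
  induction l generalizing s with
  | nil => simp
  | cons a l ih =>
    rw [List.foldl_cons]
    obtain ⟨h1, h2⟩ := ih (rstep C s a)
    rw [h1, h2]
    constructor
    · simp [rstep]
    · simp only [rstep, List.length_cons]; omega

theorem bval_head_tail (r : List Bool) : bval r = 2 * bval r.tail + (r.head?.getD false).toNat := by
  cases r <;> simp

theorem add_inv (l : List Bool) (s : Bool × (List Bool × List Bool)) :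
    bval (l.foldl (rstep carry) s).2.2.reverse + 2 ^ (l.foldl (rstep carry) s).2.2.length *
      ((l.foldl (rstep carry) s).1.toNat + bval (l.foldl (rstep carry) s).2.1) =
    bval s.2.2.reverse + 2 ^ s.2.2.length * (s.1.toNat + bval s.2.1 + bval l) := by
  induction l generalizing s with
  | nil => simp
  | cons a l ih =>
    rw [List.foldl_cons, ih]
    obtain ⟨c, r, o⟩ := s
    simp only [rstep, List.reverse_cons, List.length_cons]
    rw [bval_append, List.length_reverse, bval_head_tail r, bval_cons a l]
    have key : (xor3 (r.head?, (c, a))).toNat + 2 * (carry (r.head?, (c, a))).toNat =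
        c.toNat + (r.head?.getD false).toNat + a.toNat := by
      simp only [xor3, carry]
      cases c <;> cases a <;> cases (r.head?.getD false) <;> rfl
    have e1 : bval [xor3 (r.head?, (c, a))] = (xor3 (r.head?, (c, a))).toNat := by simp
    rw [e1, pow_succ]
    have : c.toNat + (2 * bval r.tail + (r.head?.getD false).toNat) + (2 * bval l + a.toNat) =
        (xor3 (r.head?, (c, a))).toNat + 2 * ((carry (r.head?, (c, a))).toNat + bval r.tail +
          bval l) := by omega
    rw [this]
    ring

theorem sub_inv (l : List Bool) (s : Bool × (List Bool × List Bool)) :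
    (bval (l.foldl (rstep borrow) s).2.2.reverse : ℤ) -
      2 ^ (l.foldl (rstep borrow) s).2.2.length *
      ((l.foldl (rstep borrow) s).1.toNat + bval (l.foldl (rstep borrow) s).2.1) =
    bval s.2.2.reverse + 2 ^ s.2.2.length * (bval l - s.1.toNat - bval s.2.1) := by
  induction l generalizing s with
  | nil => simp; ring
  | cons a l ih =>
    rw [List.foldl_cons, ih]
    obtain ⟨c, r, o⟩ := s
    simp only [rstep, List.reverse_cons, List.length_cons]
    rw [bval_append, List.length_reverse, bval_head_tail r, bval_cons a l]
    have key : ((xor3 (r.head?, (c, a))).toNat : ℤ) - 2 * (borrow (r.head?, (c, a))).toNat =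
        (a.toNat : ℤ) - c.toNat - (r.head?.getD false).toNat := by
      simp only [xor3, borrow]
      cases c <;> cases a <;> cases (r.head?.getD false) <;> rfl
    have e1 : bval [xor3 (r.head?, (c, a))] = (xor3 (r.head?, (c, a))).toNat := by simp
    rw [e1, pow_succ]
    push_cast
    have : (2 * (bval l : ℤ) + a.toNat) - c.toNat - (2 * bval r.tail +
        (r.head?.getD false).toNat) =
        (xor3 (r.head?, (c, a))).toNat + 2 * ((bval l : ℤ) - (borrow (r.head?, (c, a))).toNat -
          bval r.tail) := by linarith
    rw [this]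
    ring

theorem ripple_add (x y : List Bool) :
    bval ((ripple carry x y).2.2.reverse ++ [(ripple carry x y).1]) = bval x + bval y := by
  have h := add_inv (x ++ List.replicate y.length false) (false, (y, []))
  have h2 := (ripple_length carry (x ++ List.replicate y.length false) (false, (y, []))).1
  change bval (ripple carry x y).2.2.reverse + 2 ^ (ripple carry x y).2.2.length *
    ((ripple carry x y).1.toNat + bval (ripple carry x y).2.1) = _ at h
  change (ripple carry x y).2.1 = _ at h2
  have h3 : (ripple carry x y).2.1 = [] := by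
    rw [h2]
    simp
  rw [h3] at h
  rw [bval_append, List.length_reverse]
  simp only [bval_nil, add_zero, bval_append, bval_replicate_false, mul_zero] at h
  rw [show bval [(ripple carry x y).1] = (ripple carry x y).1.toNat by simp, h]
  simp
  ring

theorem ripple_sub (x y : List Bool) :
    (ripple borrow x y).1 = decide (bval x < bval y) ∧
      ((ripple borrow x y).1 = false → bval (ripple borrow x y).2.2.reverse = bval x - bval y) := by
  have h := sub_inv (x ++ List.replicate y.length false) (false, (y, []))
  have h2 := (ripple_length borrow (x ++ List.replicate y.length false) (false, (y, []))).1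
  change (bval (ripple borrow x y).2.2.reverse : ℤ) - 2 ^ (ripple borrow x y).2.2.length *
    ((ripple borrow x y).1.toNat + bval (ripple borrow x y).2.1) = _ at h
  change (ripple borrow x y).2.1 = _ at h2
  have h3 : (ripple borrow x y).2.1 = [] := by
    rw [h2]
    simp
  rw [h3] at h
  simp only [bval_append, bval_replicate_false, List.reverse_nil, bval_nil, List.length_nil,
    Bool.toNat_false, mul_zero, add_zero] at h
  have h4 := bval_lt (ripple borrow x y).2.2.reverse
  rw [List.length_reverse] at h4
  have h5 : ((bval (ripple borrow x y).2.2.reverse : ℕ) : ℤ) <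
      2 ^ (ripple borrow x y).2.2.length := by exact_mod_cast h4
  cases hb : (ripple borrow x y).1 with
  | false =>
    rw [hb] at h
    simp only [Bool.toNat_false] at h
    push_cast at h
    constructor
    · symm
      rw [decide_eq_false_iff_not]
      omega
    · intro _
      omega
  | true =>
    rw [hb] at h
    simp only [Bool.toNat_true] at h
    push_cast at h
    constructor
    · symm
      rw [decide_eq_true_eq]
      have : (bval x : ℤ) < bval y := by linarith
      exact_mod_cast this
    · intro h; simp at h

theorem PolyN.add {f g : γ → ℕ} (hf : PolyN E f) (hg : PolyN E g) :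
    PolyN E (fun c => f c + g c) := by
  have h := poly_ripple carry hf hg
  refine PolyN.of_list (Poly.append (Poly.reverse (Poly.snd.comp (Poly.snd.comp h)))
    (Poly.cons (Poly.fst.comp h) (Poly.const []))) fun c => ?_
  rw [ripple_add, bval_bits, bval_bits]

theorem PolyN.lt {f g : γ → ℕ} (hf : PolyN E f) (hg : PolyN E g) :
    Poly E (fun c => decide (f c < g c)) :=
  (Poly.fst.comp (poly_ripple borrow hf hg)).congr fun c => by
    rw [(ripple_sub _ _).1, bval_bits, bval_bits]

theorem PolyN.le {f g : γ → ℕ} (hf : PolyN E f) (hg : PolyN E g) :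
    Poly E (fun c => decide (f c ≤ g c)) :=
  (Poly.not (PolyN.lt hg hf)).congr fun c => by
    rw [Bool.eq_iff_iff]
    simp

theorem PolyN.eq {f g : γ → ℕ} (hf : PolyN E f) (hg : PolyN E g) :
    Poly E (fun c => decide (f c = g c)) :=
  (Poly.and (PolyN.le hf hg) (PolyN.le hg hf)).congr fun c => by
    rw [Bool.eq_iff_iff]
    simp
    omega

theorem PolyN.sub {f g : γ → ℕ} (hf : PolyN E f) (hg : PolyN E g) :
    PolyN E (fun c => f c - g c) := by
  have h := poly_ripple borrow hf hg
  refine PolyN.of_list (Poly.ite (Poly.fst.comp h) (Poly.const [])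
    (Poly.reverse (Poly.snd.comp (Poly.snd.comp h)))) fun c => ?_
  obtain ⟨h1, h2⟩ := ripple_sub (Nat.bits (f c)) (Nat.bits (g c))
  rw [bval_bits, bval_bits] at h1 h2
  cases hb : (ripple borrow (Nat.bits (f c)) (Nat.bits (g c))).1 with
  | false =>
    simp only [Bool.false_eq_true, if_false]
    exact h2 hb
  | true =>
    simp only [if_true, bval_nil]
    rw [hb] at h1
    have := of_decide_eq_true h1.symm
    omega

/-! ### Folds -/

theorem size_le_of_lt {n k : ℕ} (h : n < 2 ^ k) : (Nat.bits n).length ≤ k := by
  rw [Nat.size_eq_bits_len]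
  exact Nat.size_le.2 h

theorem lt_pow_length (n : ℕ) : n < 2 ^ (Nat.bits n).length := by
  rw [Nat.size_eq_bits_len]
  exact Nat.lt_size_self n

/-- Folds whose accumulator is a number in binary. -/
theorem PolyN.foldl {f : γ → List α} {b : γ → ℕ} {g : γ × (ℕ × α) → ℕ}
    (hf : Poly E f) (hb : PolyN E b)
    (hg : PolyN E (fun x : γ × (List Bool × α) => g (x.1, (Bx81.bval x.2.1, x.2.2)))) (q : ℕ[X])
    (hq : ∀ c, ∀ k ≤ (f c).length,
      ((f c).take k).foldl (fun b a => g (c, (b, a))) (b c) < 2 ^ q.eval (esz E c)) :
    PolyN E (fun c => (f c).foldl (fun b a => g (c, (b, a))) (b c)) := by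
  have key : ∀ c (l : List α) (n : ℕ),
      l.foldl (fun b a => Nat.bits (g (c, (Bx81.bval b, a)))) (Nat.bits n) =
        Nat.bits (l.foldl (fun b a => g (c, (b, a))) n) := by
    intro c l
    induction l with
    | nil => intro n; rfl
    | cons a l ih =>
      intro n
      rw [List.foldl_cons, List.foldl_cons, bval_bits, ih]
  have h := Poly.foldl (f := f) (b := fun c => Nat.bits (b c))
    (g := fun x : γ × (List Bool × α) => Nat.bits (g (x.1, (Bx81.bval x.2.1, x.2.2)))) hf hb hg
    (4 * q + 1) (by
      intro c k hk
      rw [key]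
      have h1 := esz_bits (E := E) (Nat.bits (((f c).take k).foldl (fun b a => g (c, (b, a))) (b c)))
      have h2 := size_le_of_lt (hq c k hk)
      simp only [eval_add, eval_mul, eval_ofNat, eval_one]
      omega)
  exact h.congr fun c => key c _ _

theorem PolyN.ofUnary {f : γ → ℕ} (hf : Poly E f) : PolyN E f := by
  obtain ⟨p, hp⟩ := hf.bound
  have key : ∀ k : ℕ, (List.replicate k ()).foldl (fun b (_ : Unit) => b + 1) 0 = k := by
    intro k
    induction k with
    | zero => rfl
    | succ k ih => rw [List.replicate_succ', List.foldl_append, ih]; rfl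
  have h := PolyN.foldl (f := fun c => List.replicate (f c) ()) (b := fun _ => 0)
    (g := fun x : γ × (ℕ × Unit) => x.2.1 + 1) (Poly.units hf) (PolyN.const 0)
    (PolyN.add (PolyN.bval (Poly.fst.comp Poly.snd)) (PolyN.const 1)) p (by
      intro c k hk
      rw [List.length_replicate] at hk
      rw [List.take_replicate, Nat.min_eq_left hk, key]
      have h1 := hp c
      rw [esz_nat] at h1
      have h2 : k < p.eval (esz E c) := by omega
      exact h2.trans Nat.lt_two_pow_self)
  exact h.congr fun c => key _

theorem PolyN.pow2 {f : γ → ℕ} (hf : Poly E f) : PolyN E (fun c => 2 ^ f c) := by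
  refine PolyN.of_list (Poly.append (Poly.replicate hf (Poly.const false))
    (Poly.const [true])) fun c => ?_
  rw [bval_append, bval_replicate_false, List.length_replicate]
  simp

theorem PolyN.bound {f : γ → ℕ} (hf : PolyN E f) : ∃ p : ℕ[X], ∀ c, f c < 2 ^ p.eval (esz E c) := by
  obtain ⟨p, hp⟩ := Poly.bound hf
  refine ⟨p, fun c => ?_⟩
  have h1 := length_le_esz (E := E) (Nat.bits (f c))
  have h2 := hp c
  exact (lt_pow_length (f c)).trans_le (Nat.pow_le_pow_right (by norm_num) (by omega))

theorem PolyN.size {f : γ → ℕ} (hf : PolyN E f) : Poly E (fun c => (Nat.bits (f c)).length) :=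
  Poly.length hf

theorem PolyN.mul {f g : γ → ℕ} (hf : PolyN E f) (hg : PolyN E g) :
    PolyN E (fun c => f c * g c) := by
  obtain ⟨p, hp⟩ := hf.bound
  obtain ⟨r, hr⟩ := hg.bound
  have key : ∀ (y : ℕ) (l : List Bool),
      l.foldl (fun acc b => (acc + acc) + if b then y else 0) 0 = Bx81.bval l.reverse * y := by
    intro y l
    induction l using List.reverseRecOn with
    | nil => simp
    | append_singleton l b ih =>
      rw [List.foldl_append, ih, List.reverse_append]
      simp only [List.foldl_cons, List.foldl_nil, List.reverse_cons, List.reverse_nil,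
        List.nil_append, List.cons_append, bval_cons]
      cases b <;> simp <;> ring
  have hstep : PolyN E (fun x : γ × (List Bool × Bool) =>
      (Bx81.bval x.2.1 + Bx81.bval x.2.1) + if x.2.2 then g x.1 else 0) :=
    PolyN.add (PolyN.add (PolyN.bval (Poly.fst.comp Poly.snd)) (PolyN.bval (Poly.fst.comp
      Poly.snd))) (PolyN.ite (Poly.snd.comp Poly.snd) (PolyN.comp hg Poly.fst) (PolyN.const 0))
  have h := PolyN.foldl (f := fun c => (Nat.bits (f c)).reverse) (b := fun _ => 0)
    (g := fun x : γ × (ℕ × Bool) => (x.2.1 + x.2.1) + if x.2.2 then g x.1 else 0)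
    (Poly.reverse hf) (PolyN.const 0) hstep
    (p + r) (by
      intro c k hk
      simp only
      rw [key]
      have h1 : Bx81.bval ((Nat.bits (f c)).reverse.take k).reverse ≤ f c := by
        have h2 : Nat.bits (f c) = ((Nat.bits (f c)).reverse.drop k).reverse ++
            ((Nat.bits (f c)).reverse.take k).reverse := by
          rw [← List.reverse_append, List.take_append_drop, List.reverse_reverse]
        have h3 := congrArg Bx81.bval h2
        rw [bval_bits, bval_append] at h3
        have h4 : Bx81.bval ((Nat.bits (f c)).reverse.take k).reverse ≤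
            2 ^ ((Nat.bits (f c)).reverse.drop k).reverse.length *
              Bx81.bval ((Nat.bits (f c)).reverse.take k).reverse :=
          Nat.le_mul_of_pos_left _ (by positivity)
        omega
      rw [eval_add, pow_add]
      exact Nat.mul_lt_mul'' (h1.trans_lt (hp c)) (hr c))
  refine h.congr fun c => ?_
  simp only
  rw [key, List.reverse_reverse, bval_bits]

/-- The steps of the division. -/
theorem div_inv (x y : ℕ) (hy : 0 < y) : ∀ (n j q : ℕ), j ≤ n → q * y ≤ x → x < (q + 2 ^ n) * y →
    let r := ((List.range n).reverse.take (n - j)).foldl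
      (fun q i => if (q + 2 ^ i) * y ≤ x then q + 2 ^ i else q) q
    r * y ≤ x ∧ x < (r + 2 ^ j) * y := by
  intro n
  induction n with
  | zero =>
    intro j q hj h1 h2
    obtain rfl : j = 0 := by omega
    simpa using ⟨h1, h2⟩
  | succ n ih =>
    intro j q hj h1 h2
    by_cases hj' : j = n + 1
    · subst hj'
      simpa using ⟨h1, h2⟩
    · have hj'' : j ≤ n := by omega
      have e : n + 1 - j = (n - j) + 1 := by omega
      rw [List.range_succ, List.reverse_append, e]
      simp only [List.reverse_cons, List.reverse_nil, List.nil_append, List.cons_append,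
        List.take_succ_cons, List.foldl_cons]
      by_cases h : (q + 2 ^ n) * y ≤ x
      · rw [if_pos h]
        refine ih j _ hj'' h ?_
        rw [add_assoc, ← two_mul, ← pow_succ']
        exact h2
      · rw [if_neg h]
        exact ih j _ hj'' h1 (by omega)

theorem PolyN.div {f g : γ → ℕ} (hf : PolyN E f) (hg : PolyN E g) :
    PolyN E (fun c => f c / g c) := by
  obtain ⟨p, hp⟩ := hf.bound
  let F : γ → List ℕ := fun c => (List.range (Nat.bits (f c)).length).reverse
  let G : γ × (ℕ × ℕ) → ℕ := fun x =>
    if decide ((x.2.1 + 2 ^ x.2.2) * g x.1 ≤ f x.1 ∧ 0 < g x.1) then x.2.1 + 2 ^ x.2.2 else x.2.1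
  have hGpos : ∀ c, 0 < g c → (fun b a => G (c, (b, a))) = (fun q i =>
      if (q + 2 ^ i) * g c ≤ f c then q + 2 ^ i else q) := by
    intro c hc
    funext q i
    simp only [G]
    by_cases h : (q + 2 ^ i) * g c ≤ f c
    · simp [h, hc]
    · simp [h]
  have hG0 : ∀ c, g c = 0 → (fun b a => G (c, (b, a))) = (fun q _ => q) := by
    intro c hc
    funext q i
    simp [G, hc]
  have hinit : ∀ c, 0 < g c → f c < (0 + 2 ^ (Nat.bits (f c)).length) * g c := by
    intro c hc
    rw [zero_add]
    exact (lt_pow_length (f c)).trans_le (Nat.le_mul_of_pos_right _ hc)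
  have hconst : ∀ (l : List ℕ) (q : ℕ), l.foldl (fun (q : ℕ) (_ : ℕ) => q) q = q := by
    intro l
    induction l with
    | nil => intro q; rfl
    | cons a l ih => intro q; exact ih q
  have h := PolyN.foldl (f := F) (b := fun _ => 0) (g := G)
    (Poly.reverse (Poly.range (Poly.length hf))) (PolyN.const 0) (by
      have h1 : PolyN E (fun x : γ × (List Bool × ℕ) => Bx81.bval x.2.1 + 2 ^ x.2.2) :=
        PolyN.add (PolyN.bval (Poly.fst.comp Poly.snd)) (PolyN.pow2 (Poly.snd.comp Poly.snd))
      have hk : Poly E (fun x : γ × (List Bool × ℕ) =>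
          decide ((Bx81.bval x.2.1 + 2 ^ x.2.2) * g x.1 ≤ f x.1 ∧ 0 < g x.1)) :=
        (Poly.and (PolyN.le (PolyN.mul h1 (PolyN.comp hg Poly.fst)) (PolyN.comp hf Poly.fst))
          (PolyN.lt (PolyN.const 0) (PolyN.comp hg Poly.fst))).congr fun x => by
            rw [Bool.eq_iff_iff]; simp
      exact PolyN.ite hk h1 (PolyN.bval (Poly.fst.comp Poly.snd))) (p + 1) (by
      intro c k hk
      rcases Nat.eq_zero_or_pos (g c) with hc | hc
      · rw [hG0 c hc, hconst]
        positivity
      · rw [hGpos c hc]
        simp only [F, List.length_reverse, List.length_range] at hk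
        have h1 := div_inv (f c) (g c) hc (Nat.bits (f c)).length
          ((Nat.bits (f c)).length - k) 0 (by omega) (by simp) (hinit c hc)
        have e : (Nat.bits (f c)).length - ((Nat.bits (f c)).length - k) = k := by omega
        rw [e] at h1
        have h2 := h1.1
        have h3 := hp c
        have h4 : ∀ r : ℕ, r * g c ≤ f c → r ≤ f c := fun r hr =>
          (Nat.le_mul_of_pos_right r hc).trans hr
        refine (h4 _ h2).trans_lt (h3.trans_le (Nat.pow_le_pow_right (by norm_num) ?_))
        simp)
  refine h.congr fun c => ?_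
  rcases Nat.eq_zero_or_pos (g c) with hc | hc
  · rw [hG0 c hc, hconst, hc, Nat.div_zero]
  · rw [hGpos c hc]
    show (List.range (Nat.bits (f c)).length).reverse.foldl _ 0 = _
    have h1 := div_inv (f c) (g c) hc (Nat.bits (f c)).length 0 0 (by omega) (by simp)
      (hinit c hc)
    rw [Nat.sub_zero, List.take_of_length_le (by simp), pow_zero] at h1
    obtain ⟨h2, h3⟩ := h1
    symm
    rw [Nat.div_eq_iff hc]
    constructor
    · exact h2
    · rw [add_mul] at h3
      omega

theorem PolyN.mod {f g : γ → ℕ} (hf : PolyN E f) (hg : PolyN E g) :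
    PolyN E (fun c => f c % g c) :=
  (PolyN.sub hf (PolyN.mul hg (PolyN.div hf hg))).congr fun c => by
    have := Nat.div_add_mod (f c) (g c)
    omega

theorem PolyN.sum {l : γ → List α} {g : γ × α → ℕ} (hl : Poly E l) (hg : PolyN E g) :
    PolyN E (fun c => ((l c).map fun a => g (c, a)).sum) := by
  obtain ⟨pl, hpl⟩ := hl.bound
  obtain ⟨pg, hpg⟩ := hg.bound
  have key : ∀ c (m : List α) (n : ℕ),
      m.foldl (fun b a => b + g (c, a)) n = n + (m.map fun a => g (c, a)).sum := by
    intro c m
    induction m with
    | nil => intro n; simp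
    | cons a m ih => intro n; rw [List.foldl_cons, ih, List.map_cons, List.sum_cons]; ring
  have h := PolyN.foldl (f := l) (b := fun _ => 0) (g := fun x : γ × (ℕ × α) => x.2.1 + g (x.1, x.2.2))
    hl (PolyN.const 0) (PolyN.add (f := fun x : γ × (List Bool × α) => Bx81.bval x.2.1)
      (g := fun x : γ × (List Bool × α) => g (x.1, x.2.2)) (PolyN.bval (Poly.fst.comp Poly.snd))
      (PolyN.comp hg (Poly.fst.pair (Poly.snd.comp Poly.snd)))) (pl + pg.comp (1 + X + pl)) (by
      intro c k hk
      simp only
      rw [key, zero_add]
      have h1 : ∀ a ∈ (l c).take k, g (c, a) ≤ 2 ^ (pg.comp (1 + X + pl)).eval (esz E c) := by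
        intro a ha
        have h2 := hpg (c, a)
        have h3 := mem_esz_le (E := E) _ a (List.mem_of_mem_take ha)
        have h4 := hpl c
        have h5 : pg.eval (esz E (c, a)) ≤ (pg.comp (1 + X + pl)).eval (esz E c) := by
          rw [eval_comp]
          refine pmono pg ?_
          simp only [esz_prod, eval_add, eval_one, eval_X]
          omega
        exact h2.le.trans (Nat.pow_le_pow_right (by norm_num) h5)
      have h2 := List.sum_le_card_nsmul (((l c).take k).map fun a => g (c, a))
        (2 ^ (pg.comp (1 + X + pl)).eval (esz E c)) (by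
          intro x hx
          obtain ⟨a, ha, rfl⟩ := List.mem_map.1 hx
          exact h1 a ha)
      rw [List.length_map, smul_eq_mul] at h2
      have h3 : ((l c).take k).length < 2 ^ pl.eval (esz E c) := by
        have h4 := length_le_esz (E := E) (l c)
        have h5 := hpl c
        rw [List.length_take]
        have h6 : min k (l c).length < pl.eval (esz E c) := by omega
        exact h6.trans Nat.lt_two_pow_self
      rw [eval_add, pow_add]
      refine h2.trans_lt ?_
      exact Nat.mul_lt_mul_of_pos_right h3 (by positivity))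
  refine h.congr fun c => ?_
  simp only
  rw [key, zero_add]

/-- Horner evaluation in base `Q` (unary `Q`, unary digits, unary start). -/
theorem PolyN.horner {Q s : γ → ℕ} {l : γ → List ℕ} (hQ : Poly E Q) (hs : Poly E s)
    (hl : Poly E l) : PolyN E (fun c => (l c).foldl (fun a g => a * Q c + g) (s c)) := by
  obtain ⟨pQ, hpQ⟩ := hQ.bound
  obtain ⟨ps, hps⟩ := hs.bound
  obtain ⟨pl, hpl⟩ := hl.bound
  have key : ∀ (B Q : ℕ) (m : List ℕ) (n k : ℕ), Q ≤ B → (∀ a ∈ m, a ≤ B) →
      n < 2 ^ ((k + 1) * B) → m.foldl (fun a g => a * Q + g) n < 2 ^ ((k + m.length + 1) * B) := by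
    intro B Q m
    induction m with
    | nil => intro n k _ _ h; simpa using h
    | cons g m ih =>
      intro n k hQ hm hn
      rw [List.foldl_cons]
      have h1 := ih (n * Q + g) (k + 1) hQ (fun a ha => hm a (List.mem_cons_of_mem _ ha)) (by
        have h2 : g ≤ B := hm g List.mem_cons_self
        have h3 : n * Q + g ≤ (n + 1) * B := by
          have := Nat.mul_le_mul (le_refl n) hQ
          rw [add_mul]
          omega
        have h4 : (n + 1) * B ≤ 2 ^ ((k + 1) * B) * B := Nat.mul_le_mul_right _ (by omega)
        have h5 : 2 ^ ((k + 1) * B) * B < 2 ^ ((k + 1) * B) * 2 ^ B :=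
          Nat.mul_lt_mul_of_pos_left Nat.lt_two_pow_self (by positivity)
        have h6 : 2 ^ ((k + 1) * B) * 2 ^ B = 2 ^ ((k + 1 + 1) * B) := by
          rw [← pow_add]; congr 1; ring
        omega)
      rw [List.length_cons]
      have e : k + (m.length + 1) + 1 = k + 1 + m.length + 1 := by ring
      rw [e]
      exact h1
  have hstep : PolyN E (fun x : γ × (List Bool × ℕ) => Bx81.bval x.2.1 * Q x.1 + x.2.2) :=
    PolyN.add (PolyN.mul (PolyN.bval (Poly.fst.comp Poly.snd)) (PolyN.ofUnary (hQ.comp Poly.fst)))
      (PolyN.ofUnary (Poly.snd.comp Poly.snd))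
  have h := PolyN.foldl (f := l) (b := s) (g := fun x : γ × (ℕ × ℕ) => x.2.1 * Q x.1 + x.2.2)
    hl (PolyN.ofUnary hs) hstep
    ((pl + 1) * (pQ + ps + pl)) (by
      intro c k hk
      simp only
      set B := (pQ + ps + pl).eval (esz E c) with hB
      have h1 := hpQ c
      have h2 := hps c
      have h3 := hpl c
      simp only [esz_nat] at h1 h2
      have hB' : B = pQ.eval (esz E c) + ps.eval (esz E c) + pl.eval (esz E c) := by
        rw [hB]; simp only [eval_add]
      have h4 := key B (Q c) ((l c).take k) (s c) 0 (by omega) (by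
        intro a ha
        have h5 := mem_esz_le (E := E) _ a (List.mem_of_mem_take ha)
        rw [esz_nat] at h5
        omega) (by
        rw [zero_add, one_mul]
        have h6 : s c < B := by omega
        exact h6.trans Nat.lt_two_pow_self)
      refine h4.trans_le (Nat.pow_le_pow_right (by norm_num) ?_)
      rw [eval_mul, ← hB]
      refine Nat.mul_le_mul_right _ ?_
      have h7 := length_le_esz (E := E) (l c)
      rw [List.length_take]
      simp only [eval_add, eval_one]
      omega)
  exact h

end

end Pool.Agent.BJ
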