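import Pool.Agent.Lib_MP_33ea09_lc.NPList
import Pool.Agent.Lib_MP_33ea09_lc.CookH

/-!
# NP is closed under reductions that are polynomial in the framework `Poly`
-/

set_option linter.unusedSectionVars false
set_option linter.unusedVariables false

namespace Pool.Agent.BJ

open Pool.Agent.Bx81 Pool.Agent.PT81 Pool.Agent.IsoImp Turing Polynomial

/-- The names occurring in a formula. -/
def nms (φ : List (List (Bool × List Bool))) : List (List Bool) :=
  φ.flatMap fun c => c.map fun l => l.2

/-- The names with positions in `y`. -/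
def tru (φ : List (List (Bool × List Bool))) (y : List ℕ) : List (List Bool) :=
  y.filterMap fun k => (nms φ)[k]?

/-- The formula is true if exactly the names with positions in `y` are true. -/
def chk (t : List (List (Bool × List Bool)) × List ℕ) : Bool :=
  t.1.all fun c => c.any fun l => decide (((tru t.1 t.2).any fun v => decide (v = l.2)) = l.1)

section

variable {E : Env} {γ : Type} [Enc E γ]

theorem poly_nms {φ : γ → List (List (Bool × List Bool))} (h : Poly E φ) :
    Poly E (fun c => nms (φ c)) :=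
  Poly.flatMap (g := fun p : γ × List (Bool × List Bool) =>
      p.2.map fun l : Bool × List Bool => l.2) h
    (Poly.map (f := fun p : γ × List (Bool × List Bool) => p.2)
      (g := fun q : (γ × List (Bool × List Bool)) × (Bool × List Bool) => q.2.2)
      Poly.snd (Poly.snd.comp Poly.snd))

theorem poly_tru {φ : γ → List (List (Bool × List Bool))} {y : γ → List ℕ} (h : Poly E φ)
    (hy : Poly E y) : Poly E (fun c => tru (φ c) (y c)) :=
  Poly.filterMap (g := fun p : γ × ℕ => (nms (φ p.1))[p.2]?) hy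
    (Poly.nth (poly_nms (h.comp Poly.fst)) Poly.snd)

theorem poly_chk {φ : γ → List (List (Bool × List Bool))} {y : γ → List ℕ} (h : Poly E φ)
    (hy : Poly E y) : Poly E (fun c => chk (φ c, y c)) := by
  refine Poly.all (g := fun p : γ × List (Bool × List Bool) => p.2.any fun l : Bool × List Bool =>
    decide (((tru (φ p.1) (y p.1)).any fun v => decide (v = l.2)) = l.1)) h ?_
  refine Poly.any (g := fun q : (γ × List (Bool × List Bool)) × (Bool × List Bool) =>
    decide (((tru (φ q.1.1) (y q.1.1)).any fun v => decide (v = q.2.2)) = q.2.1)) Poly.snd ?_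
  refine Poly.eq ?_ (Poly.fst.comp Poly.snd)
  refine Poly.any (g := fun r : ((γ × List (Bool × List Bool)) × (Bool × List Bool)) × List Bool =>
    decide (r.2 = r.1.2.2)) ?_ ?_
  · exact poly_tru (h.comp (Poly.fst.comp Poly.fst)) (hy.comp (Poly.fst.comp Poly.fst))
  · exact Poly.eq Poly.snd (Poly.snd.comp (Poly.snd.comp Poly.fst))

end

theorem chk_iff (φ : List (List (Bool × List Bool))) (y : List ℕ) :
    chk (φ, y) = true ↔ ∀ c ∈ φ, ∃ l ∈ c, decide (l.2 ∈ tru φ y) = l.1 := by
  unfold chk
  rw [List.all_eq_true]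
  refine forall₂_congr fun c hc => ?_
  rw [List.any_eq_true]
  refine exists_congr fun l => and_congr_right fun hl => ?_
  rw [decide_eq_true_iff]
  have : ((tru φ y).any fun v => decide (v = l.2)) = decide (l.2 ∈ tru φ y) := by
    rw [Bool.eq_iff_iff, List.any_eq_true, decide_eq_true_iff]
    constructor
    · rintro ⟨v, hv, h⟩
      rw [decide_eq_true_iff] at h
      exact h ▸ hv
    · intro h
      exact ⟨l.2, h, by simp⟩
  rw [this]

theorem chk_sound (φ : List (List (Bool × List Bool))) (y : List ℕ) (h : chk (φ, y) = true) :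
    ∃ A : List Bool → Bool, ∀ c ∈ φ, ∃ l ∈ c, A l.2 = l.1 :=
  ⟨fun v => decide (v ∈ tru φ y), (chk_iff φ y).1 h⟩

theorem chk_complete (φ : List (List (Bool × List Bool)))
    (h : ∃ A : List Bool → Bool, ∀ c ∈ φ, ∃ l ∈ c, A l.2 = l.1) :
    ∃ y : List ℕ, y.length ≤ (nms φ).length ∧ (∀ a ∈ y, a ≤ (nms φ).length) ∧
      chk (φ, y) = true := by
  obtain ⟨A, hA⟩ := h
  refine ⟨(List.range (nms φ).length).filter fun k => match (nms φ)[k]? with
    | none => false
    | some v => A v, ?_, ?_, ?_⟩
  · exact (List.length_filter_le _ _).trans (by rw [List.length_range])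
  · intro a ha
    have := List.mem_range.1 (List.mem_of_mem_filter ha)
    omega
  · rw [chk_iff]
    intro c hc
    obtain ⟨l, hl, hAl⟩ := hA c hc
    refine ⟨l, hl, ?_⟩
    rw [← hAl]
    have hmem : l.2 ∈ nms φ := List.mem_flatMap.2 ⟨c, hc, List.mem_map.2 ⟨l, hl, rfl⟩⟩
    rw [Bool.eq_iff_iff, decide_eq_true_iff]
    unfold tru
    rw [List.mem_filterMap]
    constructor
    · rintro ⟨k, hk, hk2⟩
      have h2 := (List.mem_filter.1 hk).2
      rw [hk2] at h2
      exact h2
    · intro hA2
      obtain ⟨k, hk, hkv⟩ := List.getElem_of_mem hmem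
      have h3 : (nms φ)[k]? = some l.2 := by rw [List.getElem?_eq_getElem hk, hkv]
      refine ⟨k, List.mem_filter.2 ⟨List.mem_range.2 hk, ?_⟩, h3⟩
      rw [h3]
      exact hA2

theorem esz_fin_bound (E : Env) {Γ : Type} [Fintype Γ] [Enc E Γ] :
    ∃ p : ℕ[X], ∀ x : List Γ, esz E x ≤ p.eval x.length := by
  classical
  set K := Finset.univ.sup fun a : Γ => esz E a with hK
  have hK' : ∀ a : Γ, esz E a ≤ K := fun a =>
    Finset.le_sup (f := fun a : Γ => esz E a) (Finset.mem_univ a)
  refine ⟨C (1 + K) * X + 1, fun x => ?_⟩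
  simp only [eval_add, eval_mul, eval_C, eval_X, eval_one]
  induction x with
  | nil => simp
  | cons a x ih =>
    have := hK' a
    rw [esz_cons, List.length_cons]
    have e : (1 + K) * (x.length + 1) = (1 + K) * x.length + (1 + K) := by ring
    omega

theorem inNP_of_poly {Γ Δ : Type} [Fintype Γ] [Fintype Δ] {A : Set (List Γ)} {B : Set (List Δ)}
    (f : List Γ → List Δ) (hf : ∀ (E : Env) [Enc E Γ] [Enc E Δ], Poly E f)
    (h : ∀ x, x ∈ A ↔ f x ∈ B) (hB : InNP B) : InNP A := by
  classical
  obtain ⟨R, q, hR, hq⟩ := hB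
  obtain ⟨F, hF, hFB⟩ := Cook81.cook_levin hR hq
  let _ : Enc (io Γ Bool) Γ := finEnc _ _
  let _ : Enc (io Γ Bool) Δ := finEnc _ _
  have hG : Poly (io Γ Bool) (fun x => F (f x)) := (hF (io Γ Bool)).comp (hf (io Γ Bool))
  obtain ⟨p1, hp1⟩ := (Poly.length (poly_nms hG)).bound
  obtain ⟨p2, hp2⟩ := esz_fin_bound (io Γ Bool) (Γ := Γ)
  have hb : ∀ x : List Γ, (nms (F (f x))).length ≤ (p1.comp p2).eval x.length := by
    intro x
    have h1 := hp1 x
    rw [esz_nat] at h1
    have h2 := pmono p1 (hp2 x)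
    rw [eval_comp]
    omega
  refine inNP_of_list A (fun t => chk (F (f t.1), t.2)) ?_ (p1.comp p2) ?_ ?_
  · intro E _
    let _ : Enc E Δ := finEnc _ _
    exact poly_chk ((hF E).comp ((hf E).comp Poly.fst)) Poly.snd
  · intro x y hxy
    rw [h, hFB]
    exact chk_sound _ _ hxy
  · intro x hx
    rw [h, hFB] at hx
    obtain ⟨y, h1, h2, h3⟩ := chk_complete _ hx
    exact ⟨y, h1.trans (hb x), fun a ha => (h2 a ha).trans (hb x), h3⟩

end Pool.Agent.BJ
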