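import Pool.Agent.BJ.Sched
import Pool.Agent.BJ.BinArith

/-!
# M7: BJIT is in coNP

A word that is not in `BJIT` is either not an encoding (checked directly, except for the numerator and
the denominator having a common divisor, which is guessed), or it encodes `(d, B)` and a pair `x ≤ y`
violating the condition of the scheduling theorem is guessed.
-/

set_option linter.unusedSectionVars false
set_option linter.unusedVariables false

namespace Pool.Agent.BJ

open Pool.Agent.Bx81 Pool.Agent.PT81 Pool.Agent.IsoImp Turing Polynomial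

/-- the block of the denominator -/
def vB (w : List (Option Bool)) : List Bool := (seg w).reverse.headD []
/-- the block of the numerator -/
def uB (w : List (Option Bool)) : List Bool := (seg w).reverse.tail.headD []
/-- the blocks of the vector `d` -/
def dB (w : List (Option Bool)) : List (List Bool) := (seg w).reverse.tail.tail.reverse

/-- the blocks are those of an encoding, up to a common divisor of numerator and denominator. -/
def okB (w : List (Option Bool)) : Bool :=
  ((!(dB w).isEmpty) && (dB w).all (fun b => decide (Nat.bits (bval b) = b) && !b.isEmpty)) &&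
    ((decide (Nat.bits (bval (uB w)) = uB w)) &&
      (decide (Nat.bits (bval (vB w)) = vB w) && !(vB w).isEmpty))

/-- the sum of the vector -/
def sumB (w : List (Option Bool)) : ℕ := ((dB w).map fun b => bval b).sum

/-- first number of the certificate -/
def cX (y : List ℕ) : ℕ := bval (y.map fun e => decide (e = 1) || decide (e = 3))
/-- second number of the certificate -/
def cY (y : List ℕ) : ℕ := bval (y.map fun e => decide (2 ≤ e))

/-- the left side of the condition -/
def lhsB (w : List (Option Bool)) (x y : ℕ) : ℕ :=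
  ((dB w).map fun b => loF (bval (uB w)) (bval (vB w)) (sumB w) (bval b) y -
    hiF (bval (uB w)) (bval (vB w)) (sumB w) (bval b) x).sum

/-- the verifier for the complement of `BJIT` -/
def verC (p : List (Option Bool) × List ℕ) : Bool :=
  !okB p.1 ||
    ((decide (2 ≤ cX p.2) && (decide (bval (uB p.1) ≤ bval (uB p.1) / cX p.2 * cX p.2) &&
        decide (bval (vB p.1) ≤ bval (vB p.1) / cX p.2 * cX p.2))) ||
      ((decide (cX p.2 ≤ cY p.2) && decide (cY p.2 ≤ sumB p.1)) &&
        !decide (lhsB p.1 (cX p.2) (cY p.2) ≤ cY p.2 - cX p.2)))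

/-! ## encodings -/

theorem encode_eq' (d : List ℕ) (B : ℚ) :
    encode d B = unseg (d.map Nat.bits ++ [Nat.bits B.num.natAbs]) (Nat.bits B.den) := by
  unfold encode unseg
  rw [List.flatMap_append, List.flatMap_map]
  simp

theorem parts_unseg (l : List (List Bool)) (a b : List Bool) :
    dB (unseg (l ++ [a]) b) = l ∧ uB (unseg (l ++ [a]) b) = a ∧ vB (unseg (l ++ [a]) b) = b := by
  refine ⟨?_, ?_, ?_⟩
  · simp [dB, seg_unseg]
  · simp [uB, seg_unseg]
  · simp [vB, seg_unseg]

theorem bits_ne_nil {a : ℕ} (ha : 0 < a) : (Nat.bits a).isEmpty = false := by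
  cases h : Nat.bits a with
  | nil =>
    have := bval_bits a
    rw [h] at this
    simp [bval] at this
    omega
  | cons b l => rfl

theorem bval_pos_of {b : List Bool} (h1 : Nat.bits (bval b) = b) (h2 : b.isEmpty = false) :
    0 < bval b := by
  rcases Nat.eq_zero_or_pos (bval b) with h | h
  · rw [h] at h1
    simp only [Nat.zero_bits] at h1
    subst h1
    simp at h2
  · exact h

theorem bval_lt' (l : List Bool) : bval l < 2 ^ l.length := by
  induction l with
  | nil => simp [bval]
  | cons b l ih =>
    have e : bval (b :: l) = 2 * bval l + b.toNat := rfl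
    have hb : b.toNat ≤ 1 := by cases b <;> simp
    rw [e, List.length_cons, pow_succ]
    omega

theorem unseg_length (l : List (List Bool)) (b : List Bool) :
    (unseg l b).length = (l.map fun a => a.length + 1).sum + b.length := by
  induction l with
  | nil => simp [unseg]
  | cons a l ih =>
    have : unseg (a :: l) b = a.map some ++ (none :: unseg l b) := by simp [unseg]
    rw [this]
    simp only [List.length_append, List.length_map, List.length_cons, List.map_cons, List.sum_cons, ih]
    ring

theorem sum_bval_lt (l : List (List Bool)) :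
    (l.map fun b => bval b).sum < 2 ^ (l.map fun a => a.length + 1).sum := by
  induction l with
  | nil => simp
  | cons a l ih =>
    simp only [List.map_cons, List.sum_cons]
    have h1 := bval_lt' a
    have h2 : 2 ^ (a.length + 1 + (l.map fun a => a.length + 1).sum) =
        2 ^ a.length * 2 ^ (l.map fun a => a.length + 1).sum * 2 := by
      rw [pow_add, pow_succ]; ring
    rw [h2]
    have h3 : 0 < 2 ^ a.length := by positivity
    have h4 : 0 < 2 ^ (l.map fun a => a.length + 1).sum := by positivity
    nlinarith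

theorem bval_testBit (L : ℕ) : ∀ X : ℕ, X < 2 ^ L →
    bval ((List.range L).map fun i => X.testBit i) = X := by
  induction L with
  | zero => intro X hX; simp at hX; simp [bval, hX]
  | succ L ih =>
    intro X hX
    rw [List.range_succ_eq_map, List.map_cons, List.map_map]
    have e : ∀ (b : Bool) (l : List Bool), bval (b :: l) = 2 * bval l + b.toNat := fun _ _ => rfl
    rw [e]
    have h1 : ((fun i => X.testBit i) ∘ Nat.succ) = fun i => (X / 2).testBit i := by
      funext i
      simp [Nat.testBit_succ]
    rw [h1, ih (X / 2) (by rw [pow_succ] at hX; omega)]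
    have h2 : (X.testBit 0).toNat = X % 2 := by
      rw [Nat.testBit_zero]
      rcases Nat.mod_two_eq_zero_or_one X with h | h <;> simp [h]
    rw [h2]
    omega

/-- the certificate for two numbers -/
def cert (L X Y : ℕ) : List ℕ :=
  (List.range L).map fun i => (X.testBit i).toNat + 2 * (Y.testBit i).toNat

theorem cX_cert {L X Y : ℕ} (hX : X < 2 ^ L) : cX (cert L X Y) = X := by
  unfold cX cert
  rw [List.map_map]
  have : ((fun e => decide (e = 1) || decide (e = 3)) ∘
      fun i => (X.testBit i).toNat + 2 * (Y.testBit i).toNat) = fun i => X.testBit i := by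
    funext i
    show (decide ((X.testBit i).toNat + 2 * (Y.testBit i).toNat = 1) ||
      decide ((X.testBit i).toNat + 2 * (Y.testBit i).toNat = 3)) = X.testBit i
    generalize X.testBit i = a
    generalize Y.testBit i = b
    cases a <;> cases b <;> rfl
  rw [this, bval_testBit L X hX]

theorem cY_cert {L X Y : ℕ} (hY : Y < 2 ^ L) : cY (cert L X Y) = Y := by
  unfold cY cert
  rw [List.map_map]
  have : ((fun e => decide (2 ≤ e)) ∘
      fun i => (X.testBit i).toNat + 2 * (Y.testBit i).toNat) = fun i => Y.testBit i := by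
    funext i
    show decide (2 ≤ (X.testBit i).toNat + 2 * (Y.testBit i).toNat) = Y.testBit i
    generalize X.testBit i = a
    generalize Y.testBit i = b
    cases a <;> cases b <;> rfl
  rw [this, bval_testBit L Y hY]

/-! ## soundness -/

theorem dvd_of_le_div_mul {a x : ℕ} (h : a ≤ a / x * x) : x ∣ a :=
  ⟨a / x, by rw [Nat.mul_comm]; exact le_antisymm h (Nat.div_mul_le_self a x)⟩

theorem sound_verC (w : List (Option Bool)) (y : List ℕ) (h : verC (w, y) = true) : w ∈ BJITᶜ := by
  rintro ⟨d, B, hd, hpos, hB, rfl, hF⟩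
  rw [encode_eq'] at h
  obtain ⟨e1, e2, e3⟩ := parts_unseg (d.map Nat.bits) (Nat.bits B.num.natAbs) (Nat.bits B.den)
  have hsum : sumB (unseg (d.map Nat.bits ++ [Nat.bits B.num.natAbs]) (Nat.bits B.den)) = d.sum := by
    unfold sumB
    rw [e1, List.map_map]
    have : ((fun b => bval b) ∘ Nat.bits) = id := by funext a; simp [bval_bits]
    rw [this, List.map_id]
  have hlhs : ∀ x y, lhsB (unseg (d.map Nat.bits ++ [Nat.bits B.num.natAbs]) (Nat.bits B.den)) x y =
      (d.map fun a => loF B.num.natAbs B.den d.sum a y - hiF B.num.natAbs B.den d.sum a x).sum := by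
    intro x y
    unfold lhsB
    rw [hsum, e1, e2, e3, List.map_map, bval_bits, bval_bits]
    congr 1
    apply List.map_congr_left
    intro a _
    simp [bval_bits]
  have hok : okB (unseg (d.map Nat.bits ++ [Nat.bits B.num.natAbs]) (Nat.bits B.den)) = true := by
    unfold okB
    rw [e1, e2, e3]
    simp only [Bool.and_eq_true, Bool.not_eq_true', List.isEmpty_eq_false_iff, ne_eq,
      List.map_eq_nil_iff, decide_eq_true_eq, List.all_eq_true, List.mem_map, bval_bits]
    refine ⟨⟨hd, ?_⟩, trivial, trivial, ?_⟩
    · rintro b ⟨a, ha, rfl⟩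
      refine ⟨by rw [bval_bits], ?_⟩
      have := bits_ne_nil (hpos a ha)
      simpa using this
    · have := bits_ne_nil B.den_pos
      simpa using this
  have hBuv : B = ((B.num.natAbs : ℕ) : ℚ) / (B.den : ℕ) := by
    have h1 : ((B.num.natAbs : ℕ) : ℤ) = B.num := Int.natAbs_of_nonneg (Rat.num_nonneg.mpr hB)
    have h2 : ((B.num.natAbs : ℕ) : ℚ) = (B.num : ℚ) := by
      rw [← Int.cast_natCast, h1]
    rw [h2, Rat.num_div_den]
  unfold verC at h
  simp only [hok, e2, e3, hsum, hlhs, bval_bits, Bool.not_true, Bool.false_or, Bool.or_eq_true,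
    Bool.and_eq_true, decide_eq_true_eq, Bool.not_eq_true', decide_eq_false_iff_not] at h
  rcases h with ⟨h1, h2, h3⟩ | ⟨⟨h1, h2⟩, h3⟩
  · have h4 := Nat.dvd_gcd (dvd_of_le_div_mul h2) (dvd_of_le_div_mul h3)
    rw [Nat.Coprime.gcd_eq_one B.reduced] at h4
    have := Nat.le_of_dvd one_pos h4
    omega
  · exact h3 ((feas_iff d hd hpos B hB B.num.natAbs B.den B.den_pos hBuv).mp hF _ _ h1 h2)

/-! ## completeness -/

theorem complete_verC (w : List (Option Bool)) (hw : w ∈ BJITᶜ) :
    ∃ y : List ℕ, y.length ≤ w.length ∧ (∀ a ∈ y, a ≤ 3) ∧ verC (w, y) = true := by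
  by_cases hok : okB w = true
  swap
  · refine ⟨[], by simp, by simp, ?_⟩
    have : okB w = false := by simpa using hok
    simp [verC, this]
  have hcert : ∀ X Y, (cert w.length X Y).length ≤ w.length ∧ ∀ a ∈ cert w.length X Y, a ≤ 3 := by
    intro X Y
    refine ⟨by simp [cert], ?_⟩
    intro a ha
    unfold cert at ha
    rw [List.mem_map] at ha
    obtain ⟨i, _, rfl⟩ := ha
    have h1 : (X.testBit i).toNat ≤ 1 := by cases X.testBit i <;> simp
    have h2 : (Y.testBit i).toNat ≤ 1 := by cases Y.testBit i <;> simp
    omega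
  -- decompose `w`
  obtain ⟨rows, vb, hw0⟩ := exists_unseg w
  have hrows : rows ≠ [] := by
    rintro rfl
    have : dB w = [] := by
      rw [hw0]
      simp [dB, seg_unseg]
    unfold okB at hok
    rw [this] at hok
    simp at hok
  obtain ⟨l, ub, rfl⟩ : ∃ l ub, rows = l ++ [ub] :=
    ⟨rows.dropLast, rows.getLast hrows, (List.dropLast_append_getLast hrows).symm⟩
  obtain ⟨e1, e2, e3⟩ := parts_unseg l ub vb
  rw [← hw0] at e1 e2 e3
  have hok' := hok
  unfold okB at hok'
  rw [e1, e2, e3] at hok'
  simp only [Bool.and_eq_true, Bool.not_eq_true', decide_eq_true_eq, List.all_eq_true] at hok'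
  obtain ⟨⟨hl, hlb⟩, hub, hvb, hvb'⟩ := hok'
  have hlen : w.length = (l.map fun a => a.length + 1).sum + (ub.length + 1) + vb.length := by
    rw [hw0, unseg_length]
    simp
  have hV : 0 < bval vb := bval_pos_of hvb hvb'
  have hVlt : bval vb < 2 ^ w.length :=
    (bval_lt' vb).trans_le (Nat.pow_le_pow_right (by norm_num) (by omega))
  by_cases hco : Nat.Coprime (bval ub) (bval vb)
  swap
  · -- common divisor
    set g := Nat.gcd (bval ub) (bval vb) with hg
    have hgpos : 0 < g := Nat.gcd_pos_of_pos_right _ hV
    have hg2 : 2 ≤ g := by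
      have : g ≠ 1 := hco
      omega
    have hgle : g ≤ bval vb := Nat.le_of_dvd hV (Nat.gcd_dvd_right _ _)
    refine ⟨cert w.length g 0, (hcert g 0).1, (hcert g 0).2, ?_⟩
    unfold verC
    simp only
    rw [cX_cert (lt_of_le_of_lt hgle hVlt), e2, e3,
      Nat.div_mul_cancel (Nat.gcd_dvd_left _ _), Nat.div_mul_cancel (Nat.gcd_dvd_right _ _)]
    simp [hg2]
  · -- a violated condition
    set d := l.map (fun b => bval b) with hddef
    have hsum : sumB w = d.sum := by unfold sumB; rw [e1]
    have hd : d ≠ [] := by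
      intro hcon
      rw [hddef, List.map_eq_nil_iff] at hcon
      rw [hcon] at hl
      simp at hl
    have hpos : ∀ a ∈ d, 0 < a := by
      intro a ha
      rw [hddef, List.mem_map] at ha
      obtain ⟨b, hb, rfl⟩ := ha
      exact bval_pos_of (hlb b hb).1 (hlb b hb).2
    have hvQ : ((bval vb : ℕ) : ℚ) ≠ 0 := by exact_mod_cast hV.ne'
    set B : ℚ := (bval ub : ℚ) / (bval vb : ℚ) with hBdef
    have hB : 0 ≤ B := by positivity
    have hnum : B.num.natAbs = bval ub := by
      have h1 : B = ((bval ub : ℤ) : ℚ) / ((bval vb : ℤ) : ℚ) := by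
        rw [hBdef]; push_cast; rfl
      have h2 := Rat.num_div_eq_of_coprime (a := (bval ub : ℤ)) (b := (bval vb : ℤ))
        (by exact_mod_cast hV) (by simpa using hco)
      rw [h1, h2]
      simp
    have hden : B.den = bval vb := by
      have h1 : B = ((bval ub : ℤ) : ℚ) / ((bval vb : ℤ) : ℚ) := by
        rw [hBdef]; push_cast; rfl
      have h2 := Rat.den_div_eq_of_coprime (a := (bval ub : ℤ)) (b := (bval vb : ℤ))
        (by exact_mod_cast hV) (by simpa using hco)
      rw [← h1] at h2
      exact_mod_cast h2
    have henc : w = encode d B := by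
      rw [encode_eq', hnum, hden, hub, hvb, hddef, List.map_map]
      have : l.map (Nat.bits ∘ fun b => bval b) = l := by
        conv_rhs => rw [← List.map_id l]
        apply List.map_congr_left
        intro b hb
        simp [(hlb b hb).1]
      rw [this]
      exact hw0
    have hnF : ¬ Feas d B := fun hF => hw ⟨d, B, hd, hpos, hB, henc, hF⟩
    rw [feas_iff d hd hpos B hB (bval ub) (bval vb) hV rfl] at hnF
    push Not at hnF
    obtain ⟨x, y, hxy, hy, hviol⟩ := hnF
    have hDlt : d.sum < 2 ^ w.length :=
      (sum_bval_lt l).trans_le (Nat.pow_le_pow_right (by norm_num) (by omega))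
    refine ⟨cert w.length x y, (hcert x y).1, (hcert x y).2, ?_⟩
    unfold verC
    simp only
    rw [cX_cert (by omega), cY_cert (by omega), hsum]
    have h4 : lhsB w x y = (d.map fun a => loF (bval ub) (bval vb) d.sum a y -
        hiF (bval ub) (bval vb) d.sum a x).sum := by
      unfold lhsB
      rw [hsum, e1, e2, e3, hddef, List.map_map]
      rfl
    rw [h4]
    simp only [Bool.or_eq_true, Bool.and_eq_true, decide_eq_true_eq, Bool.not_eq_true',
      decide_eq_false_iff_not]
    right; right
    exact ⟨⟨hxy, hy⟩, by omega⟩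

/-! ## the verifier runs in polynomial time -/

section poly

variable {E : Env} {γ : Type} [Enc E γ]

theorem polyN_hiF {u v D a k : γ → ℕ} (hu : PolyN E u) (hv : PolyN E v) (hD : PolyN E D)
    (ha : PolyN E a) (hk : PolyN E k) :
    PolyN E (fun c => hiF (u c) (v c) (D c) (a c) (k c)) := by
  have h0 : PolyN E (fun _ : γ => 0) := PolyN.ofUnary (Poly.const 0)
  have h := PolyN.ite (PolyN.le hk h0) h0
    (PolyN.div (PolyN.add (PolyN.mul (PolyN.mul hk ha) hv) (PolyN.mul hu hD)) (PolyN.mul hv hD))
  refine Poly.congr h fun c => ?_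
  congr 1
  simp [hiF]

theorem polyN_loF {u v D a k : γ → ℕ} (hu : PolyN E u) (hv : PolyN E v) (hD : PolyN E D)
    (ha : PolyN E a) (hk : PolyN E k) :
    PolyN E (fun c => loF (u c) (v c) (D c) (a c) (k c)) := by
  have h1 : PolyN E (fun _ : γ => 1) := PolyN.ofUnary (Poly.const 1)
  have h := PolyN.ite (Poly.and (PolyN.le hk hD) (PolyN.le hD hk)) ha
    (PolyN.div (PolyN.sub (PolyN.add (PolyN.sub (PolyN.mul (PolyN.mul hk ha) hv) (PolyN.mul hu hD))
      (PolyN.mul hv hD)) h1) (PolyN.mul hv hD))
  refine Poly.congr h fun c => ?_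
  congr 1
  simp only [loF, Bool.and_eq_true, decide_eq_true_eq]
  by_cases hkD : k c = D c
  · rw [if_pos ⟨hkD.le, hkD.ge⟩, if_pos hkD]
  · rw [if_neg (fun h => hkD (le_antisymm h.1 h.2)), if_neg hkD]

theorem poly_verC [Enc E (Option Bool)] : Poly E verC := by
  have hw : Poly E (fun p : List (Option Bool) × List ℕ => p.1) := Poly.fst
  have hy : Poly E (fun p : List (Option Bool) × List ℕ => p.2) := Poly.snd
  have hs : Poly E (fun p : List (Option Bool) × List ℕ => (seg p.1).reverse) :=
    Poly.reverse (poly_seg Poly.fst)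
  have hvB : Poly E (fun p : List (Option Bool) × List ℕ => vB p.1) := poly_headD [] hs
  have huB : Poly E (fun p : List (Option Bool) × List ℕ => uB p.1) := poly_headD [] (Poly.tail hs)
  have hdB : Poly E (fun p : List (Option Bool) × List ℕ => dB p.1) :=
    Poly.reverse (Poly.tail (Poly.tail hs))
  have hcan : ∀ {δ : Type} [Enc E δ] {f : δ → List Bool}, Poly E f →
      Poly E (fun c => decide (Nat.bits (bval (f c)) = f c)) := by
    intro δ _ f hf
    exact Poly.eq (PolyN.bval hf) hf
  have hok : Poly E (fun p : List (Option Bool) × List ℕ => okB p.1) := by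
    refine Poly.and (Poly.and (Poly.not (Poly.isEmpty hdB)) ?_) (Poly.and (hcan huB)
      (Poly.and (hcan hvB) (Poly.not (Poly.isEmpty hvB))))
    exact Poly.all (g := fun q : (List (Option Bool) × List ℕ) × List Bool =>
      decide (Nat.bits (bval q.2) = q.2) && !q.2.isEmpty) hdB
      (Poly.and (hcan Poly.snd) (Poly.not (Poly.isEmpty Poly.snd)))
  have hU : PolyN E (fun p : List (Option Bool) × List ℕ => bval (uB p.1)) := PolyN.bval huB
  have hV : PolyN E (fun p : List (Option Bool) × List ℕ => bval (vB p.1)) := PolyN.bval hvB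
  have hS : PolyN E (fun p : List (Option Bool) × List ℕ => sumB p.1) :=
    PolyN.sum (g := fun q : (List (Option Bool) × List ℕ) × List Bool => bval q.2) hdB
      (PolyN.bval Poly.snd)
  have hX : PolyN E (fun p : List (Option Bool) × List ℕ => cX p.2) :=
    PolyN.bval (Poly.map (g := fun q : (List (Option Bool) × List ℕ) × ℕ =>
      decide (q.2 = 1) || decide (q.2 = 3)) hy
      (Poly.or (Poly.eq Poly.snd (Poly.const 1)) (Poly.eq Poly.snd (Poly.const 3))))
  have hY : PolyN E (fun p : List (Option Bool) × List ℕ => cY p.2) :=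
    PolyN.bval (Poly.map (g := fun q : (List (Option Bool) × List ℕ) × ℕ => decide (2 ≤ q.2)) hy
      (Poly.le (Poly.const 2) Poly.snd))
  have hL : PolyN E (fun p : List (Option Bool) × List ℕ => lhsB p.1 (cX p.2) (cY p.2)) := by
    refine PolyN.sum (g := fun q : (List (Option Bool) × List ℕ) × List Bool =>
      loF (bval (uB q.1.1)) (bval (vB q.1.1)) (sumB q.1.1) (bval q.2) (cY q.1.2) -
        hiF (bval (uB q.1.1)) (bval (vB q.1.1)) (sumB q.1.1) (bval q.2) (cX q.1.2)) hdB ?_
    have f1 : Poly E (fun q : (List (Option Bool) × List ℕ) × List Bool => q.1) := Poly.fst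
    have f2 : PolyN E (fun q : (List (Option Bool) × List ℕ) × List Bool => bval q.2) :=
      PolyN.bval Poly.snd
    have gU := PolyN.comp (f := fun p : List (Option Bool) × List ℕ => bval (uB p.1)) hU f1
    have gV := PolyN.comp (f := fun p : List (Option Bool) × List ℕ => bval (vB p.1)) hV f1
    have gS := PolyN.comp (f := fun p : List (Option Bool) × List ℕ => sumB p.1) hS f1
    have gX := PolyN.comp (f := fun p : List (Option Bool) × List ℕ => cX p.2) hX f1
    have gY := PolyN.comp (f := fun p : List (Option Bool) × List ℕ => cY p.2) hY f1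
    exact PolyN.sub (polyN_loF gU gV gS f2 gY) (polyN_hiF gU gV gS f2 gX)
  have h2 : PolyN E (fun _ : List (Option Bool) × List ℕ => 2) := PolyN.ofUnary (Poly.const 2)
  exact Poly.or (Poly.not hok) (Poly.or
    (Poly.and (PolyN.le h2 hX) (Poly.and (PolyN.le hU (PolyN.mul (PolyN.div hU hX) hX))
      (PolyN.le hV (PolyN.mul (PolyN.div hV hX) hX))))
    (Poly.and (Poly.and (PolyN.le hX hY) (PolyN.le hY hS))
      (Poly.not (PolyN.le hL (PolyN.sub hY hX)))))

end poly

theorem coNP_bjit : InNP BJITᶜ := by
  refine inNP_of_list BJITᶜ verC (fun E _ => poly_verC) (X + 3) (fun x y h => sound_verC x y h)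
    fun x hx => ?_
  obtain ⟨y, h1, h2, h3⟩ := complete_verC x hx
  refine ⟨y, ?_, fun a ha => (h2 a ha).trans ?_, h3⟩
  · simp only [eval_add, eval_X, eval_ofNat]; omega
  · simp only [eval_add, eval_X, eval_ofNat]; omega

end Pool.Agent.BJ
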