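import Pool.Agent.Lib_MP_33ea09_lc.Defs
import Mathlib.Algebra.Order.Floor.Ring
import Mathlib.Data.Rat.Floor

/-!
# Just-in-time sequences and the decision problem BJIT
-/

namespace Pool.Agent.BJ

open Pool.Agent.Bx81

/-- `S` is a just-in-time sequence for `d = (d_0, …, d_{n-1})`: a word over the letters
`0, …, n-1` in which every letter `i` occurs exactly `d_i` times. -/
def IsJit (d S : List ℕ) : Prop :=
  (∀ s ∈ S, s < d.length) ∧ ∀ i (h : i < d.length), S.count i = d[i]

/-- The bottleneck deviation of `S` is at most `B`: for every letter `i` and every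
`k = 1, …, D = d_0 + ⋯ + d_{n-1}`, the number of occurrences of `i` among the first `k` letters of
`S` differs from `k * d_i / D` by at most `B`. -/
def DevLE (d S : List ℕ) (B : ℚ) : Prop :=
  ∀ i (h : i < d.length), ∀ k, 1 ≤ k → k ≤ d.sum →
    |((S.take k).count i : ℚ) - (k : ℚ) * ((d[i] : ℚ) / (d.sum : ℚ))| ≤ B

/-- There is a just-in-time sequence for `d` with bottleneck deviation at most `B`. -/
def Feas (d : List ℕ) (B : ℚ) : Prop := ∃ S : List ℕ, IsJit d S ∧ DevLE d S B

/-- The instance `(d, B)` as a string: the numbers `d_0, …, d_{n-1}`, each written in binary (least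
significant digit first) and followed by the separator `none`, then the numerator of `B` in binary,
`none`, and the denominator of `B` in binary. -/
def encode (d : List ℕ) (B : ℚ) : List (Option Bool) :=
  d.flatMap (fun a => (Nat.bits a).map some ++ [none]) ++
    ((Nat.bits B.num.natAbs).map some ++ [none] ++ (Nat.bits B.den).map some)

/-- The decision problem BJIT: given a nonempty vector `d` of positive integers and a rational
`B ≥ 0`, all in binary, is there a just-in-time sequence for `d` with bottleneck deviation at most
`B`? -/
def BJIT : Set (List (Option Bool)) :=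
  {w | ∃ (d : List ℕ) (B : ℚ), d ≠ [] ∧ (∀ a ∈ d, 0 < a) ∧ 0 ≤ B ∧ w = encode d B ∧ Feas d B}

end Pool.Agent.BJ
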