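import Pool.Agent.BJ.Digits

/-!
# Linear equations between digits
-/

namespace Pool.Agent.BJ

open Finset

/-- The number of the pair that forces `∑ κ_j z_j = cst`. -/
def eqNum (Q N : ℕ) (κ : ℕ → ℕ) (cst : ℕ) : ℕ :=
  (Q - 4 * cst) * Q ^ (N - 1) + 4 * ∑ j ∈ Ico 1 N, κ j * Q ^ (N - 1 - j)

section

variable {m Q M N p : ℕ} {z Y : ℕ → ℤ} {κ : ℕ → ℕ} {cst : ℕ}

/-- the multiple of `p` occurring in an equation -/
theorem eq_expand (hN : 0 < N) (hD : Dig Q N p z Y) (hK : 4 * cst ≤ Q) :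
    ∃ ν p' : ℤ, (p : ℤ) = 2 * p' ∧ ((eqNum Q N κ cst : ℕ) : ℤ) * p =
      2 * (2 * ((∑ j ∈ Ico 1 N, (κ j : ℤ) * z j) - cst) * (Q : ℤ) ^ (N - 1) +
        2 * (∑ j ∈ Ico 1 N, (κ j : ℤ) * ((Q : ℤ) ^ (N - 1 - j) * Y j)) + ν * (Q : ℤ) ^ N) := by
  obtain ⟨p', hp'⟩ := hD.even
  obtain ⟨k, hk⟩ := hD.hp 1 hN
  rw [hD.Y1, pow_one] at hk
  have h1 : ∀ j ∈ Ico 1 N, ∃ n : ℤ, (κ j : ℤ) * (Q : ℤ) ^ (N - 1 - j) * p =
      κ j * z j * (Q : ℤ) ^ (N - 1) + κ j * ((Q : ℤ) ^ (N - 1 - j) * Y j) + n * (Q : ℤ) ^ N := by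
    intro j hj
    rw [Finset.mem_Ico] at hj
    obtain ⟨n, hn⟩ := hD.hp (j + 1) (by omega)
    refine ⟨κ j * n, ?_⟩
    have e : (p : ℤ) = Y j + z j * (Q : ℤ) ^ j + n * (Q : ℤ) ^ (j + 1) := by
      have := hD.hY j hj.2
      linarith
    rw [e, ← pow_split (Q := (Q : ℤ)) hj.2, ← pow_split' (Q := (Q : ℤ)) hj.2]
    ring
  choose! n hn using h1
  have hN1 : (Q : ℤ) ^ N = Q ^ (N - 1) * Q := by rw [← pow_succ]; congr 1; omega
  refine ⟨p' - 2 * cst * k + 2 * ∑ j ∈ Ico 1 N, n j, p', hp', ?_⟩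
  unfold eqNum
  push_cast [Nat.cast_sub hK]
  have e1 : (∑ j ∈ Ico 1 N, (κ j : ℤ) * (Q : ℤ) ^ (N - 1 - j)) * p =
      (∑ j ∈ Ico 1 N, (κ j : ℤ) * z j) * (Q : ℤ) ^ (N - 1) +
        (∑ j ∈ Ico 1 N, (κ j : ℤ) * ((Q : ℤ) ^ (N - 1 - j) * Y j)) +
        (∑ j ∈ Ico 1 N, n j) * (Q : ℤ) ^ N := by
    rw [Finset.sum_mul, Finset.sum_mul, Finset.sum_mul, ← Finset.sum_add_distrib,
      ← Finset.sum_add_distrib]
    exact Finset.sum_congr rfl hn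
  have e2 : ((Q - 4 * cst : ℤ) * (Q : ℤ) ^ (N - 1)) * p =
      (Q : ℤ) ^ N * (2 * p') - 4 * cst * ((Q : ℤ) ^ (N - 1) + k * (Q : ℤ) ^ N) := by
    have : (p : ℤ) = 1 + Q * k := by linarith
    rw [← hp', hN1, this]; ring
  rw [add_mul, e2]
  linear_combination 4 * e1

theorem err_bound (hQ : 0 < Q) (hD : Dig Q N p z Y) :
    2 * Q * |∑ j ∈ Ico 1 N, (κ j : ℤ) * ((Q : ℤ) ^ (N - 1 - j) * Y j)| ≤
      3 * (∑ j ∈ Ico 1 N, (κ j : ℤ)) * (Q : ℤ) ^ (N - 1) := by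
  have hQz : (0 : ℤ) < Q := by exact_mod_cast hQ
  calc 2 * (Q : ℤ) * |∑ j ∈ Ico 1 N, (κ j : ℤ) * ((Q : ℤ) ^ (N - 1 - j) * Y j)|
      ≤ 2 * Q * ∑ j ∈ Ico 1 N, |(κ j : ℤ) * ((Q : ℤ) ^ (N - 1 - j) * Y j)| :=
        mul_le_mul_of_nonneg_left (Finset.abs_sum_le_sum_abs _ _) (by positivity)
    _ = ∑ j ∈ Ico 1 N, 2 * Q * |(κ j : ℤ) * ((Q : ℤ) ^ (N - 1 - j) * Y j)| := Finset.mul_sum _ _ _
    _ ≤ ∑ j ∈ Ico 1 N, 3 * (κ j : ℤ) * (Q : ℤ) ^ (N - 1) := by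
        refine Finset.sum_le_sum fun j hj => ?_
        rw [Finset.mem_Ico] at hj
        obtain ⟨i, rfl⟩ : ∃ i, j = i + 1 := ⟨j - 1, by omega⟩
        have h1 := hD.hb i (by omega)
        rw [abs_mul, abs_mul, abs_of_nonneg (Int.natCast_nonneg (κ (i + 1))),
          abs_of_pos (by positivity : (0 : ℤ) < (Q : ℤ) ^ (N - 1 - (i + 1)))]
        have e1 := pow_split' (Q := (Q : ℤ)) hj.2
        rw [← e1]
        have h2 : (κ (i + 1) : ℤ) * (Q : ℤ) ^ (N - 1 - (i + 1)) * Q * (2 * |Y (i + 1)|) ≤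
            (κ (i + 1) : ℤ) * (Q : ℤ) ^ (N - 1 - (i + 1)) * Q * (3 * (Q : ℤ) ^ i) :=
          mul_le_mul_of_nonneg_left h1.le (by positivity)
        rw [pow_succ]
        linarith
    _ = _ := by rw [Finset.mul_sum, Finset.sum_mul]

theorem eq_sound (hm : 4 ≤ m) (hM : M = 2 * m) (hQ : Q = 3 * m) (hN : 0 < N)
    (hD : Dig Q N p z Y) (hK : 8 * ((∑ j ∈ Ico 1 N, κ j) + cst) + 8 ≤ Q)
    (hg : Good M (2 * Q ^ N) (eqNum Q N κ cst) p) :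
    ∑ j ∈ Ico 1 N, (κ j : ℤ) * z j = cst := by
  have hM0 : 0 < M := by omega
  have hQ0 : 0 < Q := by omega
  have hR0 : 0 < 2 * Q ^ N := by positivity
  have hQz : (12 : ℤ) ≤ Q := by exact_mod_cast (by omega : 12 ≤ Q)
  have h3M : 3 * (M : ℤ) = 2 * Q := by exact_mod_cast (by omega : 3 * M = 2 * Q)
  obtain ⟨ν, p', hp', he⟩ := eq_expand (κ := κ) (cst := cst) hN hD (by omega)
  have herr := err_bound (κ := κ) hQ0 hD
  rw [good_iff hM0 hR0] at hg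
  obtain ⟨n, hn⟩ := hg
  have hKz : 8 * ((∑ j ∈ Ico 1 N, (κ j : ℤ)) + cst) + 8 ≤ Q := by exact_mod_cast hK
  have hK0 : (0 : ℤ) ≤ ∑ j ∈ Ico 1 N, (κ j : ℤ) := by positivity
  have hV : |∑ j ∈ Ico 1 N, (κ j : ℤ) * z j| ≤ ∑ j ∈ Ico 1 N, (κ j : ℤ) := by
    refine (Finset.abs_sum_le_sum_abs _ _).trans (Finset.sum_le_sum fun j hj => ?_)
    rw [Finset.mem_Ico] at hj
    rw [abs_mul, abs_of_nonneg (Int.natCast_nonneg (κ j))]
    have := hD.hz j hj.2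
    have h0 : (0 : ℤ) ≤ κ j := Int.natCast_nonneg _
    nlinarith
  generalize (∑ j ∈ Ico 1 N, (κ j : ℤ)) = K at *
  generalize hVd : (∑ j ∈ Ico 1 N, (κ j : ℤ) * z j) = W at *
  generalize (∑ j ∈ Ico 1 N, (κ j : ℤ) * ((Q : ℤ) ^ (N - 1 - j) * Y j)) = er at *
  push_cast at hn
  rw [he] at hn
  have hA : (0 : ℤ) < (Q : ℤ) ^ (N - 1) := by positivity
  have hN1 : (Q : ℤ) ^ N = Q ^ (N - 1) * Q := by rw [← pow_succ]; congr 1; omega
  rw [hN1] at hn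
  generalize (Q : ℤ) ^ (N - 1) = A at *
  have e1 : (M : ℤ) * (2 * (2 * (W - cst) * A + 2 * er + ν * (A * Q)) - n * (2 * (A * Q))) =
      2 * (M * (2 * (W - cst) * A + 2 * er + (ν - n) * (A * Q))) := by ring
  rw [e1, abs_mul, abs_of_pos (by norm_num : (0 : ℤ) < 2), abs_mul,
    abs_of_nonneg (Int.natCast_nonneg M)] at hn
  generalize hX : 2 * (W - cst) * A + 2 * er + (ν - n) * (A * Q) = X at hn
  -- 2 |X| < 3 A
  have h1 : 2 * |X| < 3 * A := by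
    by_contra hcon
    push Not at hcon
    have h2 : 3 * A * Q ≤ 2 * |X| * Q := mul_le_mul_of_nonneg_right hcon (by omega)
    have h3 : 3 * (M : ℤ) * |X| = 2 * Q * |X| := by rw [h3M]
    linarith
  have h2 : A * |2 * (W - cst) + (ν - n) * Q| ≤ |X| + 2 * |er| := by
    have e2 : A * (2 * (W - cst) + (ν - n) * Q) = X - 2 * er := by rw [← hX]; ring
    calc A * |2 * (W - cst) + (ν - n) * Q| = |A * (2 * (W - cst) + (ν - n) * Q)| := by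
          rw [abs_mul, abs_of_pos hA]
      _ = |X - 2 * er| := by rw [e2]
      _ ≤ |X| + |2 * er| := abs_sub _ _
      _ = _ := by rw [abs_mul, abs_of_pos (by norm_num : (0 : ℤ) < 2)]
  generalize hT : |2 * (W - cst) + (ν - n) * Q| = T at h2
  have h3 : T < 2 := by
    by_contra hcon
    push Not at hcon
    have h4 : A * 2 ≤ A * T := mul_le_mul_of_nonneg_left hcon hA.le
    have h5 : 2 * Q * (A * 2) ≤ 2 * Q * (|X| + 2 * |er|) :=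
      mul_le_mul_of_nonneg_left (h4.trans h2) (by positivity)
    have h6 : 2 * |X| * Q ≤ 3 * A * Q := mul_le_mul_of_nonneg_right h1.le (by omega)
    have h7 : 6 * K * A < Q * A := mul_lt_mul_of_pos_right (by omega) hA
    nlinarith
  have h4 : |2 * (W - cst) + (ν - n) * Q| ≤ 1 := by omega
  rw [abs_le] at h4
  rw [abs_le] at hV
  obtain ⟨h5, h6⟩ := h4
  obtain ⟨h7, h8⟩ := hV
  have h9 : ν - n = 0 := by
    by_contra hcon
    rcases lt_or_gt_of_ne hcon with h | h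
    · have : (ν - n) * Q ≤ -1 * Q := mul_le_mul_of_nonneg_right (by omega) (by omega)
      omega
    · have : 1 * (Q : ℤ) ≤ (ν - n) * Q := mul_le_mul_of_nonneg_right (by omega) (by omega)
      omega
  rw [h9, zero_mul] at h5 h6
  omega

theorem eq_complete (hm : 4 ≤ m) (hM : M = 2 * m) (hQ : Q = 3 * m) (hN : 0 < N)
    (hD : Dig Q N p z Y) (hK : 8 * ((∑ j ∈ Ico 1 N, κ j) + cst) + 8 ≤ Q)
    (h : ∑ j ∈ Ico 1 N, (κ j : ℤ) * z j = cst) : Good M (2 * Q ^ N) (eqNum Q N κ cst) p := by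
  have hM0 : 0 < M := by omega
  have hQ0 : 0 < Q := by omega
  have hR0 : 0 < 2 * Q ^ N := by positivity
  have hQz : (12 : ℤ) ≤ Q := by exact_mod_cast (by omega : 12 ≤ Q)
  have h3M : 3 * (M : ℤ) = 2 * Q := by exact_mod_cast (by omega : 3 * M = 2 * Q)
  obtain ⟨ν, p', hp', he⟩ := eq_expand (κ := κ) (cst := cst) hN hD (by omega)
  have herr := err_bound (κ := κ) hQ0 hD
  have hKz : 8 * ((∑ j ∈ Ico 1 N, (κ j : ℤ)) + cst) + 8 ≤ Q := by exact_mod_cast hK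
  rw [good_iff hM0 hR0]
  refine ⟨ν, ?_⟩
  rw [he, h]
  push_cast
  have hA : (0 : ℤ) < (Q : ℤ) ^ (N - 1) := by positivity
  have hN1 : (Q : ℤ) ^ N = Q ^ (N - 1) * Q := by rw [← pow_succ]; congr 1; omega
  rw [hN1]
  have hc0 : (0 : ℤ) ≤ cst := Int.natCast_nonneg _
  generalize (∑ j ∈ Ico 1 N, (κ j : ℤ)) = K at *
  generalize (∑ j ∈ Ico 1 N, (κ j : ℤ) * ((Q : ℤ) ^ (N - 1 - j) * Y j)) = er at *
  generalize (Q : ℤ) ^ (N - 1) = A at *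
  have e1 : (M : ℤ) * (2 * (2 * ((cst : ℤ) - cst) * A + 2 * er + ν * (A * Q)) -
      ν * (2 * (A * Q))) = 4 * (M * er) := by ring
  rw [e1, abs_mul, abs_mul, abs_of_nonneg (Int.natCast_nonneg M),
    abs_of_pos (by norm_num : (0 : ℤ) < 4)]
  have h3 : 3 * (M : ℤ) * |er| = 2 * Q * |er| := by rw [h3M]
  have h7 : 6 * K * A < Q * A := mul_lt_mul_of_pos_right (by omega) hA
  nlinarith

theorem parity_complete (hM0 : 0 < M) (hQ0 : 0 < Q) (hD : Dig Q N p z Y) :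
    Good M (2 * Q ^ N) (Q ^ N) p := by
  obtain ⟨p', hp'⟩ := hD.even
  rw [good_iff hM0 (by positivity)]
  refine ⟨p', ?_⟩
  push_cast
  rw [hp']
  have : (M : ℤ) * ((Q : ℤ) ^ N * (2 * p') - p' * (2 * (Q : ℤ) ^ N)) = 0 := by ring
  rw [this, abs_zero]
  positivity

theorem dig_complete (hm : 4 ≤ m) (hM : M = 2 * m) (hQ : Q = 3 * m)
    (hD : Dig Q N p z Y) {j : ℕ} (hj : j < N) :
    Good M (2 * Q ^ N) (Q ^ N + 2 * Q ^ (N - 1 - j)) p := by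
  have hM0 : 0 < M := by omega
  have hQ0 : 0 < Q := by omega
  have h3M : 3 * (M : ℤ) = 2 * Q := by exact_mod_cast (by omega : 3 * M = 2 * Q)
  obtain ⟨p', hp'⟩ := hD.even
  obtain ⟨n, hn⟩ := hD.hp (j + 1) (by omega)
  rw [good_iff hM0 (by positivity)]
  refine ⟨p' + n, ?_⟩
  push_cast
  have e0 := pow_split (Q := (Q : ℤ)) hj
  have e : (M : ℤ) * (((Q : ℤ) ^ N + 2 * (Q : ℤ) ^ (N - 1 - j)) * p -
      (p' + n) * (2 * (Q : ℤ) ^ N)) = 2 * (Q : ℤ) ^ (N - 1 - j) * (M * Y (j + 1)) := by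
    have e1 : (Y (j + 1) : ℤ) = 2 * p' - Q ^ (j + 1) * n := by linarith
    rw [e1, hp', ← e0]; ring
  rw [e, abs_mul, abs_of_pos (by positivity : (0 : ℤ) < 2 * (Q : ℤ) ^ (N - 1 - j)), abs_mul,
    abs_of_nonneg (Int.natCast_nonneg M), ← e0]
  have h1 := hD.hb j hj
  have h2 : (M : ℤ) * |Y (j + 1)| < (Q : ℤ) ^ (j + 1) := by
    have h3 : 3 * (M : ℤ) * |Y (j + 1)| = 2 * Q * |Y (j + 1)| := by rw [h3M]
    have h4 : 2 * |Y (j + 1)| * Q < 3 * (Q : ℤ) ^ j * Q :=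
      mul_lt_mul_of_pos_right h1 (by exact_mod_cast hQ0)
    rw [pow_succ]
    linarith
  have h5 : 2 * (Q : ℤ) ^ (N - 1 - j) * (M * |Y (j + 1)|) <
      2 * (Q : ℤ) ^ (N - 1 - j) * (Q : ℤ) ^ (j + 1) := mul_lt_mul_of_pos_left h2 (by positivity)
  linarith

/-- Every 0-1 digit vector with `z 0 = 1` comes from a number. -/
theorem exists_dig (hm : 4 ≤ m) (hQ : Q = 3 * m) (hodd : m % 2 = 1) (hN : 0 < N) (w : ℕ → ℕ)
    (h0 : w 0 = 1) (hw : ∀ j, w j ≤ 1) :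
    ∃ p : ℕ, p ≤ 2 * Q ^ N ∧ p % Q = 1 ∧ ∃ Y : ℕ → ℤ, Dig Q N p (fun j => (w j : ℤ)) Y := by
  have hQ0 : 0 < Q := by omega
  let y : ℕ → ℕ := fun j => ∑ i ∈ range j, w i * Q ^ i
  have hyS : ∀ j, y (j + 1) = y j + w j * Q ^ j := fun j => Finset.sum_range_succ _ _
  have hyb : ∀ j, 2 * y (j + 1) < 3 * Q ^ j := by
    intro j
    induction j with
    | zero => simp [y, h0]
    | succ j ih =>
      rw [hyS (j + 1)]
      have h1 : w (j + 1) * Q ^ (j + 1) ≤ 1 * Q ^ (j + 1) := Nat.mul_le_mul_right _ (hw _)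
      have h2 : 3 * Q ^ j ≤ Q * Q ^ j := Nat.mul_le_mul_right _ (by omega)
      have h3 : Q ^ (j + 1) = Q * Q ^ j := by rw [pow_succ, Nat.mul_comm]
      omega
  have hyd : ∀ j k, ∃ n, y (j + k) = y j + Q ^ j * n := by
    intro j k
    induction k with
    | zero => exact ⟨0, by simp⟩
    | succ k ih =>
      obtain ⟨n, hn⟩ := ih
      refine ⟨n + w (j + k) * Q ^ k, ?_⟩
      rw [← Nat.add_assoc, hyS, hn, pow_add]
      ring
  have hyN : y N < Q ^ N := by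
    obtain ⟨n, rfl⟩ : ∃ n, N = n + 1 := ⟨N - 1, by omega⟩
    have h1 := hyb n
    have h2 : 3 * Q ^ n ≤ Q * Q ^ n := Nat.mul_le_mul_right _ (by omega)
    have h3 : Q ^ (n + 1) = Q * Q ^ n := by rw [pow_succ, Nat.mul_comm]
    omega
  have hQodd : Q ^ N % 2 = 1 := by
    have : Q % 2 = 1 := by omega
    rw [Nat.pow_mod, this, one_pow]
    norm_num
  obtain ⟨p, e, hp1, hp2, hp3⟩ : ∃ p e, p = y N + e * Q ^ N ∧ e ≤ 1 ∧ p % 2 = 0 := by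
    by_cases h : y N % 2 = 0
    · exact ⟨y N, 0, by simp, by omega, h⟩
    · exact ⟨y N + Q ^ N, 1, by simp, le_rfl, by omega⟩
  have hy1 : y 1 = 1 := by simp [y, h0]
  have hpy : ∀ j ≤ N, ∃ n, p = y j + Q ^ j * n := by
    intro j hj
    obtain ⟨k, rfl⟩ : ∃ k, N = j + k := ⟨N - j, by omega⟩
    obtain ⟨n, hn⟩ := hyd j k
    refine ⟨n + e * Q ^ k, ?_⟩
    rw [hp1, hn, pow_add]; ring
  refine ⟨p, ?_, ?_, fun j => (y j : ℤ), ?_, ?_, ?_, ?_, ?_, ?_, ?_, ?_⟩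
  · have : e * Q ^ N ≤ 1 * Q ^ N := Nat.mul_le_mul_right _ hp2
    omega
  · obtain ⟨n, hn⟩ := hpy 1 hN
    rw [hn, hy1, pow_one, Nat.add_mul_mod_self_left, Nat.mod_eq_of_lt (by omega)]
  · simp [h0]
  · simp [y]
  · simp [hy1]
  · intro j _
    have := hw j
    rw [abs_of_nonneg (Int.natCast_nonneg _)]
    exact_mod_cast this
  · intro j _
    exact_mod_cast hyS j
  · intro j _
    rw [abs_of_nonneg (Int.natCast_nonneg _)]
    exact_mod_cast hyb j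
  · intro j hj
    obtain ⟨n, hn⟩ := hpy j hj
    refine ⟨n, ?_⟩
    rw [hn]; push_cast; ring
  · refine ⟨(p / 2 : ℕ), ?_⟩
    exact_mod_cast (by omega : p = 2 * (p / 2))

end

end Pool.Agent.BJ
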