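import Pool.Agent.BJ.GapA

/-!
# Digits in base `Q`
-/

namespace Pool.Agent.BJ

theorem good_iff {M R a p : ℕ} (hM : 0 < M) (hR : 0 < R) :
    Good M R a p ↔ ∃ n : ℤ, |(M : ℤ) * (a * p - n * R)| < R := by
  have e1 : (a : ℤ) * p = R * ((a * p / R : ℕ) : ℤ) + ((a * p % R : ℕ) : ℤ) := by
    exact_mod_cast (Nat.div_add_mod (a * p) R).symm
  have hlt := Nat.mod_lt (a * p) hR
  have e2 : (M - 1) * R = M * R - R := by rw [Nat.sub_mul, Nat.one_mul]
  have hRD : R ≤ M * R := Nat.le_mul_of_pos_left _ hM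
  unfold Good
  rw [e2]
  set n0 := a * p / R
  set σ := a * p % R
  have hMσ : M * σ ≤ M * R := Nat.mul_le_mul_left _ hlt.le
  have hσ : (σ : ℤ) < R := by exact_mod_cast hlt
  have hM' : (1 : ℤ) ≤ M := by exact_mod_cast hM
  have hR' : (0 : ℤ) < R := by exact_mod_cast hR
  have hσ0 : (0 : ℤ) ≤ σ := Int.natCast_nonneg _
  constructor
  · rintro (h | h)
    · refine ⟨n0, ?_⟩
      rw [e1]
      have : (M : ℤ) * (R * n0 + σ - n0 * R) = M * σ := by ring
      rw [this, abs_of_nonneg (by positivity)]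
      exact_mod_cast h
    · refine ⟨n0 + 1, ?_⟩
      rw [e1]
      have : (M : ℤ) * (R * n0 + σ - (n0 + 1) * R) = -(M * (R - σ)) := by ring
      rw [this, abs_neg, abs_of_nonneg (by nlinarith)]
      have h3 : M * R < M * σ + R := by omega
      have h4 : (M : ℤ) * R < M * σ + R := by exact_mod_cast h3
      nlinarith
  · rintro ⟨n, hn⟩
    rw [e1] at hn
    have e3 : (R : ℤ) * n0 + σ - n * R = (n0 - n) * R + σ := by ring
    rw [e3, abs_lt] at hn
    obtain ⟨hn1, hn2⟩ := hn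
    generalize hk : (n0 : ℤ) - n = k at hn1 hn2
    have hk1 : k < 1 := by
      by_contra hcon
      have : (R : ℤ) ≤ k * R + σ := by nlinarith
      nlinarith
    have hk2 : -2 < k := by
      by_contra hcon
      have : k * R + σ < -R := by nlinarith
      nlinarith
    have hk3 : k = 0 ∨ k = -1 := by omega
    rcases hk3 with rfl | rfl
    · left
      have : (M : ℤ) * σ < R := by nlinarith
      exact_mod_cast this
    · right
      have h4 : (M : ℤ) * R < M * σ + R := by nlinarith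
      have h5 : M * R < M * σ + R := by exact_mod_cast h4
      omega

/-- The data extracted from a number all of whose digit constraints are good. -/
structure Dig (Q N : ℕ) (p : ℤ) (z Y : ℕ → ℤ) : Prop where
  z0 : z 0 = 1
  Y0 : Y 0 = 0
  Y1 : Y 1 = 1
  hz : ∀ j < N, |z j| ≤ 1
  hY : ∀ j < N, Y (j + 1) = Y j + z j * (Q : ℤ) ^ j
  hb : ∀ j < N, 2 * |Y (j + 1)| < 3 * (Q : ℤ) ^ j
  hp : ∀ j ≤ N, (Q : ℤ) ^ j ∣ p - Y j
  even : ∃ p', p = 2 * p'

theorem pow_split {Q : ℤ} {N j : ℕ} (hj : j < N) : Q ^ (N - 1 - j) * Q ^ (j + 1) = Q ^ N := by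
  rw [← pow_add]
  congr 1
  omega

theorem pow_split' {Q : ℤ} {N j : ℕ} (hj : j < N) : Q ^ (N - 1 - j) * Q ^ j = Q ^ (N - 1) := by
  rw [← pow_add]
  congr 1
  omega

section

variable {m Q M N p : ℕ}

theorem digits_sound (hm : 4 ≤ m) (hM : M = 2 * m) (hQ : Q = 3 * m) (hN : 0 < N)
    (hp : p % Q = 1) (hpar : Good M (2 * Q ^ N) (Q ^ N) p)
    (hdig : ∀ j, 1 ≤ j → j < N → Good M (2 * Q ^ N) (Q ^ N + 2 * Q ^ (N - 1 - j)) p) :
    ∃ z Y : ℕ → ℤ, Dig Q N p z Y := by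
  have hM0 : 0 < M := by omega
  have hQ0 : 0 < Q := by omega
  have hR0 : 0 < 2 * Q ^ N := by positivity
  have hQz : (12 : ℤ) ≤ Q := by exact_mod_cast (by omega : 12 ≤ Q)
  have hMz : (8 : ℤ) ≤ M := by exact_mod_cast (by omega : 8 ≤ M)
  have h3M : 3 * (M : ℤ) = 2 * Q := by exact_mod_cast (by omega : 3 * M = 2 * Q)
  have hQN : (0 : ℤ) < (Q : ℤ) ^ N := by positivity
  -- parity
  obtain ⟨p', hp'⟩ : ∃ p' : ℤ, (p : ℤ) = 2 * p' := by
    rw [good_iff hM0 hR0] at hpar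
    obtain ⟨n, hn⟩ := hpar
    refine ⟨n, ?_⟩
    push_cast at hn
    have e : (M : ℤ) * ((Q : ℤ) ^ N * p - n * (2 * (Q : ℤ) ^ N)) =
      (Q : ℤ) ^ N * (M * (p - 2 * n)) := by ring
    rw [e, abs_mul, abs_of_pos hQN] at hn
    have h1 : |(M : ℤ) * (p - 2 * n)| < 2 := by
      by_contra hcon
      have : (Q : ℤ) ^ N * 2 ≤ (Q : ℤ) ^ N * |(M : ℤ) * (p - 2 * n)| :=
        mul_le_mul_of_nonneg_left (by omega) hQN.le
      linarith
    rw [abs_lt] at h1
    by_contra hcon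
    rcases lt_or_gt_of_ne hcon with h | h
    · have : (p : ℤ) - 2 * n ≤ -1 := by omega
      nlinarith
    · have : 1 ≤ (p : ℤ) - 2 * n := by omega
      nlinarith
  -- the residues
  have hres : ∀ j, 1 ≤ j → j < N → ∃ n : ℤ, 2 * |(p : ℤ) - n * (Q : ℤ) ^ (j + 1)| < 3 * (Q : ℤ) ^ j := by
    intro j hj1 hj
    have h := hdig j hj1 hj
    rw [good_iff hM0 hR0] at h
    obtain ⟨n, hn⟩ := h
    refine ⟨n - p', ?_⟩
    push_cast at hn
    have hA : (0 : ℤ) < (Q : ℤ) ^ (N - 1 - j) := by positivity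
    have e0 := pow_split (Q := (Q : ℤ)) hj
    have e : (M : ℤ) * (((Q : ℤ) ^ N + 2 * (Q : ℤ) ^ (N - 1 - j)) * p - n * (2 * (Q : ℤ) ^ N)) =
      2 * (Q : ℤ) ^ (N - 1 - j) * (M * (p - (n - p') * (Q : ℤ) ^ (j + 1))) := by
      rw [← e0, hp']; ring
    rw [e, abs_mul, abs_of_pos (by positivity : (0 : ℤ) < 2 * (Q : ℤ) ^ (N - 1 - j))] at hn
    have h1 : |(M : ℤ) * (p - (n - p') * (Q : ℤ) ^ (j + 1))| < (Q : ℤ) ^ (j + 1) := by
      by_contra hcon
      have : 2 * (Q : ℤ) ^ (N - 1 - j) * (Q : ℤ) ^ (j + 1) ≤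
          2 * (Q : ℤ) ^ (N - 1 - j) * |(M : ℤ) * (p - (n - p') * (Q : ℤ) ^ (j + 1))| :=
        mul_le_mul_of_nonneg_left (by omega) (by positivity)
      nlinarith
    rw [abs_mul, abs_of_nonneg (by omega : (0 : ℤ) ≤ M)] at h1
    generalize |(p : ℤ) - (n - p') * (Q : ℤ) ^ (j + 1)| = T at h1 ⊢
    rw [pow_succ] at h1
    by_contra hcon
    push Not at hcon
    have h2 : 3 * (Q : ℤ) ^ j * Q ≤ 2 * T * Q := mul_le_mul_of_nonneg_right hcon (by omega)
    have h3 : 3 * (M : ℤ) * T = 2 * Q * T := by rw [h3M]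
    linarith
  choose! f hf using hres
  have hp1 : (Q : ℤ) ∣ p - 1 := by
    refine ⟨(p / Q : ℕ), ?_⟩
    have := Nat.div_add_mod p Q
    rw [hp] at this
    have h2 : (Q : ℤ) * ((p / Q : ℕ) : ℤ) + 1 = p := by exact_mod_cast this
    linarith
  obtain ⟨Y, hYdef⟩ : ∃ Y : ℕ → ℤ, Y = fun j => if j = 0 then 0 else if j = 1 then 1 else
    p - f (j - 1) * (Q : ℤ) ^ j := ⟨_, rfl⟩
  have Y0 : Y 0 = 0 := by rw [hYdef]; rfl
  have Y1 : Y 1 = 1 := by rw [hYdef]; rfl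
  have YS : ∀ j, 1 ≤ j → Y (j + 1) = p - f j * (Q : ℤ) ^ (j + 1) := by
    intro j hj
    rw [hYdef]
    simp only
    rw [if_neg (by omega), if_neg (by omega)]
    rfl
  have hbb : ∀ j < N, 2 * |Y (j + 1)| < 3 * (Q : ℤ) ^ j := by
    intro j hj
    by_cases h : j = 0
    · subst h
      rw [Y1]; norm_num
    · rw [YS j (by omega)]
      exact hf j (by omega) hj
  have hpp : ∀ j ≤ N, (Q : ℤ) ^ j ∣ p - Y j := by
    intro j hj
    by_cases h : j = 0
    · subst h; simp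
    · by_cases h' : j = 1
      · subst h'
        rw [Y1, pow_one]; exact hp1
      · obtain ⟨i, rfl⟩ : ∃ i, j = i + 1 := ⟨j - 1, by omega⟩
        rw [YS i (by omega)]
        exact ⟨f i, by ring⟩
  have hdiv : ∀ j < N, (Q : ℤ) ^ j ∣ Y (j + 1) - Y j := by
    intro j hj
    have h1 := hpp j (by omega)
    have h2 : (Q : ℤ) ^ j ∣ p - Y (j + 1) := (pow_dvd_pow _ (by omega)).trans (hpp (j + 1) (by omega))
    have := dvd_sub h1 h2
    have e : Y (j + 1) - Y j = (p : ℤ) - Y j - (p - Y (j + 1)) := by ring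
    rw [e]
    exact this
  choose! z hz using hdiv
  have hYz : ∀ j < N, Y (j + 1) = Y j + z j * (Q : ℤ) ^ j := by
    intro j hj
    have := hz j hj
    linarith
  refine ⟨z, Y, ⟨?_, Y0, Y1, ?_, hYz, hbb, hpp, ⟨p', hp'⟩⟩⟩
  · have := hYz 0 hN
    rw [Y0, pow_zero] at this
    have h1 : Y (0 + 1) = 1 := Y1
    linarith
  · intro j hj
    by_cases h : j = 0
    · subst h
      have := hYz 0 hN
      rw [Y0, pow_zero] at this
      have h1 : Y (0 + 1) = 1 := Y1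
      have h2 : z 0 = 1 := by linarith
      rw [h2]; norm_num
    · obtain ⟨i, rfl⟩ : ∃ i, j = i + 1 := ⟨j - 1, by omega⟩
      have h1 := hbb (i + 1) hj
      have h2 := hbb i (by omega)
      have h3 := hYz (i + 1) hj
      have hQi : (0 : ℤ) < (Q : ℤ) ^ i := by positivity
      have h4 : |z (i + 1)| * (Q : ℤ) ^ (i + 1) ≤ |Y (i + 1 + 1)| + |Y (i + 1)| := by
        have : z (i + 1) * (Q : ℤ) ^ (i + 1) = Y (i + 1 + 1) - Y (i + 1) := by linarith
        calc |z (i + 1)| * (Q : ℤ) ^ (i + 1) = |z (i + 1) * (Q : ℤ) ^ (i + 1)| := by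
              rw [abs_mul, abs_of_pos (by positivity : (0 : ℤ) < (Q : ℤ) ^ (i + 1))]
          _ = |Y (i + 1 + 1) - Y (i + 1)| := by rw [this]
          _ ≤ _ := abs_sub _ _
      by_contra hcon
      push Not at hcon
      have h5 : 2 * (Q : ℤ) ^ (i + 1) ≤ |z (i + 1)| * (Q : ℤ) ^ (i + 1) :=
        mul_le_mul_of_nonneg_right (by omega) (by positivity)
      rw [pow_succ] at h1 h4 h5
      nlinarith

end

end Pool.Agent.BJ
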