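import Pool.Agent.BJ.Gap
import Pool.Agent.Lib_MP_33ea09_lc.GenG

/-!
# The reduction: from formulas to linear systems to instances (definitions)
-/

namespace Pool.Agent.BJ

open Pool.Agent.Bx81

/-- A linear system: each equation `∑ z (positions) = constant` is a list of positions
(with multiplicity) and a constant. -/
abbrev Sys := List (List ℕ × ℕ)

/-- The numbers of the pairs. -/
def pairs (Q N : ℕ) (L : Sys) : List ℕ :=
  (Q ^ N :: (List.range N).map fun j => Q ^ N + 2 * Q ^ (N - 1 - j)) ++
    L.map fun e => (Q - 4 * e.2) * Q ^ (N - 1) + 4 * (e.1.map fun j => Q ^ (N - 1 - j)).sum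

/-- The vector of the instance of a system. -/
def dvec (m N : ℕ) (L : Sys) : List ℕ := inst m (2 * (3 * m) ^ (N - 1)) (pairs (3 * m) N L)

/-- The bound of the instance of a system. -/
def bnd (m : ℕ) : ℚ := ((2 * m - 1 : ℕ) : ℚ) / (2 * m : ℕ)

/-! ### The system of a formula -/

/-- The names occurring in a formula, with repetitions. -/
def nml (φ : Cnf) : List Nm := φ.flatMap fun c => c.map fun l => l.2

/-- The first index of a name. -/
def ix (l : List Nm) (a : Nm) : ℕ :=
  ((List.range l.length).filter fun i => decide (l[i]? = some a)).headD 0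

/-- The position of a literal. -/
def lpos (l : List Nm) (t : Bool × Nm) : ℕ := if t.1 then 1 + 2 * ix l t.2 else 2 + 2 * ix l t.2

/-- The equation of clause number `i`. -/
def ceq (φ : Cnf) (i : ℕ) : List ℕ × ℕ :=
  ((φ[i]?.getD []).map (lpos (nml φ)) ++
    (List.range ((φ[i]?.getD []).length - 1)).map
      (fun t => 1 + 2 * (nml φ).length + (i * (nml φ).length + t)),
    (φ[i]?.getD []).length - 1 + 1)

/-- The system of a formula. -/
def sys (φ : Cnf) : Sys :=
  (List.range (nml φ).length).map (fun v => ([1 + 2 * v, 2 + 2 * v], 1)) ++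
    (List.range φ.length).map (ceq φ)

/-- The number of positions. -/
def npos (φ : Cnf) : ℕ := 1 + 2 * (nml φ).length + φ.length * (nml φ).length

/-- The parameter `m`. -/
def mpar (φ : Cnf) : ℕ := 2 * (npos φ + 4 * (nml φ).length + φ.length + 100) + 1

/-- The string of the instance of a formula. -/
def jstr (φ : Cnf) : List (Option Bool) := encode (dvec (mpar φ) (npos φ) (sys φ)) (bnd (mpar φ))

end Pool.Agent.BJ
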