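import Pool.Agent.BJ.DigEq
import Pool.Agent.BJ.Red

/-!
# From linear systems to instances
-/

namespace Pool.Agent.BJ

open Finset

theorem sum_lcount {R : Type} [CommSemiring R] {N : ℕ} (f : ℕ → R) (l : List ℕ)
    (hl : ∀ j ∈ l, 1 ≤ j ∧ j < N) :
    (l.map f).sum = ∑ j ∈ Ico 1 N, (l.count j : R) * f j := by
  induction l with
  | nil => simp
  | cons a l ih =>
    have ha : a ∈ Ico 1 N := by rw [Finset.mem_Ico]; exact hl a (List.mem_cons_self ..)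
    rw [List.map_cons, List.sum_cons, ih fun j hj => hl j (List.mem_cons_of_mem _ hj)]
    have h : ∀ j ∈ Ico 1 N, ((a :: l).count j : R) * f j =
        (if a = j then f j else 0) + (l.count j : R) * f j := by
      intro j _
      rw [List.count_cons]
      by_cases h : a = j
      · simp [h]; ring
      · simp [h]
    rw [Finset.sum_congr rfl h, Finset.sum_add_distrib, Finset.sum_ite_eq, if_pos ha]

theorem eqNum_eq {Q N : ℕ} (e : List ℕ × ℕ) (hl : ∀ j ∈ e.1, 1 ≤ j ∧ j < N) :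
    (Q - 4 * e.2) * Q ^ (N - 1) + 4 * (e.1.map fun j => Q ^ (N - 1 - j)).sum =
      eqNum Q N (fun j => e.1.count j) e.2 := by
  unfold eqNum
  rw [sum_lcount (N := N) _ _ hl]
  simp

variable {m N : ℕ} {L : Sys}

theorem pairs_length (Q : ℕ) : (pairs Q N L).length = 1 + N + L.length := by
  simp [pairs]; omega

theorem mem_pairs {Q a : ℕ} (hL : ∀ e ∈ L, ∀ j ∈ e.1, 1 ≤ j ∧ j < N) :
    a ∈ pairs Q N L ↔ a = Q ^ N ∨ (∃ j < N, a = Q ^ N + 2 * Q ^ (N - 1 - j)) ∨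
      ∃ e ∈ L, a = eqNum Q N (fun j => e.1.count j) e.2 := by
  unfold pairs
  simp only [List.mem_append, List.mem_cons, List.mem_map, List.mem_range]
  constructor
  · rintro ((h | ⟨j, hj, rfl⟩) | ⟨e, he, rfl⟩)
    · exact Or.inl h
    · exact Or.inr (Or.inl ⟨j, hj, rfl⟩)
    · exact Or.inr (Or.inr ⟨e, he, eqNum_eq e (hL e he)⟩)
  · rintro (h | ⟨j, hj, rfl⟩ | ⟨e, he, rfl⟩)
    · exact Or.inl (Or.inl h)
    · exact Or.inl (Or.inr ⟨j, hj, rfl⟩)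
    · exact Or.inr ⟨e, he, eqNum_eq e (hL e he)⟩

theorem sum_cnt (l : List ℕ) (hl : ∀ j ∈ l, 1 ≤ j ∧ j < N) :
    ∑ j ∈ Ico 1 N, l.count j = l.length := by
  have := sum_lcount (N := N) (fun _ => (1 : ℕ)) l hl
  simp at this
  exact this.symm

theorem pairs_range (hm : 4 ≤ m) (hN : 0 < N) (hL : ∀ e ∈ L, ∀ j ∈ e.1, 1 ≤ j ∧ j < N)
    (hK : ∀ e ∈ L, 8 * (e.1.length + e.2) + 8 ≤ 3 * m) {a : ℕ} (ha : a ∈ pairs (3 * m) N L) :
    2 * (3 * m) ^ N ≤ 4 * a ∧ 4 * a ≤ 3 * (2 * (3 * m) ^ N) := by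
  obtain ⟨Q, hQ⟩ : ∃ Q, Q = 3 * m := ⟨_, rfl⟩
  rw [← hQ] at ha ⊢
  have hQ0 : 0 < Q := by omega
  have hN1 : Q ^ N = Q ^ (N - 1) * Q := by rw [← pow_succ]; congr 1; omega
  have hp : ∀ j, Q ^ (N - 1 - j) ≤ Q ^ (N - 1) := fun j => Nat.pow_le_pow_right hQ0 (by omega)
  have h12 : 12 * Q ^ (N - 1) ≤ Q ^ N := by
    rw [hN1, Nat.mul_comm]; exact Nat.mul_le_mul_left _ (by omega)
  rcases (mem_pairs hL).1 ha with rfl | ⟨j, hj, rfl⟩ | ⟨e, he, rfl⟩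
  · omega
  · have := hp j
    omega
  · have hk := hK e he
    have hc := sum_cnt e.1 (hL e he)
    have hS : ∑ j ∈ Ico 1 N, e.1.count j * Q ^ (N - 1 - j) ≤ e.1.length * Q ^ (N - 1) := by
      rw [← hc, Finset.sum_mul]
      exact Finset.sum_le_sum fun j _ => Nat.mul_le_mul_left _ (hp j)
    unfold eqNum
    simp only [Nat.cast_id] at *
    have h1 : 8 * (e.1.length * Q ^ (N - 1)) ≤ Q ^ N := by
      rw [hN1, Nat.mul_comm (Q ^ (N - 1)) Q, ← Nat.mul_assoc]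
      exact Nat.mul_le_mul_right _ (by omega)
    have h2 : (Q - 4 * e.2) * Q ^ (N - 1) + 4 * (e.2 * Q ^ (N - 1)) = Q ^ N := by
      rw [← Nat.mul_assoc, ← Nat.add_mul, hN1, Nat.mul_comm (Q ^ (N - 1)) Q]
      congr 1
      omega
    have h3 : 8 * (e.2 * Q ^ (N - 1)) ≤ Q ^ N := by
      rw [hN1, Nat.mul_comm (Q ^ (N - 1)) Q, ← Nat.mul_assoc]
      exact Nat.mul_le_mul_right _ (by omega)
    omega

theorem cmul (hN : 0 < N) : 2 * (3 * m) ^ (N - 1) * (3 * m) = 2 * (3 * m) ^ N := by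
  rw [Nat.mul_assoc, ← pow_succ]; congr 2; omega

theorem feas_dvec (hm : 4 ≤ m) (hN : 0 < N) (hL : ∀ e ∈ L, ∀ j ∈ e.1, 1 ≤ j ∧ j < N)
    (hK : ∀ e ∈ L, 8 * (e.1.length + e.2) + 8 ≤ 3 * m)
    (hlen : 2 * (1 + N + L.length) + 7 ≤ 2 * m) :
    Feas (dvec m N L) (bnd m) ↔ ∀ p ≤ 2 * (3 * m) ^ N, p % (3 * m) = 1 →
      ∃ a ∈ pairs (3 * m) N L, ¬ Good (2 * m) (2 * (3 * m) ^ N) a p := by
  have h := gap m (2 * (3 * m) ^ (N - 1)) (by positivity) (pairs (3 * m) N L)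
    (by rw [pairs_length]; exact hlen)
    (fun a ha => by rw [cmul hN]; exact (pairs_range hm hN hL hK ha).1)
    (fun a ha => by rw [cmul hN]; exact (pairs_range hm hN hL hK ha).2)
  rw [cmul hN] at h
  exact h

theorem not_feas_of (hm : 4 ≤ m) (hodd : m % 2 = 1) (hN : 0 < N)
    (hL : ∀ e ∈ L, ∀ j ∈ e.1, 1 ≤ j ∧ j < N)
    (hK : ∀ e ∈ L, 8 * (e.1.length + e.2) + 8 ≤ 3 * m)
    (hlen : 2 * (1 + N + L.length) + 7 ≤ 2 * m) (w : ℕ → ℕ) (h0 : w 0 = 1) (hw : ∀ j, w j ≤ 1)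
    (he : ∀ e ∈ L, (e.1.map w).sum = e.2) : ¬ Feas (dvec m N L) (bnd m) := by
  rw [feas_dvec hm hN hL hK hlen]
  intro hcon
  obtain ⟨p, hp, hp1, Y, hD⟩ := exists_dig (Q := 3 * m) hm rfl hodd hN w h0 hw
  obtain ⟨a, ha, hbad⟩ := hcon p hp hp1
  apply hbad
  rcases (mem_pairs hL).1 ha with rfl | ⟨j, hj, rfl⟩ | ⟨e, hel, rfl⟩
  · exact parity_complete (by omega) (by omega) hD
  · exact dig_complete hm rfl rfl hD hj
  · refine eq_complete hm rfl rfl hN hD ?_ ?_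
    · rw [sum_cnt e.1 (hL e hel)]; exact hK e hel
    · have h1 := sum_lcount (N := N) w e.1 (hL e hel)
      rw [he e hel] at h1
      rw [h1]
      push_cast
      rfl

theorem exists_of_not_feas (hm : 4 ≤ m) (hN : 0 < N)
    (hL : ∀ e ∈ L, ∀ j ∈ e.1, 1 ≤ j ∧ j < N)
    (hK : ∀ e ∈ L, 8 * (e.1.length + e.2) + 8 ≤ 3 * m)
    (hlen : 2 * (1 + N + L.length) + 7 ≤ 2 * m) (h : ¬ Feas (dvec m N L) (bnd m)) :
    ∃ z : ℕ → ℤ, (∀ j < N, |z j| ≤ 1) ∧ ∀ e ∈ L, (e.1.map z).sum = (e.2 : ℤ) := by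
  rw [feas_dvec hm hN hL hK hlen] at h
  push Not at h
  obtain ⟨p, hp, hp1, hg⟩ := h
  obtain ⟨z, Y, hD⟩ := digits_sound (Q := 3 * m) hm rfl rfl hN hp1
    (hg _ ((mem_pairs hL).2 (Or.inl rfl)))
    (fun j _ hj => hg _ ((mem_pairs hL).2 (Or.inr (Or.inl ⟨j, hj, rfl⟩))))
  refine ⟨z, hD.hz, fun e he => ?_⟩
  rw [sum_lcount (N := N) z e.1 (hL e he)]
  exact eq_sound hm rfl rfl hN hD (by rw [sum_cnt e.1 (hL e he)]; exact hK e he)
    (hg _ ((mem_pairs hL).2 (Or.inr (Or.inr ⟨e, he, rfl⟩))))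

end Pool.Agent.BJ
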