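import Pool.Agent.BJ.CoNP
import Pool.Agent.BJ.SysIff

/-!
# The encoding is injective; positivity of the constructed instances
-/

namespace Pool.Agent.BJ

open Pool.Agent.Bx81

theorem encode_inj' {d d' : List ℕ} {B B' : ℚ} (hB : 0 ≤ B) (hB' : 0 ≤ B')
    (h : encode d B = encode d' B') : d = d' ∧ B = B' := by
  rw [encode_eq', encode_eq'] at h
  have h1 := congrArg dB h
  have h2 := congrArg uB h
  have h3 := congrArg vB h
  obtain ⟨a1, a2, a3⟩ := parts_unseg (d.map Nat.bits) (Nat.bits B.num.natAbs) (Nat.bits B.den)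
  obtain ⟨b1, b2, b3⟩ := parts_unseg (d'.map Nat.bits) (Nat.bits B'.num.natAbs) (Nat.bits B'.den)
  rw [a1, b1] at h1
  rw [a2, b2] at h2
  rw [a3, b3] at h3
  have hinj : Function.Injective Nat.bits := fun a b hab => by
    rw [← bval_bits a, ← bval_bits b, hab]
  refine ⟨hinj.list_map h1, ?_⟩
  have e1 := hinj h2
  have e2 := hinj h3
  apply Rat.ext
  · have c1 : ((B.num.natAbs : ℕ) : ℤ) = B.num := Int.natAbs_of_nonneg (Rat.num_nonneg.mpr hB)
    have c2 : ((B'.num.natAbs : ℕ) : ℤ) = B'.num := Int.natAbs_of_nonneg (Rat.num_nonneg.mpr hB')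
    omega
  · exact e2

theorem encode_mem' {d : List ℕ} {B : ℚ} (hd : d ≠ []) (hpos : ∀ a ∈ d, 0 < a) (hB : 0 ≤ B) :
    encode d B ∈ BJIT ↔ Feas d B := by
  constructor
  · rintro ⟨d', B', h1, h2, h3, h4, h5⟩
    obtain ⟨rfl, rfl⟩ := encode_inj' hB h3 h4
    exact h5
  · intro h
    exact ⟨d, B, hd, hpos, hB, rfl, h⟩

theorem bnd_nonneg (m : ℕ) : 0 ≤ bnd m := by unfold bnd; positivity

theorem dvec_ok {m N : ℕ} {L : Sys} (hm : 4 ≤ m) (hN : 0 < N)
    (hL : ∀ e ∈ L, ∀ j ∈ e.1, 1 ≤ j ∧ j < N)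
    (hK : ∀ e ∈ L, 8 * (e.1.length + e.2) + 8 ≤ 3 * m) :
    dvec m N L ≠ [] ∧ ∀ a ∈ dvec m N L, 0 < a := by
  have hQ : 0 < 3 * m := by omega
  have hR : 0 < (3 * m) ^ N := by positivity
  refine ⟨?_, ?_⟩
  · intro h
    have h1 := congrArg List.length h
    unfold dvec inst at h1
    simp only [List.length_append, List.length_replicate, List.length_nil, List.length_map] at h1
    omega
  · intro a ha
    unfold dvec inst at ha
    rw [cmul hN] at ha
    simp only [List.mem_append, List.mem_replicate, List.mem_map] at ha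
    rcases ha with ((⟨_, rfl⟩ | ⟨_, rfl⟩) | h) | ⟨b, hb, rfl⟩
    · omega
    · positivity
    · have := (pairs_range hm hN hL hK h).1
      omega
    · have := (pairs_range hm hN hL hK hb).2
      omega

end Pool.Agent.BJ
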