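import Pool.Agent.BJ.Defs
import Mathlib.Combinatorics.Hall.Basic
import Mathlib.Algebra.BigOperators.Fin
import Mathlib.Data.Fintype.BigOperators
import Mathlib.Algebra.Order.Field.Basic
import Mathlib.Tactic

/-!
# M1: the scheduling theorem (Hall for intervals)
-/

namespace Pool.Agent.BJ

open Finset

/-- largest number of letters with parameter `a` (a = d_i) allowed after `k` steps, `B = u/v`. -/
def hiF (u v D a k : ℕ) : ℕ := if k = 0 then 0 else (k * a * v + u * D) / (v * D)
/-- smallest number of letters required after `k` steps; everything after `D` steps. -/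
def loF (u v D a k : ℕ) : ℕ := if k = D then a else ((k * a * v - u * D) + v * D - 1) / (v * D)

/-- Hall's theorem for intervals of integers. -/
lemma interval_hall {ι : Type} [Fintype ι] [DecidableEq ι] (D : ℕ) (r s : ι → ℕ)
    (hrs : ∀ j, r j ≤ s j) (hs : ∀ j, s j < D)
    (h : ∀ x y, x ≤ y → y ≤ D → (univ.filter (fun j => x ≤ r j ∧ s j < y)).card ≤ y - x) :
    ∃ f : ι → ℕ, Function.Injective f ∧ ∀ j, r j ≤ f j ∧ f j ≤ s j := by
  have hall : ∀ A : Finset ι, A.card ≤ (A.biUnion (fun j => Icc (r j) (s j))).card := by
    intro A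
    set U := A.biUnion (fun j => Icc (r j) (s j)) with hU
    have hmem : ∀ j ∈ A, ∀ k, r j ≤ k → k ≤ s j → k ∈ U := fun j hj k h1 h2 =>
      mem_biUnion.mpr ⟨j, hj, mem_Icc.mpr ⟨h1, h2⟩⟩
    have key : ∀ y, y ≤ D → (A.filter (fun j => s j < y)).card ≤ (U.filter (fun k => k < y)).card := by
      intro y
      induction y using Nat.strong_induction_on with
      | _ y ih =>
      intro hy
      rcases Nat.eq_zero_or_pos y with h0 | hpos
      · subst h0; simp
      by_cases hyU : y - 1 ∈ U
      · -- minimal x
        have hex : ∃ x, ∀ k, x ≤ k → k < y → k ∈ U := ⟨y, fun k h1 h2 => absurd h2 (by omega)⟩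
        classical
        set x := Nat.find hex with hx
        have hx1 : ∀ k, x ≤ k → k < y → k ∈ U := Nat.find_spec hex
        have hxy : x ≤ y - 1 := Nat.find_min' hex (fun k h1 h2 => by
          have : k = y - 1 := by omega
          rw [this]; exact hyU)
        have hx2 : 0 < x → x - 1 ∉ U := by
          intro hxpos hcon
          have := Nat.find_min hex (m := x - 1) (by omega)
          apply this
          intro k h1 h2
          by_cases hk : k = x - 1
          · rw [hk]; exact hcon
          · exact hx1 k (by omega) h2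
        have hsub : A.filter (fun j => s j < y) ⊆
            (A.filter (fun j => s j < x)) ∪ (univ.filter (fun j => x ≤ r j ∧ s j < y)) := by
          intro j hj
          rw [mem_filter] at hj
          rw [mem_union, mem_filter, mem_filter]
          by_cases h1 : x ≤ r j
          · right; exact ⟨mem_univ _, h1, hj.2⟩
          · left
            refine ⟨hj.1, ?_⟩
            by_contra h2
            apply hx2 (by omega)
            exact hmem j hj.1 (x-1) (by omega) (by omega)
        have hcU : (U.filter (fun k => k < y)) = (U.filter (fun k => k < x)) ∪ Ico x y := by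
          ext k
          simp only [mem_filter, mem_union, mem_Ico]
          constructor
          · rintro ⟨h1, h2⟩
            by_cases h3 : k < x
            · left; exact ⟨h1, h3⟩
            · right; exact ⟨by omega, h2⟩
          · rintro (⟨h1, h2⟩ | ⟨h1, h2⟩)
            · exact ⟨h1, by omega⟩
            · exact ⟨hx1 k h1 h2, h2⟩
        have hdisj : Disjoint (U.filter (fun k => k < x)) (Ico x y) := by
          rw [disjoint_left]
          intro k h1 h2
          rw [mem_filter] at h1
          rw [mem_Ico] at h2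
          omega
        rw [hcU, card_union_of_disjoint hdisj, Nat.card_Ico]
        refine (card_le_card hsub).trans ((card_union_le _ _).trans ?_)
        have h1 := ih x (by omega) (by omega)
        have h2 := h x y (by omega) hy
        omega
      · have h1 : A.filter (fun j => s j < y) = A.filter (fun j => s j < y - 1) := by
          apply filter_congr
          intro j hj
          constructor
          · intro h2
            by_contra h3
            apply hyU
            have : y - 1 = s j := by omega
            rw [this]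
            exact hmem j hj _ (hrs j) le_rfl
          · intro h2; omega
        rw [h1]
        refine (ih (y-1) (by omega) (by omega)).trans ?_
        apply card_le_card
        intro k hk
        rw [mem_filter] at hk ⊢
        exact ⟨hk.1, by omega⟩
    have h1 := key D le_rfl
    have h2 : A.filter (fun j => s j < D) = A := filter_true_of_mem (fun j _ => hs j)
    rw [h2] at h1
    exact h1.trans (card_le_card (filter_subset _ _))
  obtain ⟨f, hf1, hf2⟩ := (Finset.all_card_le_biUnion_card_iff_exists_injective _).mp hall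
  exact ⟨f, hf1, fun j => mem_Icc.mp (hf2 j)⟩

lemma count_map_range (g : ℕ → ℕ) (i k : ℕ) :
    ((List.range k).map g).count i = ((Finset.range k).filter (fun t => g t = i)).card := by
  induction k with
  | zero => simp
  | succ k ih =>
    rw [List.range_succ, List.map_append, List.count_append, ih, Finset.range_add_one,
      Finset.filter_insert]
    by_cases h : g k = i
    · rw [if_pos h, Finset.card_insert_of_notMem (by simp)]
      simp [h]
    · rw [if_neg h]
      simp [h]

lemma sum_count (n : ℕ) (L : List ℕ) (hL : ∀ s ∈ L, s < n) :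
    ∑ i : Fin n, L.count (i : ℕ) = L.length := by
  induction L with
  | nil => simp
  | cons a L ih =>
    have ha : a < n := hL a (by simp)
    have h1 := ih (fun s hs => hL s (by simp [hs]))
    simp only [List.count_cons, List.length_cons]
    rw [Finset.sum_add_distrib, h1]
    congr 1
    rw [Finset.sum_eq_single (⟨a, ha⟩ : Fin n)]
    · simp
    · intro b _ hb
      rw [if_neg]
      intro hcon
      apply hb
      ext
      simp at hcon
      simp [hcon]
    · simp


section basic

variable {u v D a : ℕ}

lemma hiF_zero : hiF u v D a 0 = 0 := by simp [hiF]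

lemma le_hiF_iff (hv : 0 < v) (hD : 0 < D) {k c : ℕ} (hk : 1 ≤ k) :
    c ≤ hiF u v D a k ↔ c * (v * D) ≤ k * a * v + u * D := by
  rw [hiF, if_neg (by omega), Nat.le_div_iff_mul_le (Nat.mul_pos hv hD)]

lemma ceil_le_iff {N m c : ℕ} (hm : 0 < m) : (N + m - 1) / m ≤ c ↔ N ≤ c * m := by
  rw [← Nat.lt_succ_iff, Nat.div_lt_iff_lt_mul hm]
  have : (c.succ) * m = c * m + m := by rw [Nat.succ_mul]
  rw [this]
  omega

lemma loF_le_iff (hv : 0 < v) (hD : 0 < D) {k c : ℕ} (hk : k ≠ D) :
    loF u v D a k ≤ c ↔ k * a * v ≤ c * (v * D) + u * D := by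
  rw [loF, if_neg hk, ceil_le_iff (Nat.mul_pos hv hD)]
  omega

lemma loF_D : loF u v D a D = a := by simp [loF]

lemma hiF_mono (hv : 0 < v) (hD : 0 < D) {k l : ℕ} (hkl : k ≤ l) :
    hiF u v D a k ≤ hiF u v D a l := by
  rcases Nat.eq_zero_or_pos k with h0 | hk
  · subst h0; rw [hiF_zero]; exact Nat.zero_le _
  · rw [le_hiF_iff hv hD (by omega)]
    refine ((le_hiF_iff hv hD hk).mp le_rfl).trans ?_
    have : k * a * v ≤ l * a * v := by gcongr
    omega

lemma loF_le (hv : 0 < v) (hD : 0 < D) {k : ℕ} (hk : k ≤ D) : loF u v D a k ≤ a := by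
  by_cases h : k = D
  · rw [h, loF_D]
  · rw [loF_le_iff hv hD h]
    have : k * a * v ≤ D * a * v := by gcongr
    calc k * a * v ≤ D * a * v := this
      _ = a * (v * D) := by ring
      _ ≤ _ := Nat.le_add_right _ _

lemma loF_mono (hv : 0 < v) (hD : 0 < D) {k l : ℕ} (hkl : k ≤ l) (hl : l ≤ D) :
    loF u v D a k ≤ loF u v D a l := by
  by_cases h : l = D
  · rw [h, loF_D]; exact loF_le hv hD (by omega)
  · rw [loF_le_iff hv hD (by omega)]
    refine le_trans ?_ ((loF_le_iff hv hD h).mp le_rfl)
    gcongr

lemma loF_zero (hv : 0 < v) (hD : 0 < D) : loF u v D a 0 = 0 := by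
  have : loF u v D a 0 ≤ 0 := by
    rw [loF_le_iff hv hD (by omega)]; simp
  omega

lemma le_hiF_D (hv : 0 < v) (hD : 0 < D) : a ≤ hiF u v D a D := by
  rw [le_hiF_iff hv hD hD]
  have : a * (v * D) = D * a * v := by ring
  omega

lemma dev_iff (hv : 0 < v) (hD : 0 < D) {k c : ℕ} :
    |(c : ℚ) - (k : ℚ) * ((a : ℚ) / (D : ℚ))| ≤ (u : ℚ) / v ↔
      c * (v * D) ≤ k * a * v + u * D ∧ k * a * v ≤ c * (v * D) + u * D := by
  have hv' : (0 : ℚ) < v := by exact_mod_cast hv
  have hD' : (0 : ℚ) < D := by exact_mod_cast hD
  have e1 : (c : ℚ) - (k : ℚ) * ((a : ℚ) / (D : ℚ)) = (c * (v * D) - k * a * v) / (v * D) := by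
    field_simp
  have e2 : (u : ℚ) / v = (u * D) / (v * D) := by field_simp
  rw [e1, e2, abs_div, abs_of_pos (mul_pos hv' hD'), div_le_div_iff_of_pos_right (mul_pos hv' hD'),
    abs_le]
  constructor
  · rintro ⟨h1, h2⟩
    constructor
    · have : (c : ℚ) * (v * D) ≤ k * a * v + u * D := by linarith
      exact_mod_cast this
    · have : (k : ℚ) * a * v ≤ c * (v * D) + u * D := by linarith
      exact_mod_cast this
  · rintro ⟨h1, h2⟩
    have h1' : (c : ℚ) * (v * D) ≤ k * a * v + u * D := by exact_mod_cast h1
    have h2' : (k : ℚ) * a * v ≤ c * (v * D) + u * D := by exact_mod_cast h2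
    constructor <;> linarith

end basic

theorem feas_iff (d : List ℕ) (hd : d ≠ []) (hpos : ∀ a ∈ d, 0 < a) (B : ℚ) (hB : 0 ≤ B)
    (u v : ℕ) (hv : 0 < v) (hBuv : B = (u : ℚ) / v) :
    Feas d B ↔ ∀ x y, x ≤ y → y ≤ d.sum →
      (d.map fun a => loF u v d.sum a y - hiF u v d.sum a x).sum ≤ y - x := by
  have hD : 0 < d.sum := by
    obtain ⟨a, l, rfl⟩ := List.exists_cons_of_ne_nil hd
    have := hpos a (by simp)
    simp only [List.sum_cons]; omega
  have hsumD : ∑ i : Fin d.length, d[(i : ℕ)] = d.sum := by
    simp
  constructor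
  · rintro ⟨S, ⟨hS1, hS2⟩, hS3⟩ x y hxy hy
    have hlen : S.length = d.sum := by
      rw [← sum_count d.length S hS1, ← hsumD]
      exact Finset.sum_congr rfl (fun i _ => hS2 i i.2)
    have hle : ∀ i : Fin d.length, loF u v d.sum d[(i : ℕ)] y - hiF u v d.sum d[(i : ℕ)] x ≤
        (S.take y).count (i : ℕ) - (S.take x).count (i : ℕ) := by
      intro i
      have h1 : loF u v d.sum d[(i : ℕ)] y ≤ (S.take y).count (i : ℕ) := by
        by_cases hyD : y = d.sum
        · rw [hyD, loF_D, List.take_of_length_le (by omega), hS2 i i.2]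
        · rcases Nat.eq_zero_or_pos y with h0 | hy0
          · rw [h0, loF_zero hv hD]; exact Nat.zero_le _
          · rw [loF_le_iff hv hD hyD]
            have := hS3 i i.2 y hy0 hy
            rw [hBuv, dev_iff hv hD] at this
            exact this.2
      have h2 : (S.take x).count (i : ℕ) ≤ hiF u v d.sum d[(i : ℕ)] x := by
        rcases Nat.eq_zero_or_pos x with h0 | hx0
        · rw [h0]; simp
        · rw [le_hiF_iff hv hD hx0]
          have := hS3 i i.2 x hx0 (by omega)
          rw [hBuv, dev_iff hv hD] at this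
          exact this.1
      omega
    have hmono : ∀ i : ℕ, (S.take x).count i ≤ (S.take y).count i := by
      intro i
      apply List.Sublist.count_le
      exact (List.take_prefix_take_left hxy).sublist
    have e1 : (d.map fun a => loF u v d.sum a y - hiF u v d.sum a x).sum =
        ∑ i : Fin d.length, (loF u v d.sum d[(i : ℕ)] y - hiF u v d.sum d[(i : ℕ)] x) := by
      rw [← Fin.sum_univ_fun_getElem d (fun a => loF u v d.sum a y - hiF u v d.sum a x)]
    rw [e1]
    refine (Finset.sum_le_sum (fun i _ => hle i)).trans ?_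
    have e2 : ∑ i : Fin d.length, ((S.take y).count (i : ℕ) - (S.take x).count (i : ℕ)) +
        ∑ i : Fin d.length, (S.take x).count (i : ℕ) = ∑ i : Fin d.length, (S.take y).count (i : ℕ) := by
      rw [← Finset.sum_add_distrib]
      exact Finset.sum_congr rfl (fun i _ => Nat.sub_add_cancel (hmono i))
    rw [sum_count d.length (S.take y) (fun s hs => hS1 s (List.mem_of_mem_take hs)),
      sum_count d.length (S.take x) (fun s hs => hS1 s (List.mem_of_mem_take hs)),
      List.length_take, List.length_take, hlen] at e2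
    omega
  · intro H
    set D := d.sum with hDdef
    have hlohi : ∀ k ≤ D, ∀ i : Fin d.length, loF u v D d[(i : ℕ)] k ≤ hiF u v D d[(i : ℕ)] k := by
      intro k hk i
      have h1 := H k k le_rfl hk
      rw [Nat.sub_self, Nat.le_zero, List.sum_eq_zero_iff] at h1
      have := h1 (loF u v D d[(i : ℕ)] k - hiF u v D d[(i : ℕ)] k)
        (List.mem_map.mpr ⟨d[(i : ℕ)], List.getElem_mem _, rfl⟩)
      omega
    let ι := Σ i : Fin d.length, Fin d[(i : ℕ)]
    classical
    have hrex : ∀ p : ι, ∃ k, (p.2 : ℕ) < hiF u v D d[(p.1 : ℕ)] (k + 1) := by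
      intro p
      refine ⟨D - 1, ?_⟩
      rw [Nat.sub_add_cancel hD]
      exact lt_of_lt_of_le p.2.2 (le_hiF_D hv hD)
    let r : ι → ℕ := fun p => Nat.find (hrex p)
    let s : ι → ℕ := fun p => Nat.findGreatest (fun k => loF u v D d[(p.1 : ℕ)] k ≤ (p.2 : ℕ)) (D - 1)
    have hr1 : ∀ p : ι, (p.2 : ℕ) < hiF u v D d[(p.1 : ℕ)] (r p + 1) := fun p => Nat.find_spec (hrex p)
    have hr2 : ∀ p : ι, ∀ x ≤ r p, hiF u v D d[(p.1 : ℕ)] x ≤ (p.2 : ℕ) := by
      intro p x hx
      rcases Nat.eq_zero_or_pos x with h0 | hx0
      · rw [h0, hiF_zero]; exact Nat.zero_le _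
      · have := Nat.find_min (hrex p) (m := x - 1) (by change x - 1 < r p; omega)
        rw [Nat.sub_add_cancel hx0] at this
        omega
    have hrD : ∀ p : ι, r p ≤ D - 1 := by
      intro p
      apply Nat.find_min'
      rw [Nat.sub_add_cancel hD]
      exact lt_of_lt_of_le p.2.2 (le_hiF_D hv hD)
    have hs1 : ∀ p : ι, loF u v D d[(p.1 : ℕ)] (s p) ≤ (p.2 : ℕ) := by
      intro p
      have := Nat.findGreatest_spec (P := fun k => loF u v D d[(p.1 : ℕ)] k ≤ (p.2 : ℕ)) (m := 0)
        (n := D - 1) (Nat.zero_le _) (by rw [loF_zero hv hD]; exact Nat.zero_le _)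
      exact this
    have hs2 : ∀ p : ι, ∀ y ≤ D, s p < y → (p.2 : ℕ) < loF u v D d[(p.1 : ℕ)] y := by
      intro p y hy hsy
      by_cases hyD : y = D
      · rw [hyD, loF_D]; exact p.2.2
      · have := Nat.findGreatest_is_greatest (P := fun k => loF u v D d[(p.1 : ℕ)] k ≤ (p.2 : ℕ))
          (n := D - 1) hsy (by omega)
        omega
    have hsD : ∀ p : ι, s p < D := by
      intro p
      have : s p ≤ D - 1 := Nat.findGreatest_le _
      omega
    have hrs : ∀ p : ι, r p ≤ s p := by
      intro p
      apply Nat.le_findGreatest (hrD p)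
      exact (hlohi (r p) (by have := hrD p; omega) p.1).trans (hr2 p _ le_rfl)
    have hcond : ∀ x y, x ≤ y → y ≤ D →
        (univ.filter (fun p : ι => x ≤ r p ∧ s p < y)).card ≤ y - x := by
      intro x y hxy hy
      refine le_trans ?_ (H x y hxy hy)
      have e1 : (d.map fun a => loF u v D a y - hiF u v D a x).sum =
          ∑ i : Fin d.length, (loF u v D d[(i : ℕ)] y - hiF u v D d[(i : ℕ)] x) := by
        rw [← Fin.sum_univ_fun_getElem d (fun a => loF u v D a y - hiF u v D a x)]
      rw [e1]
      have hsub : (univ.filter (fun p : ι => x ≤ r p ∧ s p < y)) ⊆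
          (univ : Finset (Fin d.length)).sigma (fun i => univ.filter (fun j : Fin d[(i : ℕ)] =>
            hiF u v D d[(i : ℕ)] x ≤ (j : ℕ) ∧ (j : ℕ) < loF u v D d[(i : ℕ)] y)) := by
        intro p hp
        rw [mem_filter] at hp
        rw [mem_sigma, mem_filter]
        exact ⟨mem_univ _, mem_univ _, hr2 p x hp.2.1, hs2 p y hy hp.2.2⟩
      refine (card_le_card hsub).trans ?_
      rw [card_sigma]
      apply Finset.sum_le_sum
      intro i _
      rw [← Nat.card_Ico]
      apply Finset.card_le_card_of_injOn (fun j : Fin d[(i : ℕ)] => (j : ℕ))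
      · intro j hj
        rw [Finset.mem_coe, mem_filter] at hj
        rw [Finset.mem_coe, mem_Ico]
        exact hj.2
      · intro j _ j' _ h
        exact Fin.ext h
    obtain ⟨f, hf1, hf2⟩ := interval_hall D r s hrs hsD hcond
    have hfD : ∀ p, f p < D := fun p => lt_of_le_of_lt (hf2 p).2 (hsD p)
    let F : ι → Fin D := fun p => ⟨f p, hfD p⟩
    have hFinj : Function.Injective F := by
      intro p q hpq
      apply hf1
      exact congrArg Fin.val hpq
    have hcard : Fintype.card ι = Fintype.card (Fin D) := by
      simp only [ι, Fintype.card_sigma, Fintype.card_fin]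
      exact hsumD
    have hFbij : Function.Bijective F := (Fintype.bijective_iff_injective_and_card F).mpr ⟨hFinj, hcard⟩
    let e : ι ≃ Fin D := Equiv.ofBijective F hFbij
    let g : ℕ → ℕ := fun t => if h : t < D then ((e.symm ⟨t, h⟩).1 : ℕ) else 0
    have hg : ∀ p : ι, g (f p) = (p.1 : ℕ) := by
      intro p
      have h1 : e.symm ⟨f p, hfD p⟩ = p := by
        rw [Equiv.symm_apply_eq]
        rfl
      simp only [g, hfD p, dif_pos, h1]
    have hcount : ∀ (i : ℕ) (hi : i < d.length) (k : ℕ), k ≤ D →
        (((List.range D).map g).take k).count i =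
          ((univ : Finset (Fin d[i])).filter (fun j => f (⟨⟨i, hi⟩, j⟩ : ι) < k)).card := by
      intro i hi k hk
      rw [← List.map_take, List.take_range, Nat.min_eq_left hk, count_map_range]
      symm
      apply Finset.card_bij (fun j _ => f (⟨⟨i, hi⟩, j⟩ : ι))
      · intro j hj
        rw [mem_filter] at hj
        rw [mem_filter, mem_range]
        exact ⟨hj.2, hg _⟩
      · intro j _ j' _ h
        have := hf1 h
        exact eq_of_heq (Sigma.mk.inj this).2
      · intro t ht
        rw [mem_filter, mem_range] at ht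
        obtain ⟨p, hp⟩ := hFbij.2 ⟨t, by omega⟩
        have hpt : f p = t := congrArg Fin.val hp
        have h1 := hg p
        rw [hpt, ht.2] at h1
        obtain ⟨⟨i', hi'⟩, j'⟩ := p
        simp only at h1
        subst h1
        exact ⟨j', by rw [mem_filter]; exact ⟨mem_univ _, by rw [hpt]; exact ht.1⟩, hpt⟩
    refine ⟨(List.range D).map g, ⟨?_, ?_⟩, ?_⟩
    · intro t ht
      rw [List.mem_map] at ht
      obtain ⟨t', ht', rfl⟩ := ht
      rw [List.mem_range] at ht'
      simp only [g, ht', dif_pos]
      exact Fin.is_lt _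
    · intro i hi
      have := hcount i hi D le_rfl
      rw [List.take_of_length_le (by simp)] at this
      rw [this, filter_true_of_mem (fun j _ => hfD _)]
      simp
    · intro i hi k hk1 hk
      rw [hBuv, dev_iff hv hD, hcount i hi k hk]
      constructor
      · rw [← le_hiF_iff hv hD hk1]
        have e4 : hiF u v D d[i] k = (Finset.Ico 0 (hiF u v D d[i] k)).card := by simp
        rw [e4]
        apply Finset.card_le_card_of_injOn (fun j : Fin d[i] => (j : ℕ))
        · intro j hj
          rw [Finset.mem_coe, mem_filter] at hj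
          rw [Finset.mem_coe, mem_Ico]
          refine ⟨Nat.zero_le _, ?_⟩
          have h1 := hr1 (⟨⟨i, hi⟩, j⟩ : ι)
          have h2 := (hf2 (⟨⟨i, hi⟩, j⟩ : ι)).1
          have h3 := hj.2
          exact lt_of_lt_of_le h1 (hiF_mono hv hD (by omega))
        · intro j _ j' _ h
          exact Fin.ext h
      · have hlow : loF u v D d[i] k ≤
            ((univ : Finset (Fin d[i])).filter (fun j => f (⟨⟨i, hi⟩, j⟩ : ι) < k)).card := by
          have hla : loF u v D d[i] k ≤ d[i] := loF_le hv hD hk
          have e3 : loF u v D d[i] k = ((univ : Finset (Fin (loF u v D d[i] k)))).card := by simp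
          rw [e3]
          apply Finset.card_le_card_of_injOn (fun j => Fin.castLE hla j)
          · intro j _
            rw [Finset.mem_coe, mem_filter]
            refine ⟨mem_univ _, ?_⟩
            have h2 := (hf2 (⟨⟨i, hi⟩, Fin.castLE hla j⟩ : ι)).2
            refine lt_of_le_of_lt h2 ?_
            by_contra hcon
            push Not at hcon
            have h3 := hs1 (⟨⟨i, hi⟩, Fin.castLE hla j⟩ : ι)
            have h4 := loF_mono (u := u) (a := d[i]) hv hD hcon (hsD _).le
            have h5 : loF u v D d[i] k ≤ (j : ℕ) := h4.trans h3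
            exact absurd j.2 (by omega)
          · intro j _ j' _ h
            exact Fin.castLE_injective hla h
        by_cases hkD : k = D
        · rw [hkD, loF_D] at hlow
          rw [hkD]
          calc D * d[i] * v = d[i] * (v * D) := by ring
            _ ≤ _ := by
              refine le_trans ?_ (Nat.le_add_right _ _)
              gcongr
        · exact (loF_le_iff hv hD hkD).mp hlow

end Pool.Agent.BJ
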