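import Pool.Agent.BJ.GapB
import Pool.Agent.BJ.Sched

/-!
# The gap lemma
-/

namespace Pool.Agent.BJ

/-- The constructed instance. -/
def inst (m c : ℕ) (ds : List ℕ) : List ℕ :=
  List.replicate (2 * m - ds.length - 1) (c * (3 * m)) ++ List.replicate (3 * m) c ++
    ds ++ ds.map (fun a => c * (3 * m) - a)

theorem hiF_eq {M R a k : ℕ} (hM : 0 < M) (hR : 0 < R) :
    hiF (M - 1) M (M * R) a k = hi' R (M * R) a k := by
  have hD : 0 < M * R := Nat.mul_pos hM hR
  have hRD : R ≤ M * R := Nat.le_mul_of_pos_left _ hM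
  unfold hiF hi'
  split
  · rename_i h
    rw [h, Nat.mul_zero, Nat.zero_add, Nat.div_eq_of_lt (by omega)]
  · have e1 : k * a * M + (M - 1) * (M * R) = M * (a * k + (M * R - R)) := by
      have : M * R - R = (M - 1) * R := by rw [Nat.sub_mul, Nat.one_mul]
      rw [this]; ring
    rw [e1, Nat.mul_div_mul_left _ _ hM]

theorem loF_eq {M R a k : ℕ} (hM : 0 < M) (hR : 0 < R) :
    loF (M - 1) M (M * R) a k = lo' R (M * R) a k := by
  have hD : 0 < M * R := Nat.mul_pos hM hR
  have hRD : R ≤ M * R := Nat.le_mul_of_pos_left _ hM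
  unfold loF lo'
  split
  · rename_i h
    rw [h, Nat.mul_comm a, Nat.mul_add_div hD, Nat.div_eq_of_lt (by omega), Nat.add_zero]
  · have e2 : M * R - R = (M - 1) * R := by rw [Nat.sub_mul, Nat.one_mul]
    have e1 : k * a * M - (M - 1) * (M * R) = M * (a * k - (M * R - R)) := by
      rw [e2, Nat.mul_sub]
      congr 1 <;> ring
    rw [e1]
    have e3 : M * (a * k - (M * R - R)) + M * (M * R) - 1 =
        M * ((a * k - (M * R - R)) + (M * R - 1)) + (M - 1) := by
      obtain ⟨D, hD'⟩ : ∃ D, M * R = D + 1 := ⟨M * R - 1, by omega⟩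
      rw [hD', Nat.add_sub_cancel]
      have : M * (a * k - (D + 1 - R)) + M * (D + 1) =
        M * ((a * k - (D + 1 - R)) + D) + M := by ring
      omega
    rw [e3, ← Nat.div_div_eq_div_mul, Nat.mul_add_div hM, Nat.div_eq_of_lt (by omega : M - 1 < M),
      Nat.add_zero]
    by_cases h : M * R - R ≤ a * k
    · congr 1
      omega
    · rw [Nat.div_eq_of_lt (by omega), Nat.div_eq_of_lt (by omega)]

theorem sum_inst (m c : ℕ) (ds : List ℕ) (f : ℕ → ℕ) :
    ((inst m c ds).map f).sum = (2 * m - ds.length - 1) * f (c * (3 * m)) + (3 * m) * f c +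
      (ds.map fun a => f a + f (c * (3 * m) - a)).sum := by
  unfold inst
  simp only [List.map_append, List.map_replicate, List.sum_append, List.sum_replicate,
    smul_eq_mul, List.map_map]
  have : (ds.map fun a => f a + f (c * (3 * m) - a)).sum =
      (ds.map f).sum + (ds.map (f ∘ fun a => c * (3 * m) - a)).sum := by
    induction ds with
    | nil => simp
    | cons a l ih =>
      simp only [List.map_cons, List.sum_cons, Function.comp] at ih ⊢
      rw [ih]; ring
  rw [this]; ring

theorem sum_inst' {m c : ℕ} {ds : List ℕ} (hm : 2 * ds.length + 7 ≤ 2 * m)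
    (h2 : ∀ a ∈ ds, a ≤ c * (3 * m)) :
    (inst m c ds).sum = 2 * m * (c * (3 * m)) := by
  have h := sum_inst m c ds (fun a => a)
  simp only [List.map_id'] at h
  rw [h]
  have h3 : (ds.map fun a => a + (c * (3 * m) - a)).sum = ds.length * (c * (3 * m)) := by
    rw [List.map_congr_left (g := fun _ => c * (3 * m)) fun a ha => by
      have := h2 a ha; omega]
    simp
  rw [h3]
  have h4 : 2 * m = (2 * m - ds.length - 1) + ds.length + 1 := by omega
  calc _ = ((2 * m - ds.length - 1) + ds.length + 1) * (c * (3 * m)) := by ring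
    _ = _ := by rw [← h4]

theorem sum_sub_add (l : List ℕ) (f : ℕ → ℕ) : l.sum ≤ (l.map fun a => a - f a).sum +
    (l.map f).sum := by
  induction l with
  | nil => simp
  | cons a l ih =>
    simp only [List.map_cons, List.sum_cons]
    omega

theorem gap (m c : ℕ) (hc : 0 < c) (ds : List ℕ) (hm : 2 * ds.length + 7 ≤ 2 * m)
    (h1 : ∀ a ∈ ds, c * (3 * m) ≤ 4 * a) (h2 : ∀ a ∈ ds, 4 * a ≤ 3 * (c * (3 * m))) :
    Feas (inst m c ds) (((2 * m - 1 : ℕ) : ℚ) / (2 * m : ℕ)) ↔
      ∀ p ≤ c * (3 * m), p % (3 * m) = 1 → ∃ a ∈ ds, ¬ Good (2 * m) (c * (3 * m)) a p := by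
  obtain ⟨M, hM⟩ : ∃ M, M = 2 * m := ⟨_, rfl⟩
  obtain ⟨Q, hQ⟩ : ∃ Q, Q = 3 * m := ⟨_, rfl⟩
  obtain ⟨R, hR⟩ : ∃ R, R = c * Q := ⟨_, rfl⟩
  have hM0 : 0 < M := by omega
  have hQ0 : 0 < Q := by omega
  have hR0 : 0 < R := by rw [hR]; exact Nat.mul_pos hc hQ0
  have hR' : c * (3 * m) = R := by rw [hR, hQ]
  have hsum : (inst m c ds).sum = M * R := by
    rw [sum_inst' hm fun a ha => by have := h2 a ha; omega, hR', hM]
  have hne : inst m c ds ≠ [] := by
    intro h
    rw [h] at hsum
    simp only [List.sum_nil] at hsum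
    have := Nat.mul_pos hM0 hR0
    omega
  have hpos : ∀ a ∈ inst m c ds, 0 < a := by
    intro a ha
    simp only [inst, List.mem_append, List.mem_replicate, List.mem_map] at ha
    rcases ha with ((⟨_, rfl⟩ | ⟨_, rfl⟩) | ha) | ⟨b, hb, rfl⟩
    · rw [hR']; exact hR0
    · exact hc
    · have := h1 a ha; omega
    · have := h2 b hb; omega
  rw [hR', ← hQ, ← hM]
  rw [feas_iff (inst m c ds) hne hpos _ (by positivity) (M - 1) M hM0 rfl, hsum]
  have hf : ∀ x y, ((inst m c ds).map fun a => loF (M - 1) M (M * R) a y -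
      hiF (M - 1) M (M * R) a x).sum =
      (M - ds.length - 1) * (lo' R (M * R) R y - hi' R (M * R) R x) +
      Q * (lo' R (M * R) c y - hi' R (M * R) c x) +
      (ds.map fun a => (lo' R (M * R) a y - hi' R (M * R) a x) +
        (lo' R (M * R) (R - a) y - hi' R (M * R) (R - a) x)).sum := by
    intro x y
    simp only [hiF_eq hM0 hR0, loF_eq hM0 hR0]
    rw [sum_inst, hR', ← hQ, ← hM]
  rw [hR'] at h1 h2
  constructor
  · intro h p hpR hpQ
    by_contra hcon
    push Not at hcon
    have hx : M * p ≤ M * R := Nat.mul_le_mul_left _ hpR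
    have h3 := h (M * p) (M * R) hx le_rfl
    have h4 : ∀ a ∈ inst m c ds, loF (M - 1) M (M * R) a (M * R) -
      hiF (M - 1) M (M * R) a (M * p) = a - hi' R (M * R) a (M * p) := by
      intro a _
      rw [hiF_eq hM0 hR0]
      congr 1
      unfold loF
      rw [if_pos rfl]
    rw [List.map_congr_left h4] at h3
    have h5 := sum_sub_add (inst m c ds) (fun a => hi' R (M * R) a (M * p))
    have h5' := sum_inst m c ds (fun a => hi' R (M * R) a (M * p))
    rw [hR', ← hQ, ← hM, hi'_pad hM0 hR0] at h5'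
    rw [hsum] at h5
    have h6 : (M * p + (M - 1)) / M = p := by
      rw [Nat.mul_add_div hM0, Nat.div_eq_of_lt (by omega), Nat.add_zero]
    have h7 : (ds.map fun a => hi' R (M * R) a (M * p) + hi' R (M * R) (R - a) (M * p)).sum ≤
        ds.length * p := by
      refine sum_map_le _ _ _ fun a ha => ?_
      exact hi_sum_good hM0 hR0 (by have := h2 a ha; omega) (hcon a ha)
    have e1 := Nat.div_add_mod p Q
    rw [hpQ] at e1
    have h8 : hi' R (M * R) c (M * p) = p / Q := by
      rw [hR, hi'_fill hc hM0]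
      have e2 : M * p + (M * Q - Q) = M * Q * (p / Q) + (M + (M * Q - Q)) := by
        have : M * p = M * Q * (p / Q) + M := by
          calc M * p = M * (Q * (p / Q) + 1) := by rw [e1]
            _ = _ := by ring
        omega
      have hQMQ : Q ≤ M * Q := Nat.le_mul_of_pos_left _ hM0
      have hMQ2 : M + (M * Q - Q) < M * Q := by omega
      rw [e2, Nat.mul_add_div (Nat.mul_pos hM0 hQ0), Nat.div_eq_of_lt hMQ2, Nat.add_zero]
    rw [h6, h8] at h5'
    have h10 : M * (R - p) = M * R - M * p := Nat.mul_sub _ _ _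
    have h9 : (M - ds.length - 1) * p + ds.length * p + p = M * p := by
      have : M = (M - ds.length - 1) + ds.length + 1 := by omega
      calc _ = ((M - ds.length - 1) + ds.length + 1) * p := by ring
        _ = M * p := by rw [← this]
    omega
  · intro hbad x y hxy hy
    rw [hf]
    exact gap_hall hc (by omega) hM hQ hR h1 h2 hbad hxy hy

end Pool.Agent.BJ
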