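import Mathlib.Tactic

/-!
# The gap lemma: arithmetic of the allowed and required numbers
-/

namespace Pool.Agent.BJ

/-- required number after `y` steps (bound `1 - R / D`) -/
def lo' (R D a y : ℕ) : ℕ := (a * y + (R - 1)) / D
/-- allowed number after `x` steps -/
def hi' (R D a x : ℕ) : ℕ := (a * x + (D - R)) / D

section

variable {M R D a b x y : ℕ}

theorem lo'_le (_hD : 0 < D) : D * lo' R D a y ≤ a * y + (R - 1) := by
  unfold lo'; exact Nat.mul_div_le _ _

theorem lt_lo' (hD : 0 < D) : a * y + (R - 1) < D * lo' R D a y + D := by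
  unfold lo'
  have := Nat.lt_mul_div_succ (a * y + (R - 1)) hD
  rw [Nat.mul_add, Nat.mul_one] at this
  exact this

theorem hi'_le (_hD : 0 < D) : D * hi' R D a x ≤ a * x + (D - R) := by
  unfold hi'; exact Nat.mul_div_le _ _

theorem lt_hi' (hD : 0 < D) : a * x + (D - R) < D * hi' R D a x + D := by
  unfold hi'
  have := Nat.lt_mul_div_succ (a * x + (D - R)) hD
  rw [Nat.mul_add, Nat.mul_one] at this
  exact this

theorem lo'_pad (_hM : 0 < M) (hR : 0 < R) : lo' R (M * R) R y = y / M := by
  unfold lo'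
  rw [Nat.mul_comm M R, ← Nat.div_div_eq_div_mul]
  congr 1
  rw [Nat.mul_add_div hR, Nat.div_eq_of_lt (by omega), Nat.add_zero]

theorem hi'_pad (hM : 0 < M) (hR : 0 < R) : hi' R (M * R) R x = (x + (M - 1)) / M := by
  unfold hi'
  have h : R * x + (M * R - R) = R * (x + (M - 1)) := by
    obtain ⟨M, rfl⟩ : ∃ k, M = k + 1 := ⟨M - 1, by omega⟩
    simp only [Nat.add_sub_cancel]
    have : (M + 1) * R - R = M * R := by rw [Nat.add_mul]; omega
    rw [this]; ring
  rw [h, Nat.mul_comm M R, Nat.mul_div_mul_left _ _ hR]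

theorem lo'_fill {c Q : ℕ} (hc : 0 < c) (hQ : 0 < Q) :
    lo' (c * Q) (M * (c * Q)) c y = (y + (Q - 1)) / (M * Q) := by
  unfold lo'
  have h1 : M * (c * Q) = c * (M * Q) := by ring
  rw [h1, ← Nat.div_div_eq_div_mul]
  congr 1
  have h2 : c * y + (c * Q - 1) = c * (y + (Q - 1)) + (c - 1) := by
    obtain ⟨Q, rfl⟩ : ∃ k, Q = k + 1 := ⟨Q - 1, by omega⟩
    simp only [Nat.add_sub_cancel]
    have : c * (Q + 1) = c * Q + c := by ring
    rw [this, Nat.mul_add]
    omega
  rw [h2, Nat.mul_add_div hc, Nat.div_eq_of_lt (by omega), Nat.add_zero]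

theorem hi'_fill {c Q : ℕ} (hc : 0 < c) (hM : 0 < M) :
    hi' (c * Q) (M * (c * Q)) c x = (x + (M * Q - Q)) / (M * Q) := by
  unfold hi'
  have h1 : M * (c * Q) = c * (M * Q) := by ring
  have h2 : c * x + (M * (c * Q) - c * Q) = c * (x + (M * Q - Q)) := by
    rw [Nat.mul_add, Nat.mul_sub, h1]
  rw [h2, h1, Nat.mul_div_mul_left _ _ hc]

/-- sum of the required numbers of a pair -/
theorem lo_sum_le (hM : 0 < M) (hR : 0 < R) (hab : a + b = R) :
    M * (lo' R (M * R) a y + lo' R (M * R) b y) ≤ y + 1 := by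
  have hD : 0 < M * R := Nat.mul_pos hM hR
  have h1 := lo'_le (R := R) (a := a) (y := y) hD
  have h2 := lo'_le (R := R) (a := b) (y := y) hD
  have h3 : a * y + b * y = R * y := by rw [← Nat.add_mul, hab]
  by_contra hcon
  push Not at hcon
  have h4 : R * (y + 2) ≤ R * (M * (lo' R (M * R) a y + lo' R (M * R) b y)) :=
    Nat.mul_le_mul_left _ (by omega)
  have h5 : R * (M * (lo' R (M * R) a y + lo' R (M * R) b y)) =
    M * R * lo' R (M * R) a y + M * R * lo' R (M * R) b y := by ring
  have h6 : R * (y + 2) = R * y + 2 * R := by ring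
  omega

theorem hi_sum_ge (hM : 0 < M) (hR : 0 < R) (hab : a + b = R) :
    x ≤ M * (hi' R (M * R) a x + hi' R (M * R) b x) + 1 := by
  have hD : 0 < M * R := Nat.mul_pos hM hR
  have hRD : R ≤ M * R := Nat.le_mul_of_pos_left _ hM
  have h1 := lt_hi' (R := R) (a := a) (x := x) hD
  have h2 := lt_hi' (R := R) (a := b) (x := x) hD
  have h3 : a * x + b * x = R * x := by rw [← Nat.add_mul, hab]
  by_contra hcon
  push Not at hcon
  have h4 : R * (M * (hi' R (M * R) a x + hi' R (M * R) b x) + 2) ≤ R * x :=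
    Nat.mul_le_mul_left _ (by omega)
  have h5 : R * (M * (hi' R (M * R) a x + hi' R (M * R) b x) + 2) =
    M * R * hi' R (M * R) a x + M * R * hi' R (M * R) b x + 2 * R := by ring
  omega

/-- crude bound for one item -/
theorem forced_item (hM : 0 < M) (hR : 0 < R) (hxy : x ≤ y) (h : hi' R (M * R) a x ≤ lo' R (M * R) a y) :
    M * R * (lo' R (M * R) a y - hi' R (M * R) a x) + 2 ≤ a * (y - x) + 2 * R := by
  have hD : 0 < M * R := Nat.mul_pos hM hR
  have hRD : R ≤ M * R := Nat.le_mul_of_pos_left _ hM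
  have h1 := lo'_le (R := R) (a := a) (y := y) hD
  have h2 := lt_hi' (R := R) (a := a) (x := x) hD
  have h3 : M * R * (lo' R (M * R) a y - hi' R (M * R) a x) =
    M * R * lo' R (M * R) a y - M * R * hi' R (M * R) a x := Nat.mul_sub _ _ _
  have h4 : M * R * hi' R (M * R) a x ≤ M * R * lo' R (M * R) a y := Nat.mul_le_mul_left _ h
  have h5 : a * (y - x) = a * y - a * x := Nat.mul_sub _ _ _
  have h6 : a * x ≤ a * y := Nat.mul_le_mul_left _ hxy
  omega

/-- crude bound for a pair -/
theorem forced_pair (hM : 0 < M) (hR : 0 < R) (hab : a + b = R) (hxy : x ≤ y) :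
    M * ((lo' R (M * R) a y - hi' R (M * R) a x) + (lo' R (M * R) b y - hi' R (M * R) b x)) ≤
      (y - x) + 3 := by
  have hD : 0 < M * R := Nat.mul_pos hM hR
  set P := lo' R (M * R) a y - hi' R (M * R) a x with hP
  set P' := lo' R (M * R) b y - hi' R (M * R) b x with hP'
  have h1 : M * R * P + 2 ≤ a * (y - x) + 2 * R ∨ M * R * P = 0 := by
    by_cases h : hi' R (M * R) a x ≤ lo' R (M * R) a y
    · left; exact forced_item hM hR hxy h
    · right
      have : P = 0 := by omega
      rw [this, Nat.mul_zero]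
  have h2 : M * R * P' + 2 ≤ b * (y - x) + 2 * R ∨ M * R * P' = 0 := by
    by_cases h : hi' R (M * R) b x ≤ lo' R (M * R) b y
    · left; exact forced_item hM hR hxy h
    · right
      have : P' = 0 := by omega
      rw [this, Nat.mul_zero]
  have h3 : a * (y - x) + b * (y - x) = R * (y - x) := by rw [← Nat.add_mul, hab]
  by_contra hcon
  push Not at hcon
  have h4 : R * ((y - x) + 4) ≤ R * (M * (P + P')) := Nat.mul_le_mul_left _ (by omega)
  have h5 : R * (M * (P + P')) = M * R * P + M * R * P' := by ring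
  have h6 : R * ((y - x) + 4) = R * (y - x) + 4 * R := by ring
  omega

/-- no forced item in a short interval -/
theorem forced_short (hM : 8 ≤ M) (hR : 0 < R) (ha : 4 * a ≤ 3 * R) (hxy : x ≤ y) (hL : y - x < M) :
    lo' R (M * R) a y - hi' R (M * R) a x = 0 := by
  by_contra hcon
  have h : hi' R (M * R) a x ≤ lo' R (M * R) a y := by omega
  have h1 := forced_item (by omega) hR hxy h
  have h2 : M * R * 1 ≤ M * R * (lo' R (M * R) a y - hi' R (M * R) a x) :=
    Nat.mul_le_mul_left _ (by omega)
  have h3 : 4 * a * (y - x) ≤ 3 * R * (M - 1) := Nat.mul_le_mul ha (by omega)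
  have h4 : 3 * R * (M - 1) + 3 * R = 3 * (M * R) := by
    obtain ⟨M, rfl⟩ : ∃ k, M = k + 1 := ⟨M - 1, by omega⟩
    simp only [Nat.add_sub_cancel]; ring
  have h5 : 8 * R ≤ M * R := Nat.mul_le_mul_right _ hM
  have h6 : 4 * a * (y - x) = 4 * (a * (y - x)) := by ring
  omega

/-- items are not clipped in a long interval -/
theorem unclipped (hM : 0 < M) (hR : 0 < R) (ha : R ≤ 4 * a) (hxy : x ≤ y)
    (hL : 4 * M ≤ y - x) : hi' R (M * R) a x ≤ lo' R (M * R) a y := by
  by_contra hcon
  push Not at hcon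
  have hD : 0 < M * R := Nat.mul_pos hM hR
  have hRD : R ≤ M * R := Nat.le_mul_of_pos_left _ hM
  have h1 := lt_lo' (R := R) (a := a) (y := y) hD
  have h2 := hi'_le (R := R) (a := a) (x := x) hD
  have h3 : M * R * (lo' R (M * R) a y + 1) ≤ M * R * hi' R (M * R) a x :=
    Nat.mul_le_mul_left _ hcon
  have h4 : M * R * (lo' R (M * R) a y + 1) = M * R * lo' R (M * R) a y + M * R := by ring
  have h5 : a * (y - x) = a * y - a * x := Nat.mul_sub _ _ _
  have h6 : a * x ≤ a * y := Nat.mul_le_mul_left _ hxy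
  have h7 : R * (4 * M) ≤ 4 * a * (y - x) := Nat.mul_le_mul ha hL
  have h8 : 4 * a * (y - x) = 4 * (a * (y - x)) := by ring
  have h9 : R * (4 * M) = 4 * (M * R) := by ring
  omega

/-- `p` is good for the pair `a, R - a`. -/
def Good (M R a p : ℕ) : Prop := M * (a * p % R) < R ∨ (M - 1) * R < M * (a * p % R)

theorem hi_sum_bad {p : ℕ} (hM : 0 < M) (hR : 0 < R) (hab : a + b = R) (h : ¬ Good M R a p) :
    p + 1 ≤ hi' R (M * R) a (M * p) + hi' R (M * R) b (M * p) := by
  have hD : 0 < M * R := Nat.mul_pos hM hR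
  have hRD : R ≤ M * R := Nat.le_mul_of_pos_left _ hM
  unfold Good at h
  push Not at h
  obtain ⟨h1, h2⟩ := h
  have e1 := Nat.div_add_mod (a * p) R
  set n := a * p / R with hn
  set σ := a * p % R with hσ
  have e2 : (M - 1) * R = M * R - R := by rw [Nat.sub_mul, Nat.one_mul]
  have e3 : a * (M * p) = M * R * n + M * σ := by
    calc a * (M * p) = M * (a * p) := by ring
      _ = M * (R * n + σ) := by rw [e1]
      _ = _ := by ring
  have e4 : a * (M * p) + b * (M * p) = M * R * p := by rw [← Nat.add_mul, hab]; ring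
  have h3 : n + 1 ≤ hi' R (M * R) a (M * p) := by
    unfold hi'
    rw [Nat.le_div_iff_mul_le hD, e3]
    have : (n + 1) * (M * R) = M * R * n + M * R := by ring
    omega
  have hnp : n ≤ p := by
    have : M * R * n ≤ M * R * p := by omega
    exact Nat.le_of_mul_le_mul_left this hD
  have h4 : p - n ≤ hi' R (M * R) b (M * p) := by
    unfold hi'
    rw [Nat.le_div_iff_mul_le hD]
    have : (p - n) * (M * R) = M * R * p - M * R * n := by
      rw [Nat.sub_mul, Nat.mul_comm p, Nat.mul_comm n]
    omega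
  omega

theorem lo_sum_bad {q : ℕ} (hM : 0 < M) (hR : 0 < R) (hab : a + b = R) (h : ¬ Good M R a q) :
    lo' R (M * R) a (M * q) + lo' R (M * R) b (M * q) + 1 ≤ q := by
  have hD : 0 < M * R := Nat.mul_pos hM hR
  have hRD : R ≤ M * R := Nat.le_mul_of_pos_left _ hM
  unfold Good at h
  push Not at h
  obtain ⟨h1, h2⟩ := h
  have e1 := Nat.div_add_mod (a * q) R
  set n := a * q / R with hn
  set σ := a * q % R with hσ
  have e2 : (M - 1) * R = M * R - R := by rw [Nat.sub_mul, Nat.one_mul]
  have e3 : a * (M * q) = M * R * n + M * σ := by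
    calc a * (M * q) = M * (a * q) := by ring
      _ = M * (R * n + σ) := by rw [e1]
      _ = _ := by ring
  have e4 : a * (M * q) + b * (M * q) = M * R * q := by rw [← Nat.add_mul, hab]; ring
  have h3 : lo' R (M * R) a (M * q) < n + 1 := by
    unfold lo'
    rw [Nat.div_lt_iff_lt_mul hD, e3]
    have : (n + 1) * (M * R) = M * R * n + M * R := by ring
    omega
  have hnp : n < q := by
    have : M * R * n < M * R * q := by omega
    exact Nat.lt_of_mul_lt_mul_left this
  have h4 : lo' R (M * R) b (M * q) < q - n := by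
    unfold lo'
    rw [Nat.div_lt_iff_lt_mul hD]
    have : (q - n) * (M * R) = M * R * q - M * R * n := by
      rw [Nat.sub_mul, Nat.mul_comm q, Nat.mul_comm n]
    omega
  omega

theorem hi_sum_good {p : ℕ} (hM : 0 < M) (hR : 0 < R) (hab : a + b = R) (h : Good M R a p) :
    hi' R (M * R) a (M * p) + hi' R (M * R) b (M * p) ≤ p := by
  have hD : 0 < M * R := Nat.mul_pos hM hR
  have hRD : R ≤ M * R := Nat.le_mul_of_pos_left _ hM
  unfold Good at h
  have e1 := Nat.div_add_mod (a * p) R
  have hlt := Nat.mod_lt (a * p) hR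
  set n := a * p / R with hn
  set σ := a * p % R with hσ
  have e2 : (M - 1) * R = M * R - R := by rw [Nat.sub_mul, Nat.one_mul]
  have e3 : a * (M * p) = M * R * n + M * σ := by
    calc a * (M * p) = M * (a * p) := by ring
      _ = M * (R * n + σ) := by rw [e1]
      _ = _ := by ring
  have e4 : a * (M * p) + b * (M * p) = M * R * p := by rw [← Nat.add_mul, hab]; ring
  have e5 : M * σ < M * R := Nat.mul_lt_mul_of_pos_left hlt hM
  rcases h with h | h
  · have h3 : hi' R (M * R) a (M * p) < n + 1 := by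
      unfold hi'
      rw [Nat.div_lt_iff_lt_mul hD, e3]
      have : (n + 1) * (M * R) = M * R * n + M * R := by ring
      omega
    have hnp : n ≤ p := by
      have : M * R * n ≤ M * R * p := by omega
      exact Nat.le_of_mul_le_mul_left this hD
    have h4 : hi' R (M * R) b (M * p) < p - n + 1 := by
      unfold hi'
      rw [Nat.div_lt_iff_lt_mul hD]
      have : (p - n + 1) * (M * R) = M * R * p - M * R * n + M * R := by
        rw [Nat.add_mul, Nat.sub_mul, Nat.mul_comm p, Nat.mul_comm n, Nat.one_mul]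
      have h5 : M * R * n ≤ M * R * p := Nat.mul_le_mul_left _ hnp
      omega
    omega
  · have h3 : hi' R (M * R) a (M * p) < n + 2 := by
      unfold hi'
      rw [Nat.div_lt_iff_lt_mul hD, e3]
      have : (n + 2) * (M * R) = M * R * n + 2 * (M * R) := by ring
      omega
    have hnp : n < p := by
      have : M * R * n < M * R * p := by omega
      exact Nat.lt_of_mul_lt_mul_left this
    have h4 : hi' R (M * R) b (M * p) < p - n := by
      unfold hi'
      rw [Nat.div_lt_iff_lt_mul hD]
      have : (p - n) * (M * R) = M * R * p - M * R * n := by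
        rw [Nat.sub_mul, Nat.mul_comm p, Nat.mul_comm n]
      omega
    omega

/-- goodness is symmetric -/
theorem good_symm {q : ℕ} (hM : 0 < M) (hR : 0 < R) (hq : q ≤ R) :
    Good M R a (R - q) ↔ Good M R a q := by
  have e : a * (R - q) % R = (R - a * q % R) % R := by
    have h1 : a * (R - q) + a * q = R * a := by
      rw [← Nat.mul_add, Nat.sub_add_cancel hq, Nat.mul_comm]
    have e1 := Nat.div_add_mod (a * q) R
    have hlt := Nat.mod_lt (a * q) hR
    set n := a * q / R
    set σ := a * q % R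
    have hna : R * n ≤ R * a := by omega
    have hna' : n ≤ a := Nat.le_of_mul_le_mul_left hna hR
    by_cases h0 : σ = 0
    · rw [h0, Nat.sub_zero, Nat.mod_self]
      have : a * (R - q) = R * (a - n) := by rw [Nat.mul_sub R]; omega
      rw [this, Nat.mul_mod_right]
    · have hlt' : n < a := by
        have : R * n < R * a := by omega
        exact Nat.lt_of_mul_lt_mul_left this
      have : a * (R - q) = R * (a - n - 1) + (R - σ) := by
        have h2 : R * (a - n - 1) = R * a - R * n - R := by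
          rw [Nat.mul_sub, Nat.mul_sub, Nat.mul_one]
        have h3 : R * (n + 1) ≤ R * a := Nat.mul_le_mul_left _ hlt'
        rw [Nat.mul_add] at h3
        omega
      rw [this, Nat.mul_add_mod]
  have hlt := Nat.mod_lt (a * q) hR
  have e2 : (M - 1) * R = M * R - R := by rw [Nat.sub_mul, Nat.one_mul]
  have hRD : R ≤ M * R := Nat.le_mul_of_pos_left _ hM
  unfold Good
  rw [e, e2]
  by_cases h0 : a * q % R = 0
  · rw [h0]; simp
  · rw [Nat.mod_eq_of_lt (a := R - a * q % R) (by omega)]
    have h2 : M * (R - a * q % R) = M * R - M * (a * q % R) := Nat.mul_sub _ _ _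
    have h3 : M * (a * q % R) < M * R := Nat.mul_lt_mul_of_pos_left hlt hM
    have h4 : 0 < M * (a * q % R) := Nat.mul_pos hM (by omega)
    rw [h2]
    omega

end

end Pool.Agent.BJ
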