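import Pool.Agent.BJ.GapA

/-!
# The gap lemma: Hall's condition for the constructed instances
-/

namespace Pool.Agent.BJ

theorem sum_map_le (l : List ℕ) (f : ℕ → ℕ) (C : ℕ) (h : ∀ a ∈ l, f a ≤ C) :
    (l.map f).sum ≤ l.length * C := by
  induction l with
  | nil => simp
  | cons a l ih =>
    have h1 := ih fun b hb => h b (List.mem_cons_of_mem _ hb)
    have h2 := h a (by simp)
    simp only [List.map_cons, List.sum_cons, List.length_cons]
    have : (l.length + 1) * C = l.length * C + C := by ring
    omega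

theorem sum_map_add3 (l : List ℕ) (f u v : ℕ → ℕ) :
    (l.map fun a => f a + u a + v a).sum = (l.map f).sum + (l.map u).sum + (l.map v).sum := by
  induction l with
  | nil => simp
  | cons a l ih =>
    simp only [List.map_cons, List.sum_cons, ih]
    ring

theorem one_le_sum_map (l : List ℕ) (u : ℕ → ℕ) (h : ∃ a ∈ l, 1 ≤ u a) : 1 ≤ (l.map u).sum := by
  obtain ⟨a, ha, h⟩ := h
  have : u a ≤ (l.map u).sum := List.le_sum_of_mem (List.mem_map.2 ⟨a, ha, rfl⟩)
  omega

section

variable {m c : ℕ} {ds : List ℕ}

open Classical in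
theorem gap_hall (hc : 0 < c) (hm : 2 * ds.length + 7 ≤ 2 * m) {M Q R : ℕ} (hM : M = 2 * m)
    (hQ : Q = 3 * m) (hR : R = c * Q)
    (h1 : ∀ a ∈ ds, R ≤ 4 * a) (h2 : ∀ a ∈ ds, 4 * a ≤ 3 * R)
    (hbad : ∀ p ≤ R, p % Q = 1 → ∃ a ∈ ds, ¬ Good M R a p)
    {x y : ℕ} (hxy : x ≤ y) (hy : y ≤ M * R) :
    (M - ds.length - 1) * (lo' R (M * R) R y - hi' R (M * R) R x) +
      Q * (lo' R (M * R) c y - hi' R (M * R) c x) +
      (ds.map fun a => (lo' R (M * R) a y - hi' R (M * R) a x) +
        (lo' R (M * R) (R - a) y - hi' R (M * R) (R - a) x)).sum ≤ y - x := by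
  have hm4 : 4 ≤ m := by omega
  have hM8 : 8 ≤ M := by omega
  have hM0 : 0 < M := by omega
  have hQ0 : 0 < Q := by omega
  have hR0 : 0 < R := by rw [hR]; exact Nat.mul_pos hc hQ0
  have hcR : 12 * c ≤ R := by
    rw [hR, Nat.mul_comm]
    exact Nat.mul_le_mul_left _ (by omega)
  have ha0 : ∀ a ∈ ds, a + (R - a) = R := fun a ha => by have := h2 a ha; omega
  have hb2 : ∀ a ∈ ds, 4 * (R - a) ≤ 3 * R := fun a ha => by have := h1 a ha; omega
  have hb1 : ∀ a ∈ ds, R ≤ 4 * (R - a) := fun a ha => by have := h2 a ha; omega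
  rw [lo'_pad hM0 hR0, hi'_pad hM0 hR0]
  set p := (x + (M - 1)) / M with hp
  set q := y / M with hq
  -- the decomposition of the two times
  have p1 := Nat.mul_div_le (x + (M - 1)) M
  have p2 := Nat.lt_mul_div_succ (x + (M - 1)) hM0
  have q1 := Nat.mul_div_le y M
  have q2 := Nat.lt_mul_div_succ y hM0
  rw [← hp] at p1 p2
  rw [← hq] at q1 q2
  rw [Nat.mul_add, Nat.mul_one] at p2 q2
  obtain ⟨j, hj⟩ : ∃ j, M * p = x + j := ⟨M * p - x, by omega⟩
  obtain ⟨j', hj'⟩ : ∃ j', y = M * q + j' := ⟨y - M * q, by omega⟩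
  have hjM : j < M := by omega
  have hjM' : j' < M := by omega
  by_cases hL : y - x < M
  · -- nothing is forced
    have e1 : q - p = 0 := by
      have : M * q < M * (p + 1) := by rw [Nat.mul_add]; omega
      have := Nat.lt_of_mul_lt_mul_left this
      omega
    have e2 : lo' R (M * R) c y - hi' R (M * R) c x = 0 :=
      forced_short hM8 hR0 (by omega) hxy hL
    have e3 : (ds.map fun a => (lo' R (M * R) a y - hi' R (M * R) a x) +
        (lo' R (M * R) (R - a) y - hi' R (M * R) (R - a) x)).sum ≤ ds.length * 0 := by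
      refine sum_map_le _ _ _ fun a ha => ?_
      rw [forced_short hM8 hR0 (h2 a ha) hxy hL, forced_short hM8 hR0 (hb2 a ha) hxy hL]
    rw [e1, e2]
    omega
  have hL' : M ≤ y - x := by omega
  have hpq : p ≤ q := by
    have : M * p < M * (q + 1) := by rw [Nat.mul_add]; omega
    have := Nat.lt_of_mul_lt_mul_left this
    omega
  obtain ⟨n, hn⟩ : ∃ n, q = p + n := ⟨q - p, by omega⟩
  have hqn : M * q = M * p + M * n := by rw [hn, Nat.mul_add]
  have hLn : y - x = M * n + j + j' := by omega
  have e1 : q - p = n := by omega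
  rw [e1]
  have hk : (M - ds.length - 1) * n + ds.length * n + n = M * n := by
    have : M = (M - ds.length - 1) + ds.length + 1 := by omega
    calc _ = ((M - ds.length - 1) + ds.length + 1) * n := by ring
      _ = M * n := by rw [← this]
  set S := (ds.map fun a => (lo' R (M * R) a y - hi' R (M * R) a x) +
        (lo' R (M * R) (R - a) y - hi' R (M * R) (R - a) x)).sum with hS
  -- crude bounds for the pairs
  have hcr : ∀ a ∈ ds, M * ((lo' R (M * R) a y - hi' R (M * R) a x) +
        (lo' R (M * R) (R - a) y - hi' R (M * R) (R - a) x)) ≤ M * n + j + j' + 3 := by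
    intro a ha
    have := forced_pair hM0 hR0 (ha0 a ha) hxy
    omega
  have hS1 : j + j' + 3 < M → S ≤ ds.length * n := by
    intro hjj
    refine sum_map_le _ _ _ fun a ha => ?_
    have h3 := hcr a ha
    have h4 : M * ((lo' R (M * R) a y - hi' R (M * R) a x) +
        (lo' R (M * R) (R - a) y - hi' R (M * R) (R - a) x)) < M * (n + 1) := by
      rw [Nat.mul_add M n]; omega
    have := Nat.lt_of_mul_lt_mul_left h4
    omega
  have hS2 : S ≤ ds.length * (n + 2) := by
    refine sum_map_le _ _ _ fun a ha => ?_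
    have h3 := hcr a ha
    have h4 : M * ((lo' R (M * R) a y - hi' R (M * R) a x) +
        (lo' R (M * R) (R - a) y - hi' R (M * R) (R - a) x)) < M * (n + 3) := by
      rw [Nat.mul_add M n]; omega
    have := Nat.lt_of_mul_lt_mul_left h4
    omega
  have hS2' : ds.length * (n + 2) = ds.length * n + 2 * ds.length := by ring
  -- the fillers
  have hRQ : R = c * Q := hR
  have f1 : lo' R (M * R) c y = (y + (Q - 1)) / (M * Q) := by rw [hRQ]; exact lo'_fill hc hQ0
  have f2 : hi' R (M * R) c x = (x + (M * Q - Q)) / (M * Q) := by rw [hRQ]; exact hi'_fill hc hM0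
  rw [f1, f2]
  set s := (y + (Q - 1)) / (M * Q) with hs
  set t := (x + (M * Q - Q)) / (M * Q) with ht
  have hMQ : 0 < M * Q := Nat.mul_pos hM0 hQ0
  have hQMQ : Q ≤ M * Q := Nat.le_mul_of_pos_left _ hM0
  have s1 := Nat.mul_div_le (y + (Q - 1)) (M * Q)
  have t1 := Nat.lt_mul_div_succ (x + (M * Q - Q)) hMQ
  rw [← hs] at s1
  rw [← ht, Nat.mul_add, Nat.mul_one] at t1
  by_cases hst : s ≤ t
  · have e2 : s - t = 0 := by omega
    rw [e2, Nat.mul_zero]
    by_cases hjj : j + j' + 3 < M
    · have := hS1 hjj; omega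
    · omega
  push Not at hst
  have hδ : Q * (s - t) = Q * s - Q * t := Nat.mul_sub _ _ _
  have hQst : Q * t ≤ Q * s := Nat.mul_le_mul_left _ hst.le
  have hs' : M * Q * s = M * (Q * s) := Nat.mul_assoc _ _ _
  have ht' : M * Q * t = M * (Q * t) := Nat.mul_assoc _ _ _
  have hMδ : M * (Q * s) - M * (Q * t) = M * (Q * (s - t)) := by rw [hδ, Nat.mul_sub]
  have hMQst : M * (Q * t) ≤ M * (Q * s) := Nat.mul_le_mul_left _ hQst
  by_cases hjj : j + j' + 3 < M
  · have hS3 := hS1 hjj
    by_cases h3 : 3 ≤ j + j'
    · have h4 : M * (Q * (s - t)) < M * (n + 4) := by rw [Nat.mul_add M n]; omega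
      have := Nat.lt_of_mul_lt_mul_left h4
      omega
    · -- the two ends are close to block boundaries
      have g1 : p ≤ Q * t + 1 := by
        have : M * p < M * (Q * t + 2) := by rw [Nat.mul_add M (Q * t)]; omega
        have := Nat.lt_of_mul_lt_mul_left this
        omega
      have g2 : Q * s ≤ q + 1 := by
        have : M * (Q * s) < M * (q + 2) := by rw [Nat.mul_add M q]; omega
        have := Nat.lt_of_mul_lt_mul_left this
        omega
      have hQs : Q * (t + 1) ≤ Q * s := Nat.mul_le_mul_left _ hst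
      rw [Nat.mul_add, Nat.mul_one] at hQs
      have hn10 : 10 ≤ n := by omega
      have hMn : M * 10 ≤ M * n := Nat.mul_le_mul_left _ hn10
      let u : ℕ → ℕ := fun a => if j = 0 ∧ ¬ Good M R a p then 1 else 0
      let v : ℕ → ℕ := fun a => if j' = 0 ∧ ¬ Good M R a q then 1 else 0
      have key : ∀ a ∈ ds, (lo' R (M * R) a y - hi' R (M * R) a x) +
          (lo' R (M * R) (R - a) y - hi' R (M * R) (R - a) x) + u a + v a ≤ n := by
        intro a ha
        have c1 := unclipped hM0 hR0 (h1 a ha) hxy (by omega : 4 * M ≤ y - x)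
        have c2 := unclipped hM0 hR0 (hb1 a ha) hxy (by omega : 4 * M ≤ y - x)
        have c3 : lo' R (M * R) a y + lo' R (M * R) (R - a) y + v a ≤ q := by
          by_cases hv : j' = 0 ∧ ¬ Good M R a q
          · have : v a = 1 := if_pos hv
            rw [this, hj', hv.1, Nat.add_zero]
            exact lo_sum_bad hM0 hR0 (ha0 a ha) hv.2
          · have : v a = 0 := if_neg hv
            rw [this]
            have h5 := lo_sum_le (y := y) hM0 hR0 (ha0 a ha)
            have h6 : M * (lo' R (M * R) a y + lo' R (M * R) (R - a) y) < M * (q + 1) := by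
              rw [Nat.mul_add M q]; omega
            have := Nat.lt_of_mul_lt_mul_left h6
            omega
        have c4 : p + u a ≤ hi' R (M * R) a x + hi' R (M * R) (R - a) x := by
          by_cases hu : j = 0 ∧ ¬ Good M R a p
          · have : u a = 1 := if_pos hu
            have hx : x = M * p := by omega
            rw [this, hx]
            exact hi_sum_bad hM0 hR0 (ha0 a ha) hu.2
          · have : u a = 0 := if_neg hu
            rw [this]
            have h5 := hi_sum_ge (x := x) hM0 hR0 (ha0 a ha)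
            have h6 : M * p < M * (hi' R (M * R) a x + hi' R (M * R) (R - a) x + 1) := by
              rw [Nat.mul_add M _ 1]; omega
            have := Nat.lt_of_mul_lt_mul_left h6
            omega
        omega
      have hsum := sum_map_le ds (fun a => (lo' R (M * R) a y - hi' R (M * R) a x) +
          (lo' R (M * R) (R - a) y - hi' R (M * R) (R - a) x) + u a + v a) n key
      rw [sum_map_add3 ds (fun a => (lo' R (M * R) a y - hi' R (M * R) a x) +
          (lo' R (M * R) (R - a) y - hi' R (M * R) (R - a) x)) u v, ← hS] at hsum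
      -- bad pairs at the two ends
      have hu : j = 0 → p = Q * t + 1 → 1 ≤ (ds.map u).sum := by
        intro hj0 hpt
        have hpR : p ≤ R := by
          have : M * p < M * (R + 1) := by rw [Nat.mul_add M R]; omega
          have := Nat.lt_of_mul_lt_mul_left this
          omega
        obtain ⟨a, ha, hg⟩ := hbad p hpR (by
          rw [hpt, Nat.mul_add_mod, Nat.mod_eq_of_lt (by omega)])
        exact one_le_sum_map _ _ ⟨a, ha, by simp only [u]; rw [if_pos ⟨hj0, hg⟩]⟩
      have hv : j' = 0 → Q * s = q + 1 → 1 ≤ (ds.map v).sum := by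
        intro hj0 hqs
        have hqR : q ≤ R := by
          have : M * q < M * (R + 1) := by rw [Nat.mul_add M R]; omega
          have := Nat.lt_of_mul_lt_mul_left this
          omega
        have hsc : s ≤ c := by
          have : Q * s < Q * (c + 1) := by
            rw [Nat.mul_add Q c, Nat.mul_one, Nat.mul_comm Q c]; omega
          have := Nat.lt_of_mul_lt_mul_left this
          omega
        have hQsc : Q * s ≤ R := by
          rw [hRQ, Nat.mul_comm c Q]; exact Nat.mul_le_mul_left _ hsc
        have hRq : R - q = Q * (c - s) + 1 := by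
          rw [Nat.mul_sub, Nat.mul_comm Q c, ← hRQ]; omega
        obtain ⟨a, ha, hg⟩ := hbad (R - q) (by omega) (by
          rw [hRq, Nat.mul_add_mod, Nat.mod_eq_of_lt (by omega)])
        rw [good_symm hM0 hR0 hqR] at hg
        exact one_le_sum_map _ _ ⟨a, ha, by simp only [v]; rw [if_pos ⟨hj0, hg⟩]⟩
      by_cases a1 : p = Q * t + 1 <;> by_cases a2 : Q * s = q + 1 <;>
        by_cases a3 : j = 0 <;> by_cases a4 : j' = 0 <;>
        simp only [a1, a2, a3, a4, forall_true_left, false_implies,
          implies_true, not_true, not_false_iff] at hu hv <;> omega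
  · have h4 : M * (Q * (s - t)) < M * (n + 5) := by rw [Nat.mul_add M n]; omega
    have := Nat.lt_of_mul_lt_mul_left h4
    omega

end

end Pool.Agent.BJ
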