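import Pool.Agent.BJ.Red
import Pool.Agent.BJ.BinArith

/-!
# The reduction is computable in polynomial time
-/

set_option linter.unusedSectionVars false
set_option linter.unusedVariables false

namespace Pool.Agent.BJ

open Pool.Agent.Bx81 Pool.Agent.PT81 Pool.Agent.IsoImp Turing Polynomial

section

variable {E : Env} {α β γ : Type} [Enc E α] [Enc E β] [Enc E γ]

theorem poly_getD {f : γ → Option α} {g : γ → α} (hf : Poly E f) (hg : Poly E g) :
    Poly E (fun c => (f c).getD (g c)) :=
  (Poly.optCases (h := fun p : γ × α => p.2) hf hg Poly.snd).congr fun c => by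
    cases f c <;> rfl

/-- Powers of a unary number with a unary exponent. -/
theorem PolyN.pow {Q k : γ → ℕ} (hQ : Poly E Q) (hk : Poly E k) :
    PolyN E (fun c => Q c ^ k c) := by
  have key : ∀ (Q k n : ℕ), (List.replicate k 0).foldl (fun a g => a * Q + g) n = n * Q ^ k := by
    intro Q k
    induction k with
    | zero => intro n; simp
    | succ k ih => intro n; rw [List.replicate_succ, List.foldl_cons, ih, pow_succ]; ring
  refine (PolyN.horner (s := fun _ => 1) hQ (Poly.const 1)
    (Poly.replicate hk (Poly.const 0))).congr fun c => ?_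
  rw [key, one_mul]

/-- Lists of numbers in binary. -/
def PolyL (E : Env) {γ : Type} [Enc E γ] (l : γ → List ℕ) : Prop :=
  Poly E (fun c => (l c).map Nat.bits)

theorem PolyL.append {f g : γ → List ℕ} (hf : PolyL E f) (hg : PolyL E g) :
    PolyL E (fun c => f c ++ g c) :=
  (Poly.append hf hg).congr fun c => by
    show _ = (f c ++ g c).map Nat.bits
    rw [List.map_append]

theorem PolyL.cons {f : γ → ℕ} {g : γ → List ℕ} (hf : PolyN E f) (hg : PolyL E g) :
    PolyL E (fun c => f c :: g c) := Poly.cons hf hg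

theorem PolyL.replicate {k f : γ → ℕ} (hk : Poly E k) (hf : PolyN E f) :
    PolyL E (fun c => List.replicate (k c) (f c)) :=
  (Poly.replicate hk hf).congr fun c => by
    show _ = (List.replicate (k c) (f c)).map Nat.bits
    rw [List.map_replicate]

theorem PolyL.map {l : γ → List α} {g : γ × α → ℕ} (hl : Poly E l) (hg : PolyN E g) :
    PolyL E (fun c => (l c).map fun a => g (c, a)) :=
  (Poly.map (g := fun p => Nat.bits (g p)) hl hg).congr fun c => by
    show _ = ((l c).map fun a => g (c, a)).map Nat.bits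
    rw [List.map_map]
    rfl

theorem PolyL.mapL {l : γ → List ℕ} {g : γ × ℕ → ℕ} (hl : PolyL E l)
    (hg : PolyN E (fun p : γ × List Bool => g (p.1, Bx81.bval p.2))) :
    PolyL E (fun c => (l c).map fun a => g (c, a)) :=
  (Poly.map (g := fun p : γ × List Bool => Nat.bits (g (p.1, Bx81.bval p.2))) hl hg).congr
    fun c => by
      show _ = ((l c).map fun a => g (c, a)).map Nat.bits
      rw [List.map_map, List.map_map]
      refine List.map_congr_left fun a _ => ?_
      simp only [Function.comp_apply, bval_bits]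

theorem PolyL.length {l : γ → List ℕ} (hl : PolyL E l) : Poly E (fun c => (l c).length) :=
  (Poly.length hl).congr fun c => by rw [List.length_map]

/-- The string of an instance. -/
theorem poly_encode {d : γ → List ℕ} {B : γ → ℚ} (hd : PolyL E d)
    (hn : PolyN E (fun c => (B c).num.natAbs)) (hb : PolyN E (fun c => (B c).den)) :
    Poly E (fun c => encode (d c) (B c)) := by
  have hs : ∀ {f : γ → List Bool}, Poly E f →
      Poly E (fun c => (f c).map (some : Bool → Option Bool)) := fun hf =>
    Poly.map (g := fun p : γ × Bool => some p.2) hf (Poly.osome Poly.snd)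
  have h1 : Poly E (fun c => ((d c).map Nat.bits).flatMap fun a =>
      a.map (some : Bool → Option Bool) ++ [none]) :=
    Poly.flatMap (g := fun p : γ × List Bool => p.2.map (some : Bool → Option Bool) ++ [none]) hd
      (Poly.append (Poly.map (g := fun q : (γ × List Bool) × Bool => some q.2) Poly.snd
        (Poly.osome Poly.snd)) (Poly.const _))
  refine (Poly.append h1 (Poly.append (Poly.append (hs hn) (Poly.const [none]))
    (hs hb))).congr fun c => ?_
  show _ = encode (d c) (B c)
  unfold encode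
  rw [List.flatMap_map]

theorem bnd_num (m : ℕ) (hm : 0 < m) : (bnd m).num.natAbs = 2 * m - 1 ∧ (bnd m).den = 2 * m := by
  have hc : Nat.Coprime ((2 * m - 1 : ℕ) : ℤ).natAbs ((2 * m : ℕ) : ℤ).natAbs := by
    simp only [Int.natAbs_natCast]
    have h : 2 * m = (2 * m - 1) + 1 := by omega
    conv_rhs => rw [h]
    simp
  have h0 : (0 : ℤ) < ((2 * m : ℕ) : ℤ) := by exact_mod_cast (by omega : 0 < 2 * m)
  have h1 := Rat.num_div_eq_of_coprime h0 hc
  have h2 := Rat.den_div_eq_of_coprime h0 hc
  have e : bnd m = (((2 * m - 1 : ℕ) : ℤ) : ℚ) / (((2 * m : ℕ) : ℤ) : ℚ) := by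
    unfold bnd
    push_cast
    rfl
  constructor
  · rw [e, h1, Int.natAbs_natCast]
  · rw [← e] at h2
    exact_mod_cast h2

/-! ### The system of a formula -/

variable {F : γ → Cnf}

theorem poly_nml (hF : Poly E F) : Poly E (fun c => nml (F c)) := by
  have h1 : Poly E (fun p : γ × List (Bool × Nm) => p.2.map fun l : Bool × Nm => l.2) :=
    Poly.map (g := fun p : (γ × List (Bool × Nm)) × (Bool × Nm) => p.2.2) Poly.snd
      (Poly.snd.comp Poly.snd)
  exact Poly.flatMap hF h1

theorem poly_ix {l : γ → List Nm} {a : γ → Nm} (hl : Poly E l) (ha : Poly E a) :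
    Poly E (fun c => ix (l c) (a c)) := by
  have h1 : Poly E (fun c => (List.range (l c).length).filter fun i =>
      decide ((l c)[i]? = some (a c))) :=
    Poly.filter (g := fun p : γ × ℕ => decide ((l p.1)[p.2]? = some (a p.1)))
      (Poly.range (Poly.length hl))
      (Poly.eq (Poly.nth (hl.comp Poly.fst) Poly.snd) (Poly.osome (ha.comp Poly.fst)))
  refine (poly_getD (Poly.head? h1) (Poly.const 0)).congr fun c => ?_
  show _ = ix (l c) (a c)
  unfold ix
  rw [List.headD_eq_head?_getD]

theorem poly_lpos {l : γ → List Nm} {t : γ → Bool × Nm} (hl : Poly E l) (ht : Poly E t) :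
    Poly E (fun c => lpos (l c) (t c)) := by
  have h := poly_ix hl (Poly.snd.comp ht)
  exact Poly.ite (Poly.fst.comp ht) (Poly.add (Poly.const 1) (Poly.mul (Poly.const 2) h))
    (Poly.add (Poly.const 2) (Poly.mul (Poly.const 2) h))

theorem poly_ceq (hF : Poly E F) {i : γ → ℕ} (hi : Poly E i) :
    Poly E (fun c => ceq (F c) (i c)) := by
  have hC : Poly E (fun c => (F c)[i c]?.getD []) := poly_getD (Poly.nth hF hi) (Poly.const [])
  have hn := poly_nml hF
  have hlen := Poly.length hn
  have h1 : Poly E (fun c => ((F c)[i c]?.getD []).map (lpos (nml (F c)))) :=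
    Poly.map (g := fun p : γ × (Bool × Nm) => lpos (nml (F p.1)) p.2) hC
      (poly_lpos (hn.comp Poly.fst) Poly.snd)
  have h2 : Poly E (fun c => (List.range (((F c)[i c]?.getD []).length - 1)).map
      (fun t => 1 + 2 * (nml (F c)).length + (i c * (nml (F c)).length + t))) :=
    Poly.map (g := fun p : γ × ℕ => 1 + 2 * (nml (F p.1)).length +
        (i p.1 * (nml (F p.1)).length + p.2))
      (Poly.range (Poly.sub (Poly.length hC) (Poly.const 1)))
      (Poly.add (Poly.add (Poly.const 1) (Poly.mul (Poly.const 2) (hlen.comp Poly.fst)))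
        (Poly.add (Poly.mul (hi.comp Poly.fst) (hlen.comp Poly.fst)) Poly.snd))
  exact Poly.pair (Poly.append h1 h2)
    (Poly.add (Poly.sub (Poly.length hC) (Poly.const 1)) (Poly.const 1))

theorem poly_sys (hF : Poly E F) : Poly E (fun c => sys (F c)) := by
  have hn := poly_nml hF
  have h1 : Poly E (fun c => (List.range (nml (F c)).length).map
      (fun v => (([1 + 2 * v, 2 + 2 * v] : List ℕ), 1))) :=
    Poly.map (g := fun p : γ × ℕ => (([1 + 2 * p.2, 2 + 2 * p.2] : List ℕ), 1))
      (Poly.range (Poly.length hn))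
      (Poly.pair (Poly.cons (Poly.add (Poly.const 1) (Poly.mul (Poly.const 2) Poly.snd))
        (Poly.cons (Poly.add (Poly.const 2) (Poly.mul (Poly.const 2) Poly.snd)) (Poly.const [])))
        (Poly.const 1))
  have h2 : Poly E (fun c => (List.range (F c).length).map (ceq (F c))) :=
    Poly.map (g := fun p : γ × ℕ => ceq (F p.1) p.2) (Poly.range (Poly.length hF))
      (poly_ceq (hF.comp Poly.fst) Poly.snd)
  exact Poly.append h1 h2

theorem poly_npos (hF : Poly E F) : Poly E (fun c => npos (F c)) := by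
  have hn := Poly.length (poly_nml hF)
  exact Poly.add (Poly.add (Poly.const 1) (Poly.mul (Poly.const 2) hn))
    (Poly.mul (Poly.length hF) hn)

theorem poly_mpar (hF : Poly E F) : Poly E (fun c => mpar (F c)) := by
  have hn := Poly.length (poly_nml hF)
  exact Poly.succ (Poly.mul (Poly.const 2) (Poly.add (Poly.add (Poly.add (poly_npos hF)
    (Poly.mul (Poly.const 4) hn)) (Poly.length hF)) (Poly.const 100)))

theorem poly_pairs {Q N : γ → ℕ} {L : γ → Sys} (hQ : Poly E Q) (hN : Poly E N) (hL : Poly E L) :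
    PolyL E (fun c => pairs (Q c) (N c) (L c)) := by
  have h0 : PolyN E (fun c => Q c ^ N c) := PolyN.pow hQ hN
  have h1 : PolyL E (fun c => (List.range (N c)).map fun j =>
      Q c ^ N c + 2 * Q c ^ (N c - 1 - j)) :=
    PolyL.map (g := fun p : γ × ℕ => Q p.1 ^ N p.1 + 2 * Q p.1 ^ (N p.1 - 1 - p.2))
      (Poly.range hN) (PolyN.add (PolyN.comp h0 Poly.fst) (PolyN.mul (PolyN.const 2)
        (PolyN.pow (hQ.comp Poly.fst) (Poly.sub (Poly.sub (hN.comp Poly.fst) (Poly.const 1))
          Poly.snd))))
  have h2 : PolyL E (fun c => (L c).map fun e => (Q c - 4 * e.2) * Q c ^ (N c - 1) +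
      4 * (e.1.map fun j => Q c ^ (N c - 1 - j)).sum) := by
    refine PolyL.map (g := fun p : γ × (List ℕ × ℕ) =>
      (Q p.1 - 4 * p.2.2) * Q p.1 ^ (N p.1 - 1) +
        4 * (p.2.1.map fun j => Q p.1 ^ (N p.1 - 1 - j)).sum) hL ?_
    refine PolyN.add (PolyN.mul (PolyN.ofUnary (Poly.sub (hQ.comp Poly.fst)
      (Poly.mul (Poly.const 4) (Poly.snd.comp Poly.snd))))
      (PolyN.pow (hQ.comp Poly.fst) (Poly.sub (hN.comp Poly.fst) (Poly.const 1))))
      (PolyN.mul (PolyN.const 4) ?_)
    exact PolyN.sum (g := fun q : (γ × (List ℕ × ℕ)) × ℕ => Q q.1.1 ^ (N q.1.1 - 1 - q.2))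
      (Poly.fst.comp Poly.snd) (PolyN.pow (hQ.comp (Poly.fst.comp Poly.fst))
        (Poly.sub (Poly.sub (hN.comp (Poly.fst.comp Poly.fst)) (Poly.const 1)) Poly.snd))
  exact PolyL.append (PolyL.cons h0 h1) h2

theorem poly_inst {m c : γ → ℕ} {ds : γ → List ℕ} (hm : Poly E m) (hc : PolyN E c)
    (hds : PolyL E ds) : PolyL E (fun x => inst (m x) (c x) (ds x)) := by
  have h3 : Poly E (fun x => 3 * m x) := Poly.mul (Poly.const 3) hm
  have hR : PolyN E (fun x => c x * (3 * m x)) := PolyN.mul hc (PolyN.ofUnary h3)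
  have h1 : PolyL E (fun x => List.replicate (2 * m x - (ds x).length - 1) (c x * (3 * m x))) :=
    PolyL.replicate (Poly.sub (Poly.sub (Poly.mul (Poly.const 2) hm) (PolyL.length hds))
      (Poly.const 1)) hR
  have h4 : PolyL E (fun x => (ds x).map fun a => c x * (3 * m x) - a) :=
    PolyL.mapL (g := fun p : γ × ℕ => c p.1 * (3 * m p.1) - p.2) hds
      (PolyN.sub (PolyN.comp hR Poly.fst) (PolyN.bval Poly.snd))
  exact PolyL.append (PolyL.append (PolyL.append h1 (PolyL.replicate h3 hc)) hds) h4

theorem poly_dvec {m N : γ → ℕ} {L : γ → Sys} (hm : Poly E m) (hN : Poly E N) (hL : Poly E L) :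
    PolyL E (fun x => dvec (m x) (N x) (L x)) := by
  have h3 : Poly E (fun x => 3 * m x) := Poly.mul (Poly.const 3) hm
  exact poly_inst hm (PolyN.mul (PolyN.const 2) (PolyN.pow h3 (Poly.sub hN (Poly.const 1))))
    (poly_pairs h3 hN hL)

/-- The reduction is computable in polynomial time. -/
theorem poly_jstr (hF : Poly E F) : Poly E (fun x => jstr (F x)) := by
  have hm := poly_mpar hF
  have hpos : ∀ c, 0 < mpar (F c) := fun c => by unfold mpar; omega
  refine poly_encode (poly_dvec hm (poly_npos hF) (poly_sys hF)) ?_ ?_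
  · exact (PolyN.ofUnary (Poly.sub (Poly.mul (Poly.const 2) hm) (Poly.const 1))).congr fun c =>
      (bnd_num _ (hpos c)).1.symm
  · exact (PolyN.ofUnary (Poly.mul (Poly.const 2) hm)).congr fun c => (bnd_num _ (hpos c)).2.symm

end

end Pool.Agent.BJ
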