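import Pool.Agent.BJ.Red

/-!
# The linear system of a formula
-/

namespace Pool.Agent.BJ

open Pool.Agent.Bx81

theorem ix_spec {l : List Nm} {a : Nm} (h : a ∈ l) : ix l a < l.length ∧ l[ix l a]? = some a := by
  obtain ⟨i, hi, hia⟩ := List.getElem_of_mem h
  have hmem : i ∈ (List.range l.length).filter fun i => decide (l[i]? = some a) := by
    rw [List.mem_filter, List.mem_range]
    exact ⟨hi, by simp [List.getElem?_eq_getElem hi, hia]⟩
  have key : ∀ m : List ℕ, i ∈ m → (∀ j ∈ m, j < l.length ∧ l[j]? = some a) →
      m.headD 0 < l.length ∧ l[m.headD 0]? = some a := by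
    intro m hm hall
    cases m with
    | nil => simp at hm
    | cons b m => exact hall b (List.mem_cons_self ..)
  refine key _ hmem fun j hj => ?_
  rw [List.mem_filter, List.mem_range] at hj
  exact ⟨hj.1, by simpa using hj.2⟩

variable {φ : Cnf}

theorem mem_nml {c : List (Bool × Nm)} (hc : c ∈ φ) {l : Bool × Nm} (hl : l ∈ c) :
    l.2 ∈ nml φ := by
  unfold nml
  rw [List.mem_flatMap]
  exact ⟨c, hc, List.mem_map.2 ⟨l, hl, rfl⟩⟩

theorem length_le_nml {c : List (Bool × Nm)} (hc : c ∈ φ) : c.length ≤ (nml φ).length := by
  unfold nml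
  rw [List.length_flatMap]
  have : (c.map fun l => l.2).length ≤ (φ.map fun c => (c.map fun l => l.2).length).sum :=
    List.le_sum_of_mem (List.mem_map.2 ⟨c, hc, rfl⟩)
  simpa using this

/-- clause number `i` -/
theorem clause_mem {i : ℕ} (hi : i < φ.length) : φ[i]?.getD [] ∈ φ := by
  rw [List.getElem?_eq_getElem hi, Option.getD_some]
  exact List.getElem_mem hi

theorem lpos_range {c : List (Bool × Nm)} (hc : c ∈ φ) {l : Bool × Nm} (hl : l ∈ c) :
    1 ≤ lpos (nml φ) l ∧ lpos (nml φ) l < 1 + 2 * (nml φ).length := by
  have := (ix_spec (mem_nml hc hl)).1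
  unfold lpos
  split <;> omega

theorem sys_pos (φ : Cnf) : ∀ e ∈ sys φ, ∀ j ∈ e.1, 1 ≤ j ∧ j < npos φ := by
  intro e he j hj
  unfold sys at he
  rw [List.mem_append] at he
  rcases he with he | he
  · rw [List.mem_map] at he
    obtain ⟨v, hv, rfl⟩ := he
    rw [List.mem_range] at hv
    simp only [List.mem_cons, List.not_mem_nil, or_false] at hj
    unfold npos
    rcases hj with rfl | rfl <;> constructor <;> omega
  · rw [List.mem_map] at he
    obtain ⟨i, hi, rfl⟩ := he
    rw [List.mem_range] at hi
    unfold ceq at hj
    simp only [List.mem_append, List.mem_map, List.mem_range] at hj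
    rcases hj with ⟨l, hl, rfl⟩ | ⟨t, ht, rfl⟩
    · have := lpos_range (clause_mem hi) hl
      unfold npos
      exact ⟨this.1, by omega⟩
    · have h1 := length_le_nml (clause_mem hi)
      refine ⟨by omega, ?_⟩
      unfold npos
      have h2 : i * (nml φ).length + (nml φ).length ≤ φ.length * (nml φ).length := by
        rw [← Nat.succ_mul]
        exact Nat.mul_le_mul_right _ hi
      omega

theorem sys_size (φ : Cnf) : ∀ e ∈ sys φ, 8 * (e.1.length + e.2) + 8 ≤ 3 * mpar φ := by
  intro e he
  unfold sys at he
  rw [List.mem_append] at he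
  rcases he with he | he
  · rw [List.mem_map] at he
    obtain ⟨v, hv, rfl⟩ := he
    simp only [List.length_cons, List.length_nil]
    unfold mpar
    omega
  · rw [List.mem_map] at he
    obtain ⟨i, hi, rfl⟩ := he
    rw [List.mem_range] at hi
    have h1 := length_le_nml (clause_mem hi)
    unfold ceq mpar
    simp only [List.length_append, List.length_map, List.length_range]
    omega

theorem sys_len (φ : Cnf) : 2 * (1 + npos φ + (sys φ).length) + 7 ≤ 2 * mpar φ := by
  unfold sys mpar
  simp only [List.length_append, List.length_map, List.length_range]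
  omega

theorem sat_of_sys (z : ℕ → ℤ) (hz : ∀ j < npos φ, |z j| ≤ 1)
    (h : ∀ e ∈ sys φ, (e.1.map z).sum = (e.2 : ℤ)) : Sat φ := by
  have hz' : ∀ j < npos φ, -1 ≤ z j ∧ z j ≤ 1 := fun j hj => abs_le.1 (hz j hj)
  have hv : ∀ v < (nml φ).length, z (1 + 2 * v) + z (2 + 2 * v) = 1 := by
    intro v hv
    have := h ([1 + 2 * v, 2 + 2 * v], 1)
      (List.mem_append_left _ (List.mem_map.2 ⟨v, List.mem_range.2 hv, rfl⟩))
    simpa using this
  refine ⟨fun x => decide (z (1 + 2 * ix (nml φ) x) = 1), fun c hc => ?_⟩
  by_contra hcon
  push Not at hcon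
  obtain ⟨i, hi, hic⟩ := List.getElem_of_mem hc
  have hci : φ[i]?.getD [] = c := by rw [List.getElem?_eq_getElem hi, Option.getD_some, hic]
  have he := h (ceq φ i) (List.mem_append_right _ (List.mem_map.2 ⟨i, List.mem_range.2 hi, rfl⟩))
  unfold ceq at he
  rw [hci] at he
  simp only [List.map_append, List.map_map, List.sum_append] at he
  have h1 : (c.map (z ∘ lpos (nml φ))).sum ≤ (c.map fun _ => (0 : ℤ)).sum := by
    apply List.sum_le_sum
    intro l hl
    have hb := hcon l hl
    obtain ⟨hx1, hx2⟩ := ix_spec (mem_nml hc hl)
    have e1 := hv _ hx1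
    have e2 := hz' (1 + 2 * ix (nml φ) l.2) (by unfold npos; omega)
    have e3 := hz' (2 + 2 * ix (nml φ) l.2) (by unfold npos; omega)
    simp only [Function.comp_apply]
    unfold lpos
    obtain ⟨b, x⟩ := l
    cases b
    · simp only [ne_eq, Bool.not_eq_false, decide_eq_true_eq] at hb
      simp only [Bool.false_eq_true, if_false]
      simp only at e1 e2 e3
      omega
    · simp only [ne_eq, Bool.not_eq_true, decide_eq_false_iff_not] at hb
      simp only [if_true]
      simp only at e1 e2 e3
      omega
  have h2 : ((List.range (c.length - 1)).map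
      (z ∘ fun t => 1 + 2 * (nml φ).length + (i * (nml φ).length + t))).sum ≤
      ((List.range (c.length - 1)).map fun _ => (1 : ℤ)).sum := by
    apply List.sum_le_sum
    intro t ht
    rw [List.mem_range] at ht
    simp only [Function.comp_apply]
    refine (hz' _ ?_).2
    refine (sys_pos φ (ceq φ i)
      (List.mem_append_right _ (List.mem_map.2 ⟨i, List.mem_range.2 hi, rfl⟩)) _ ?_).2
    unfold ceq
    rw [hci]
    exact List.mem_append_right _ (List.mem_map.2 ⟨t, List.mem_range.2 ht, rfl⟩)
  simp only [List.map_const', List.sum_replicate, List.length_range, smul_zero, nsmul_eq_mul,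
    mul_one] at h1 h2
  push_cast at he
  omega

/-- Value of the literal digits and slack digits given by an assignment. -/
def wv (φ : Cnf) (A : Nm → Bool) (j : ℕ) : ℕ :=
  if j = 0 then 1 else
  if j < 1 + 2 * (nml φ).length then
    (match (nml φ)[(j - 1) / 2]? with
      | none => 0
      | some x => if A x = decide ((j - 1) % 2 = 0) then 1 else 0)
  else
    if (j - (1 + 2 * (nml φ).length)) % (nml φ).length <
      (φ[(j - (1 + 2 * (nml φ).length)) / (nml φ).length]?.getD []).length -
        (φ[(j - (1 + 2 * (nml φ).length)) / (nml φ).length]?.getD []).countP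
          (fun l => decide (A l.2 = l.1)) then 1 else 0

theorem wv_lit (A : Nm → Bool) {c : List (Bool × Nm)} (hc : c ∈ φ) {l : Bool × Nm} (hl : l ∈ c) :
    wv φ A (lpos (nml φ) l) = if A l.2 = l.1 then 1 else 0 := by
  obtain ⟨h1, h2⟩ := lpos_range hc hl
  obtain ⟨hx1, hx2⟩ := ix_spec (mem_nml hc hl)
  unfold wv
  rw [if_neg (by omega), if_pos h2]
  obtain ⟨b, x⟩ := l
  unfold lpos
  cases b
  · simp only [Bool.false_eq_true, if_false] at hx2 ⊢
    have e1 : (2 + 2 * ix (nml φ) x - 1) / 2 = ix (nml φ) x := by omega
    have e2 : (2 + 2 * ix (nml φ) x - 1) % 2 = 1 := by omega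
    rw [e1, e2, hx2]
    simp
  · simp only [if_true] at hx2 ⊢
    have e1 : (1 + 2 * ix (nml φ) x - 1) / 2 = ix (nml φ) x := by omega
    have e2 : (1 + 2 * ix (nml φ) x - 1) % 2 = 0 := by omega
    rw [e1, e2, hx2]
    simp

theorem sum_lt_ite (s : ℕ) : ∀ n, s ≤ n →
    ((List.range n).map fun t => if t < s then 1 else 0).sum = s := by
  intro n
  induction n with
  | zero => intro h; simp; omega
  | succ n ih =>
    intro h
    rw [List.range_succ, List.map_append, List.sum_append]
    rcases Nat.lt_or_ge n s with h1 | h1
    · have e : s = n + 1 := by omega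
      subst e
      have : ((List.range n).map fun t => if t < n + 1 then 1 else 0) =
          (List.range n).map fun _ => 1 := by
        apply List.map_congr_left
        intro t ht
        rw [List.mem_range] at ht
        rw [if_pos (by omega)]
      rw [this]
      simp
    · rw [ih h1]
      simp
      omega

theorem sys_of_sat (h : Sat φ) :
    ∃ w : ℕ → ℕ, w 0 = 1 ∧ (∀ j, w j ≤ 1) ∧ ∀ e ∈ sys φ, (e.1.map w).sum = e.2 := by
  obtain ⟨A, hA⟩ := h
  refine ⟨wv φ A, by simp [wv], fun j => ?_, fun e he => ?_⟩
  · unfold wv
    split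
    · exact le_rfl
    · split
      · split
        · omega
        · split <;> omega
      · split <;> omega
  · unfold sys at he
    rw [List.mem_append] at he
    rcases he with he | he
    · rw [List.mem_map] at he
      obtain ⟨v, hv, rfl⟩ := he
      rw [List.mem_range] at hv
      simp only [List.map_cons, List.map_nil, List.sum_cons, List.sum_nil]
      unfold wv
      rw [if_neg (by omega), if_pos (by omega), if_neg (by omega), if_pos (by omega)]
      have e1 : (1 + 2 * v - 1) / 2 = v := by omega
      have e2 : (1 + 2 * v - 1) % 2 = 0 := by omega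
      have e3 : (2 + 2 * v - 1) / 2 = v := by omega
      have e4 : (2 + 2 * v - 1) % 2 = 1 := by omega
      rw [e1, e2, e3, e4, List.getElem?_eq_getElem hv]
      rcases Bool.eq_false_or_eq_true (A (nml φ)[v]) with h | h <;> simp [h]
    · rw [List.mem_map] at he
      obtain ⟨i, hi, rfl⟩ := he
      rw [List.mem_range] at hi
      have hc := clause_mem hi
      unfold ceq
      generalize hcd : φ[i]?.getD [] = c at hc
      simp only [List.map_append, List.map_map, List.sum_append]
      have h1 : (c.map (wv φ A ∘ lpos (nml φ))).sum = c.countP (fun l => decide (A l.2 = l.1)) := by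
        have : c.map (wv φ A ∘ lpos (nml φ)) = c.map fun l => if A l.2 = l.1 then 1 else 0 :=
          List.map_congr_left fun l hl => wv_lit A hc hl
        rw [this]
        clear this hcd hc
        induction c with
        | nil => simp
        | cons a c ih =>
          rw [List.map_cons, List.sum_cons, ih, List.countP_cons]
          simp only [decide_eq_true_eq]
          omega
      have hs : 0 < c.countP (fun l => decide (A l.2 = l.1)) := by
        rw [List.countP_pos_iff]
        obtain ⟨l, hl, hl2⟩ := hA c hc
        exact ⟨l, hl, by simpa using hl2⟩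
      have hle : c.countP (fun l => decide (A l.2 = l.1)) ≤ c.length := List.countP_le_length
      have hn := length_le_nml hc
      have h2 : ((List.range (c.length - 1)).map
          (wv φ A ∘ fun t => 1 + 2 * (nml φ).length + (i * (nml φ).length + t))).sum =
          c.length - c.countP (fun l => decide (A l.2 = l.1)) := by
        rw [← sum_lt_ite (c.length - c.countP (fun l => decide (A l.2 = l.1))) (c.length - 1)
          (by omega)]
        congr 1
        apply List.map_congr_left
        intro t ht
        rw [List.mem_range] at ht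
        simp only [Function.comp_apply]
        unfold wv
        rw [if_neg (by omega), if_neg (by omega)]
        have e0 : 1 + 2 * (nml φ).length + (i * (nml φ).length + t) - (1 + 2 * (nml φ).length) =
            t + (nml φ).length * i := by rw [Nat.mul_comm (nml φ).length i]; omega
        have e1 : (t + (nml φ).length * i) % (nml φ).length = t := by
          rw [Nat.add_mul_mod_self_left, Nat.mod_eq_of_lt (by omega)]
        have e2 : (t + (nml φ).length * i) / (nml φ).length = i := by
          rw [Nat.add_mul_div_left _ _ (by omega), Nat.div_eq_of_lt (by omega), Nat.zero_add]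
        rw [e0, e1, e2, hcd]
      rw [h1, h2]
      omega

end Pool.Agent.BJ
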