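import Pool.Agent.BJ.EncInj
import Pool.Agent.BJ.Close
import Pool.Agent.BJ.SatSys
import Pool.Agent.BJ.RedPoly

/-!
# Every problem in coNP reduces to BJIT
-/

namespace Pool.Agent.BJ

open Pool.Agent.Bx81 Pool.Agent.PT81 Pool.Agent.IsoImp Turing Polynomial

theorem mpar_ge (φ : Cnf) : 4 ≤ mpar φ := by unfold mpar; omega
theorem mpar_odd (φ : Cnf) : mpar φ % 2 = 1 := by unfold mpar; omega
theorem npos_pos (φ : Cnf) : 0 < npos φ := by unfold npos; omega

/-- The instance of a formula is feasible iff the formula is unsatisfiable. -/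
theorem feas_red (φ : Cnf) :
    Feas (dvec (mpar φ) (npos φ) (sys φ)) (bnd (mpar φ)) ↔ ¬ Sat φ := by
  constructor
  · intro h hs
    obtain ⟨w, h0, hw, he⟩ := sys_of_sat hs
    exact not_feas_of (mpar_ge φ) (mpar_odd φ) (npos_pos φ) (sys_pos φ) (sys_size φ) (sys_len φ)
      w h0 hw he h
  · intro h
    by_contra hcon
    obtain ⟨z, hz, he⟩ := exists_of_not_feas (mpar_ge φ) (npos_pos φ) (sys_pos φ) (sys_size φ)
      (sys_len φ) hcon
    exact h (sat_of_sys z hz he)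

theorem jstr_mem (φ : Cnf) : jstr φ ∈ BJIT ↔ ¬ Sat φ := by
  obtain ⟨h1, h2⟩ := dvec_ok (mpar_ge φ) (npos_pos φ) (sys_pos φ) (sys_size φ)
  rw [← feas_red φ]
  exact encode_mem' h1 h2 (bnd_nonneg _)

/-- Change of the encoding of the output symbols. -/
theorem poly_recode {E : Env} {γ Δ : Type} [Enc E γ] [Fintype Δ] (i₁ i₂ : Enc E Δ)
    {f : γ → List Δ} (hf : @Poly γ (List Δ) E _ (@instEncList E Δ i₁) f) :
    @Poly γ (List Δ) E _ (@instEncList E Δ i₂) f := by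
  have h1 : @Poly Δ Δ E i₁ i₂ (fun x => x) := @Poly.ofFin E Δ Δ i₁ i₂ _ (fun x => x)
  have h2 : @Poly (γ × Δ) Δ E (@instEncProd E γ Δ _ i₁) i₂ (fun p => p.2) :=
    @Poly.comp E (γ × Δ) Δ Δ (@instEncProd E γ Δ _ i₁) i₁ i₂ _ _ h1 (@Poly.snd E γ Δ _ i₁)
  have h3 := @Poly.map E Δ Δ γ i₁ i₂ _ f (fun p => p.2) hf h2
  refine @Poly.congr E γ (List Δ) _ (@instEncList E Δ i₂) _ f h3 fun c => ?_
  exact List.map_id _

/-- The strings of instances `(d, 1 - 1 / M)` with `d` a nonempty vector of positive integers. -/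
def Inst1 (w : List (Option Bool)) : Prop :=
  ∃ (d : List ℕ) (M : ℕ), d ≠ [] ∧ (∀ a ∈ d, 0 < a) ∧ 2 ≤ M ∧ w = encode d (1 - 1 / (M : ℚ))

theorem jstr_inst (φ : Cnf) : Inst1 (jstr φ) := by
  obtain ⟨h1, h2⟩ := dvec_ok (mpar_ge φ) (npos_pos φ) (sys_pos φ) (sys_size φ)
  have hm := mpar_ge φ
  refine ⟨_, 2 * mpar φ, h1, h2, by omega, ?_⟩
  unfold jstr
  congr 1
  unfold bnd
  have h3 : ((2 * mpar φ : ℕ) : ℚ) ≠ 0 := by
    have : 2 * mpar φ ≠ 0 := by omega
    exact_mod_cast this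
  rw [Nat.cast_sub (by omega : 1 ≤ 2 * mpar φ), sub_div, div_self h3, Nat.cast_one]

/-- Every language whose complement is in `NP` reduces to `BJIT`, by a map that is polynomial in
the framework `Poly`. -/
theorem hard_poly {Γ : Type} [Fintype Γ] (L : Set (List Γ)) (hL : InNP Lᶜ) :
    ∃ f : List Γ → List (Option Bool), (∀ (E : Env) [Enc E Γ] [Enc E (Option Bool)], Poly E f) ∧
      (∀ x, Inst1 (f x)) ∧ ∀ x, x ∈ L ↔ f x ∈ BJIT := by
  obtain ⟨R, q, hR, hq⟩ := hL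
  obtain ⟨F, hF, hFL⟩ := Cook81.cook_levin hR hq
  refine ⟨fun x => jstr (F x), ?_, fun x => jstr_inst _, fun x => ?_⟩
  · intro E _ i₂
    exact poly_recode _ i₂ (poly_jstr (hF E))
  · rw [jstr_mem]
    have := hFL x
    rw [Set.mem_compl_iff] at this
    constructor
    · intro h hs; exact this.2 hs h
    · intro h; by_contra hx; exact h (this.1 hx)

/-- Every language whose complement is in `NP` is polynomial-time many-one reducible to `BJIT`. -/
theorem hard {Γ : Type} [Fintype Γ] (L : Set (List Γ)) (hL : InNP Lᶜ) :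
    ∃ f : List Γ → List (Option Bool), PolyTime f ∧ (∀ x, Inst1 (f x)) ∧
      ∀ x, x ∈ L ↔ f x ∈ BJIT := by
  classical
  obtain ⟨f, hf, h1, h⟩ := hard_poly L hL
  refine ⟨f, ?_, h1, h⟩
  let _ : Enc (io Γ (Option Bool)) Γ := finEnc _ _
  exact poly_toTM2 (hf (io Γ (Option Bool))) _ _ _ (fun _ => rfl)

/-- `BJIT` is in `NP` only if `NP` is closed under complement. -/
theorem compl_of_inNP (hB : InNP BJIT) {Γ : Type} [Fintype Γ] (L : Set (List Γ)) (hL : InNP L) :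
    InNP Lᶜ := by
  obtain ⟨f, hf, _, h⟩ := hard_poly Lᶜ (by rwa [compl_compl])
  exact inNP_of_poly f hf h hB

end Pool.Agent.BJ
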